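import Pool.Agent.Q152.TA.Main
import Pool.Agent.Helper741.Cocycle
import Pool.Agent.Q87.Cox.Tits
import Pool.Agent.Q105.FJ.Cox
import Pool.Agent.Q143.EI.Push
import Pool.Agent.Q91.FJ.Laws

/-!
# Artin groups with separating sets of commuting generators
-/

set_option autoImplicit false
set_option linter.unusedSectionVars false
set_option linter.style.haveILetI false

namespace Pool.Agent.Q152.AS

open Pool.Agent.Y462.SS Pool.Agent.Q152.WP Pool.Agent.Helper741 Pool.Agent.Helper741.TExt
open Pool.Agent.Q91.FJ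

/-- the Coxeter matrix of a set of generators -/
def rs {B : Type} (M : CoxeterMatrix B) (P : Set B) : CoxeterMatrix P where
  M := M.M.submatrix Subtype.val Subtype.val
  isSymm := M.isSymm.submatrix Subtype.val
  diagonal := fun i => M.diagonal i
  off_diagonal := fun i j h => M.off_diagonal i j (fun h' => h (Subtype.ext h'))

theorem rs_apply {B : Type} (M : CoxeterMatrix B) (P : Set B) (i j : P) : rs M P i j = M i j := rfl

section maps

variable {B B' : Type} {M : CoxeterMatrix B} {M' : CoxeterMatrix B'}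

/-- the homomorphism of Artin groups of a map of generators -/
def amap (f : B' → B) (hf : ∀ i j, M (f i) (f j) = M' i j) : Artin M' →* Artin M :=
  Artin.lift (fun i => Artin.gen M (f i)) (fun i j => by
    rw [← hf i j]
    exact Artin.rel _ _)

theorem amap_gen (f : B' → B) (hf : ∀ i j, M (f i) (f j) = M' i j) (i : B') :
    amap f hf (Artin.gen M' i) = Artin.gen M (f i) := Artin.lift_gen _ _ _

/-- the length homomorphism -/
def mu (M : CoxeterMatrix B) : Artin M →* Multiplicative ℤ :=
  Artin.lift (fun _ => Multiplicative.ofAdd 1) (fun _ _ => rfl)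

theorem mu_gen (i : B) : mu M (Artin.gen M i) = Multiplicative.ofAdd 1 := Artin.lift_gen _ _ _

/-- the homomorphism to the extension of the Coxeter group -/
noncomputable def psi (M : CoxeterMatrix B) : Artin M →* TExt ℤ M.Group :=
  cocyc M.toCoxeterSystem (mu M)

theorem psi_gen (i : B) : psi M (Artin.gen M i) = el 1 (M.toCoxeterSystem.simple i) := by
  unfold psi
  rw [cocyc_gen, mu_gen]
  rfl

end maps

/-- all generators commute -/
def AllComm {B : Type} (M : CoxeterMatrix B) : Prop := ∀ i j, i ≠ j → M i j = 2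

section comm

variable {B B' : Type} {M : CoxeterMatrix B} {M' : CoxeterMatrix B'} (hM' : AllComm M')

include hM' in
theorem gen_comm (i j : B') : Artin.gen M' i * Artin.gen M' j = Artin.gen M' j * Artin.gen M' i := by
  by_cases h : i = j
  · rw [h]
  · have := Artin.rel (M := M') i j
    rw [hM' i j h, alt_two, alt_two] at this
    exact this

include hM' in
theorem artin_comm (x y : Artin M') : x * y = y * x := by
  have h1 : ∀ (x : Artin M') (j : B'), x * Artin.gen M' j = Artin.gen M' j * x := by
    intro x j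
    induction x using Artin.induction with
    | one => rw [one_mul, mul_one]
    | gen i => exact gen_comm hM' i j
    | mul x y hx hy => rw [mul_assoc, hy, ← mul_assoc, hx, mul_assoc]
    | inv x hx =>
      rw [inv_mul_eq_iff_eq_mul, ← mul_assoc, hx, mul_inv_cancel_right]
  induction y using Artin.induction with
  | one => rw [one_mul, mul_one]
  | gen i => exact h1 x i
  | mul y z hy hz => rw [← mul_assoc, hy, mul_assoc, hz, mul_assoc]
  | inv y hy => rw [mul_inv_eq_iff_eq_mul, mul_assoc, hy, inv_mul_cancel_left]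

/-- exponents -/
noncomputable def EE : Artin M' →* Multiplicative (B' →₀ ℤ) :=
  Artin.lift (fun i => Multiplicative.ofAdd (Finsupp.single i 1)) (fun i j => by
    by_cases h : i = j
    · rw [h]
    · rw [hM' i j h, alt_two, alt_two, mul_comm])

theorem EE_gen (i : B') : EE hM' (Artin.gen M' i) = Multiplicative.ofAdd (Finsupp.single i 1) :=
  Artin.lift_gen _ _ _

theorem EE_injective : Function.Injective (EE hM') := by
  letI : CommGroup (Artin M') :=
    { (inferInstance : Group (Artin M')) with mul_comm := artin_comm hM' }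
  let F : Multiplicative (B' →₀ ℤ) →* Artin M' :=
    { toFun := fun v => (Multiplicative.toAdd v).prod (fun i n => Artin.gen M' i ^ n)
      map_one' := Finsupp.prod_zero_index
      map_mul' := fun v w => by
        rw [toAdd_mul]
        exact Finsupp.prod_add_index' (fun i => zpow_zero _) (fun i a b => zpow_add _ _ _) }
  have h : F.comp (EE hM') = MonoidHom.id _ := by
    apply Artin.hom_ext
    intro i
    rw [MonoidHom.comp_apply, EE_gen]
    change (Finsupp.single i (1 : ℤ)).prod (fun i n => Artin.gen M' i ^ n) = Artin.gen M' i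
    rw [Finsupp.prod_single_index (zpow_zero _), zpow_one]
  intro a b hab
  have h1 := congrArg F hab
  have h2 : ∀ x, F (EE hM' x) = x := fun x => DFunLike.congr_fun h x
  rwa [h2, h2] at h1

variable (f : B' → B) (hf : ∀ i j, M (f i) (f j) = M' i j)

include hM' in
theorem w_comm (x : Artin M') (j : B') :
    (psi M (amap f hf x)).w * M.toCoxeterSystem.simple (f j) =
      M.toCoxeterSystem.simple (f j) * (psi M (amap f hf x)).w := by
  induction x using Artin.induction with
  | one => rw [map_one, map_one, one_w, one_mul, mul_one]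
  | gen i =>
    rw [amap_gen, psi_gen, el_w]
    by_cases h : i = j
    · rw [h]
    · have h1 := M.toCoxeterSystem.simple_mul_simple_pow (f i) (f j)
      have h2 := alt_comm_of_pow (M.toCoxeterSystem.simple_mul_simple_self (f i))
        (M.toCoxeterSystem.simple_mul_simple_self (f j)) h1
      rw [hf, hM' i j h, alt_two, alt_two] at h2
      exact h2
  | mul x y hx hy => rw [map_mul, map_mul, mul_w, mul_assoc, hy, ← mul_assoc, hx, mul_assoc]
  | inv x hx =>
    rw [map_inv, map_inv, inv_w, inv_mul_eq_iff_eq_mul, ← mul_assoc, hx, mul_inv_cancel_right]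

theorem v_eval (hinj : Function.Injective f) (x : Artin M') (j : B') :
    (psi M (amap f hf x)).v (M.toCoxeterSystem.simple (f j)) =
      (Multiplicative.toAdd (EE hM' x)) j := by
  have hc : ∀ x : Artin M', ((psi M (amap f hf x)).w)⁻¹ * M.toCoxeterSystem.simple (f j) *
      (psi M (amap f hf x)).w = M.toCoxeterSystem.simple (f j) := by
    intro x
    rw [mul_assoc, ← w_comm hM' f hf x j, inv_mul_cancel_left]
  induction x using Artin.induction with
  | one =>
    rw [map_one, map_one, map_one]
    rfl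
  | gen i =>
    rw [amap_gen, psi_gen, el_v, EE_gen]
    change (Finsupp.single _ (1 : ℤ)) _ = (Finsupp.single i (1 : ℤ)) j
    by_cases h : i = j
    · rw [h, Finsupp.single_eq_same, Finsupp.single_eq_same]
    · rw [Finsupp.single_eq_of_ne (fun h' => h ?_), Finsupp.single_eq_of_ne (fun h' => h ?_)]
      · first | exact h' | exact h'.symm
      · have h2 := Pool.Agent.Q87.Cox.Geo.simple_injective M.toCoxeterSystem h'
        first | exact hinj h2 | exact (hinj h2).symm
  | mul x y hx hy =>
    rw [map_mul, map_mul, mul_v, Finsupp.add_apply, act_apply, hc, hx, hy, map_mul]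
    rfl
  | inv x hx =>
    have hc' : (psi M (amap f hf x)).w * M.toCoxeterSystem.simple (f j) *
        ((psi M (amap f hf x)).w)⁻¹ = M.toCoxeterSystem.simple (f j) := by
      rw [w_comm hM' f hf x j, mul_inv_cancel_right]
    rw [map_inv, map_inv, inv_v, Finsupp.neg_apply, act_apply, inv_inv, hc', hx, map_inv]
    rfl

include hM' in
theorem psi_amap_injective (hinj : Function.Injective f) :
    Function.Injective ((psi M).comp (amap f hf)) := by
  refine (injective_iff_map_eq_one _).2 (fun x hx => ?_)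
  apply EE_injective hM'
  rw [map_one]
  change Multiplicative.ofAdd (Multiplicative.toAdd (EE hM' x)) = Multiplicative.ofAdd 0
  congr 1
  ext j
  rw [← v_eval hM' f hf hinj x j]
  have h1 : psi M (amap f hf x) = 1 := hx
  rw [h1]
  rfl

end comm

variable {C : ∀ (G : Type) [Group G], Prop}

/-- Coxeter groups of any rank -/
theorem cox_mem (hC : Closed C) (hE : ExtClosed C)
    (hfin : ∀ (V : Type) [Finite V] (M : CoxeterMatrix V), C M.Group) {B : Type}
    (M : CoxeterMatrix B) : C M.Group := by
  have hU : C PUnit.{1} :=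
    hC.of_injective _ _ (1 : PUnit.{1} →* Multiplicative ℤ) (fun a b _ => rfl) hC.int
  refine Pool.Agent.Q105.FJ.CX.kernel_mem hC hE hfin M (1 : M.Group →* PUnit.{1})
    (fun x => ⟨1, rfl⟩) hU (MonoidHom.id _) (fun a b h => h) ?_ ?_
  · ext x
    exact ⟨fun _ => rfl, fun _ => ⟨x, rfl⟩⟩
  · intro g hg
    exact absurd (isOfFinOrder_iff_pow_eq_one.2 ⟨1, Nat.one_pos, rfl⟩) hg

theorem texts_mem (hC : Closed C) (hE : ExtClosed C) (hS : HasSolvable C)
    (hfin : ∀ (V : Type) [Finite V] (M : CoxeterMatrix V), C M.Group) {B : Type}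
    (M : CoxeterMatrix B) : C (TExt ℤ M.Group) := by
  refine Pool.Agent.Q152.TA.abelian_ext hE hS (toW (C := ℤ) (W := M.Group)) (fun w => ⟨⟨0, w⟩, rfl⟩)
    (cox_mem hC hE hfin M) ?_
  intro a b ha hb
  have ha' : a.w = 1 := ha
  have hb' : b.w = 1 := hb
  apply TExt.ext
  · rw [mul_v, mul_v, ha', hb', act_one, act_one, add_comm]
  · rw [mul_w, mul_w, ha', hb']

/-! ### one separation -/

section sep

open Monoid

variable {I B : Type} (M : CoxeterMatrix B) (P : I → Set B) (P₀ : Set B)

/-- `P₀` separates the generators into the sets `P i` -/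
structure Sep : Prop where
  cover : ∀ b, ∃ i, b ∈ P i
  sub : ∀ i, P₀ ⊆ P i
  inter : ∀ i j, i ≠ j → P i ∩ P j ⊆ P₀
  none : ∀ i j, i ≠ j → ∀ b ∈ P i, ∀ c ∈ P j, b ∉ P₀ → c ∉ P₀ → M b c = 0
  comm : ∀ b ∈ P₀, ∀ c ∈ P₀, b ≠ c → M b c = 2

variable {M P P₀} (h : Sep M P P₀)

/-- the inclusions of the amalgamated subgroup -/
def ph (h : Sep M P P₀) (i : I) : Artin (rs M P₀) →* Artin (rs M (P i)) :=
  amap (Set.inclusion (h.sub i)) (fun _ _ => rfl)

/-- the inclusion of a special subgroup -/
def inc (M : CoxeterMatrix B) (P : Set B) : Artin (rs M P) →* Artin M :=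
  amap Subtype.val (fun _ _ => rfl)

theorem ph_gen (i : I) (b : P₀) :
    ph h i (Artin.gen (rs M P₀) b) = Artin.gen (rs M (P i)) ⟨b, h.sub i b.2⟩ :=
  amap_gen (M := rs M (P i)) (M' := rs M P₀) (Set.inclusion (h.sub i)) (fun _ _ => rfl) b

theorem inc_gen (M : CoxeterMatrix B) (P : Set B) (b : P) :
    inc M P (Artin.gen (rs M P) b) = Artin.gen M b :=
  amap_gen (M := M) (M' := rs M P) Subtype.val (fun _ _ => rfl) b

theorem inc_ph (i : I) : (inc M (P i)).comp (ph h i) = inc M P₀ := by
  apply Artin.hom_ext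
  intro b
  rw [MonoidHom.comp_apply, ph_gen, inc_gen, inc_gen]

include h in
theorem allComm : AllComm (rs M P₀) := fun i j hij =>
  h.comm i i.2 j j.2 (fun h' => hij (Subtype.ext h'))

theorem ph_injective (i : I) : Function.Injective (ph h i) := by
  have h1 : Function.Injective ((psi M).comp (inc M P₀)) :=
    psi_amap_injective (allComm h) Subtype.val (fun _ _ => rfl) Subtype.val_injective
  rw [← inc_ph h i, ← MonoidHom.comp_assoc] at h1
  have h2 : Function.Injective (((psi M).comp (inc M (P i))) ∘ (ph h i)) := h1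
  exact h2.of_comp

open Classical in
/-- the images of the generators in the amalgamated product -/
noncomputable def jg (h : Sep M P P₀) (b : B) : PushoutI (ph h) :=
  if hb : b ∈ P₀ then PushoutI.base (ph h) (Artin.gen _ ⟨b, hb⟩)
  else PushoutI.of (h.cover b).choose (Artin.gen _ ⟨b, (h.cover b).choose_spec⟩)

theorem jg_eq (i : I) (b : B) (hb : b ∈ P i) :
    jg h b = PushoutI.of i (Artin.gen (rs M (P i)) ⟨b, hb⟩) := by
  unfold jg
  split_ifs with h0
  · rw [← PushoutI.of_apply_eq_base (ph h) i]
    exact congrArg _ (ph_gen h i ⟨b, h0⟩)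
  · by_cases hi : (h.cover b).choose = i
    · subst hi
      rfl
    · exact absurd (h.inter _ _ hi ⟨(h.cover b).choose_spec, hb⟩) h0

/-- the homomorphism to the amalgamated product -/
noncomputable def J (h : Sep M P P₀) : Artin M →* PushoutI (ph h) :=
  Artin.lift (jg h) (fun b c => by
    by_cases hbc : ∃ i, b ∈ P i ∧ c ∈ P i
    · obtain ⟨i, hb, hc⟩ := hbc
      rw [jg_eq h i b hb, jg_eq h i c hc, ← map_alt, ← map_alt]
      congr 1
      exact Artin.rel (M := rs M (P i)) ⟨b, hb⟩ ⟨c, hc⟩
    · obtain ⟨i, hb⟩ := h.cover b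
      obtain ⟨j, hc⟩ := h.cover c
      have hij : i ≠ j := by
        rintro rfl
        exact hbc ⟨i, hb, hc⟩
      have h0 : M b c = 0 := h.none i j hij b hb c hc (fun hb0 => hbc ⟨j, h.sub j hb0, hc⟩)
        (fun hc0 => hbc ⟨i, hb, h.sub i hc0⟩)
      rw [h0, alt_zero, alt_zero])

theorem J_gen (b : B) : J h (Artin.gen M b) = jg h b := Artin.lift_gen _ _ _

/-- the homomorphism back -/
noncomputable def K (h : Sep M P P₀) : PushoutI (ph h) →* Artin M :=
  PushoutI.lift (fun i => inc M (P i)) (inc M P₀) (inc_ph h)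

theorem K_J : (K h).comp (J h) = MonoidHom.id _ := by
  apply Artin.hom_ext
  intro b
  obtain ⟨i, hb⟩ := h.cover b
  rw [MonoidHom.comp_apply, J_gen, jg_eq h i b hb]
  have h1 : K h (PushoutI.of i (Artin.gen (rs M (P i)) ⟨b, hb⟩)) =
    inc M (P i) (Artin.gen (rs M (P i)) ⟨b, hb⟩) := PushoutI.lift_of _ _ _ _
  rw [h1]
  exact inc_gen _ _ _

theorem J_injective : Function.Injective (J h) := by
  intro a b hab
  have h1 : ∀ x, K h (J h x) = x := fun x => DFunLike.congr_fun (K_J h) x
  rw [← h1 a, ← h1 b, hab]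

theorem J_inc (i : I) : (J h).comp (inc M (P i)) = PushoutI.of (φ := ph h) i := by
  apply Artin.hom_ext
  intro b
  rw [MonoidHom.comp_apply]
  rw [inc_gen, J_gen, jg_eq h i b b.2]

include h in
/-- the special subgroups embed -/
theorem inc_injective (i : I) : Function.Injective (inc M (P i)) := by
  have h1 : Function.Injective (PushoutI.of (φ := ph h) i) :=
    PushoutI.of_injective (ph_injective h) i
  rw [← J_inc h i] at h1
  have h2 : Function.Injective ((J h) ∘ (inc M (P i))) := h1
  exact h2.of_comp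

theorem sep_mem [Nonempty I] (hC : Closed C) (hE : ExtClosed C) (hS : HasSolvable C)
    (hfin : ∀ (V : Type) [Finite V] (M : CoxeterMatrix V), C M.Group) (h : Sep M P P₀)
    (hA : ∀ i, C (Artin (rs M (P i)))) : C (Artin M) := by
  refine hC.of_injective _ _ (J h) (J_injective h) ?_
  refine Pool.Agent.Q143.EI.push_edge hC hE (ph_injective h) hA (texts_mem hC hE hS hfin M)
    (fun i => (psi M).comp (inc M (P i))) ((psi M).comp (inc M P₀)) (fun i => ?_) ?_
  · rw [MonoidHom.comp_assoc, inc_ph h i]
  · exact psi_amap_injective (allComm h) Subtype.val (fun _ _ => rfl) Subtype.val_injective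

theorem sep_iff [Nonempty I] (hC : Closed C) (hE : ExtClosed C) (hS : HasSolvable C)
    (hfin : ∀ (V : Type) [Finite V] (M : CoxeterMatrix V), C M.Group) (h : Sep M P P₀) :
    C (Artin M) ↔ ∀ i, C (Artin (rs M (P i))) :=
  ⟨fun h1 i => hC.of_injective _ _ _ (inc_injective h i) h1, sep_mem hC hE hS hfin h⟩

end sep

/-! ### infinite rank -/

section colim

variable {B : Type} (M : CoxeterMatrix B)

/-- the inclusions -/
def tr {P P' : Set B} (h : P ⊆ P') : Artin (rs M P) →* Artin (rs M P') :=
  amap (Set.inclusion h) (fun _ _ => rfl)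

theorem tr_gen {P P' : Set B} (h : P ⊆ P') (b : P) :
    tr M h (Artin.gen (rs M P) b) = Artin.gen (rs M P') ⟨b, h b.2⟩ :=
  amap_gen (M := rs M P') (M' := rs M P) (Set.inclusion h) (fun _ _ => rfl) b

theorem inc_tr {P P' : Set B} (h : P ⊆ P') : (inc M P').comp (tr M h) = inc M P := by
  apply Artin.hom_ext
  intro b
  rw [MonoidHom.comp_apply, tr_gen, inc_gen, inc_gen]

/-- families of elements -/
abbrev Pr : Type := ∀ s : Finset B, Artin (rs M (s : Set B))

/-- eventually trivial families -/
def Ev : Subgroup (Pr M) where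
  carrier := {x | ∃ s₀ : Finset B, ∀ s, s₀ ⊆ s → x s = 1}
  one_mem' := ⟨∅, fun _ _ => rfl⟩
  mul_mem' := by
    classical
    rintro x y ⟨s, hs⟩ ⟨t, ht⟩
    refine ⟨s ∪ t, fun r hr => ?_⟩
    rw [Pi.mul_apply, hs r (Finset.union_subset_left hr), ht r (Finset.union_subset_right hr),
      one_mul]
  inv_mem' := by
    rintro x ⟨s, hs⟩
    refine ⟨s, fun r hr => ?_⟩
    rw [Pi.inv_apply, hs r hr, inv_one]

instance : (Ev M).Normal := ⟨by
  rintro x ⟨s, hs⟩ g
  refine ⟨s, fun r hr => ?_⟩
  rw [Pi.mul_apply, Pi.mul_apply, hs r hr, Pi.inv_apply, mul_one, mul_inv_cancel]⟩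

open Classical in
/-- the family of a generator -/
noncomputable def gf (b : B) : Pr M := fun s =>
  if h : b ∈ (s : Set B) then Artin.gen (rs M (s : Set B)) ⟨b, h⟩ else 1

theorem gf_of_mem (b : B) (s : Finset B) (h : b ∈ (s : Set B)) :
    gf M b s = Artin.gen (rs M (s : Set B)) ⟨b, h⟩ := dif_pos h

/-- the homomorphism to the reduced product -/
noncomputable def hR : Artin M →* Pr M ⧸ Ev M :=
  Artin.lift (fun b => QuotientGroup.mk' (Ev M) (gf M b)) (fun b c => by
    classical
    rw [← map_alt, ← map_alt]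
    refine (QuotientGroup.eq (s := Ev M)).2 ⟨{b, c}, fun s hs => ?_⟩
    have hb : b ∈ (s : Set B) := hs (by simp)
    have hc : c ∈ (s : Set B) := hs (by simp)
    have h1 : ∀ x y : Pr M, ∀ m, (alt x y m) s = alt (x s) (y s) m := fun x y m =>
      map_alt (Pi.evalMonoidHom (fun s : Finset B => Artin (rs M (s : Set B))) s) x y m
    rw [Pi.mul_apply, Pi.inv_apply, h1, h1, gf_of_mem M b s hb, gf_of_mem M c s hc,
      inv_mul_eq_one]
    exact Artin.rel (M := rs M (s : Set B)) ⟨b, hb⟩ ⟨c, hc⟩)

theorem hR_gen (b : B) : hR M (Artin.gen M b) = QuotientGroup.mk' (Ev M) (gf M b) :=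
  Artin.lift_gen _ _ _

open Classical in
/-- the homomorphism of a special subgroup -/
noncomputable def hT (P : Finset B) : Artin (rs M (P : Set B)) →* Pr M ⧸ Ev M :=
  (QuotientGroup.mk' (Ev M)).comp
    { toFun := fun x s => if h : (P : Set B) ⊆ (s : Set B) then tr M h x else 1
      map_one' := by
        funext s
        by_cases h : (P : Set B) ⊆ (s : Set B)
        · simp only [dif_pos h, map_one, Pi.one_apply]
        · simp only [dif_neg h, Pi.one_apply]
      map_mul' := fun x y => by
        funext s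
        by_cases h : (P : Set B) ⊆ (s : Set B)
        · simp only [dif_pos h, map_mul, Pi.mul_apply]
        · simp only [dif_neg h, Pi.mul_apply, mul_one] }

theorem hT_eq (P : Finset B) : (hR M).comp (inc M (P : Set B)) = hT M P := by
  classical
  apply Artin.hom_ext
  intro b
  rw [MonoidHom.comp_apply, inc_gen, hR_gen]
  refine (QuotientGroup.eq (s := Ev M)).2 ⟨P, fun s hs => ?_⟩
  have h1 : (P : Set B) ⊆ (s : Set B) := hs
  rw [Pi.mul_apply, Pi.inv_apply, gf_of_mem M b s (h1 b.2), inv_mul_eq_one]
  change _ = (if h : (P : Set B) ⊆ (s : Set B) then tr M h (Artin.gen (rs M (P : Set B)) b) else 1)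
  rw [dif_pos h1, tr_gen]

theorem inc_eq_one (P : Finset B) (x : Artin (rs M (P : Set B))) (hx : inc M (P : Set B) x = 1) :
    ∃ s : Finset B, ∃ h : (P : Set B) ⊆ (s : Set B), tr M h x = 1 := by
  classical
  have h1 : hT M P x = 1 := by
    rw [← hT_eq, MonoidHom.comp_apply, hx, map_one]
  obtain ⟨s₀, hs₀⟩ := (QuotientGroup.eq_one_iff _).1 h1
  have h2 : (P : Set B) ⊆ ((P ∪ s₀ : Finset B) : Set B) := by
    intro b hb
    exact Finset.mem_union_left _ hb
  refine ⟨P ∪ s₀, h2, ?_⟩
  have h3 := hs₀ (P ∪ s₀) Finset.subset_union_right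
  change (if h : (P : Set B) ⊆ ((P ∪ s₀ : Finset B) : Set B) then tr M h x else 1) = 1 at h3
  rwa [dif_pos h2] at h3

theorem inc_surj (y : Artin M) : ∃ P : Finset B, ∃ x, inc M (P : Set B) x = y := by
  classical
  have mono : ∀ {P P' : Finset B} (_ : P ⊆ P') (x : Artin (rs M (P : Set B))),
      ∃ x', inc M (P' : Set B) x' = inc M (P : Set B) x := by
    intro P P' h x
    have h' : (P : Set B) ⊆ (P' : Set B) := h
    exact ⟨tr M h' x, by rw [← MonoidHom.comp_apply, inc_tr]⟩
  induction y using Artin.induction with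
  | one => exact ⟨∅, 1, map_one _⟩
  | gen b => exact ⟨{b}, Artin.gen _ ⟨b, by simp⟩, inc_gen _ _ _⟩
  | mul y z hy hz =>
    obtain ⟨P, x, rfl⟩ := hy
    obtain ⟨P', x', rfl⟩ := hz
    obtain ⟨a, ha⟩ := mono (Finset.subset_union_left : P ⊆ P ∪ P') x
    obtain ⟨a', ha'⟩ := mono (Finset.subset_union_right : P' ⊆ P ∪ P') x'
    exact ⟨P ∪ P', a * a', by rw [map_mul, ha, ha']⟩
  | inv y hy =>
    obtain ⟨P, x, rfl⟩ := hy
    exact ⟨P, x⁻¹, map_inv _ _⟩

theorem colim_mem (hC : Closed C) (h : ∀ s : Finset B, C (Artin (rs M (s : Set B)))) :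
    C (Artin M) := by
  classical
  refine hC.colim (Finset B) (fun i j => ⟨i ∪ j, Finset.subset_union_left,
    Finset.subset_union_right⟩) (fun s => Artin (rs M (s : Set B)))
    (fun i j hij => tr M (show (i : Set B) ⊆ (j : Set B) from hij)) (Artin M)
    (fun s => inc M (s : Set B)) ?_ ?_ ?_ (inc_surj M) ?_ h
  · intro i h x
    have : tr M (show (i : Set B) ⊆ (i : Set B) from h) = MonoidHom.id _ := by
      apply Artin.hom_ext
      intro b
      rw [tr_gen]
      rfl
    rw [this]
    rfl
  · intro i j k h h' x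
    rw [← MonoidHom.comp_apply]
    congr 1
    apply Artin.hom_ext
    intro b
    rw [MonoidHom.comp_apply, tr_gen, tr_gen, tr_gen]
  · intro i j h x
    rw [← MonoidHom.comp_apply, inc_tr]
  · intro P x hx
    obtain ⟨s, hs, h1⟩ := inc_eq_one M P x hx
    exact ⟨s, hs, h1⟩

end colim

/-! ### prime diagrams -/

/-- `M'` is the restriction of `M` to a set of generators (up to names) -/
def Sub {B' B : Type} (M' : CoxeterMatrix B') (M : CoxeterMatrix B) : Prop :=
  ∃ f : B' → B, Function.Injective f ∧ ∀ i j, M (f i) (f j) = M' i j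

/-- no set of commuting generators separates the generators: if `P₁ ∪ P₂` are all generators, no
relations between `P₁ ∖ P₂` and `P₂ ∖ P₁`, and the generators in `P₁ ∩ P₂` commute, then `P₁` or
`P₂` contains all generators -/
def Prime {B : Type} (M : CoxeterMatrix B) : Prop :=
  ∀ P₁ P₂ : Set B, P₁ ∪ P₂ = Set.univ → (∀ b c, b ∉ P₂ → c ∉ P₁ → M b c = 0) →
    (∀ b ∈ P₁ ∩ P₂, ∀ c ∈ P₁ ∩ P₂, b ≠ c → M b c = 2) → P₁ = Set.univ ∨ P₂ = Set.univ

theorem fin_mem (hC : Closed C) (hE : ExtClosed C) (hS : HasSolvable C)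
    (hfin : ∀ (V : Type) [Finite V] (M : CoxeterMatrix V), C M.Group) (n : ℕ) :
    ∀ (B : Type) [Finite B] (M : CoxeterMatrix B), Nat.card B = n →
      (∀ (B' : Type) [Finite B'] (M' : CoxeterMatrix B'), Sub M' M → Prime M' → C (Artin M')) →
      C (Artin M) := by
  induction n using Nat.strong_induction_on with
  | _ n ih =>
    intro B _ M hn hp
    by_cases hM : Prime M
    · exact hp B M ⟨id, fun a b h => h, fun _ _ => rfl⟩ hM
    · unfold Prime at hM
      push Not at hM
      obtain ⟨P₁, P₂, h1, h2, h3, h4, h5⟩ := hM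
      let P : Bool → Set B := fun i => if i then P₁ else P₂
      have hP : ∀ b : B, b ∈ P₁ ∨ b ∈ P₂ := by
        intro b
        have : b ∈ P₁ ∪ P₂ := by rw [h1]; trivial
        exact this
      have hsep : Sep M P (P₁ ∩ P₂) := by
        refine ⟨?_, ?_, ?_, ?_, h3⟩
        · intro b
          rcases hP b with hb | hb
          · exact ⟨true, hb⟩
          · exact ⟨false, hb⟩
        · rintro (_ | _) b hb
          · exact hb.2
          · exact hb.1
        · rintro (_ | _) (_ | _) hij b ⟨hb, hb'⟩
          · exact absurd rfl hij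
          · exact ⟨hb', hb⟩
          · exact ⟨hb, hb'⟩
          · exact absurd rfl hij
        · rintro (_ | _) (_ | _) hij b hb c hc hb0 hc0
          · exact absurd rfl hij
          · have h6 := h2 c b (fun h' => hc0 ⟨hc, h'⟩) (fun h' => hb0 ⟨h', hb⟩)
            rw [M.symmetric]
            exact h6
          · exact h2 b c (fun h' => hb0 ⟨hb, h'⟩) (fun h' => hc0 ⟨h', hc⟩)
          · exact absurd rfl hij
      refine sep_mem hC hE hS hfin hsep ?_
      intro i
      have hPi : P i ≠ Set.univ := by
        rcases i with _ | _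
        · exact h5
        · exact h4
      have hcard : Nat.card (P i) < n := by
        rw [← hn, ← Nat.card_univ (α := B)]
        exact Set.ncard_lt_ncard (Set.ssubset_univ_iff.2 hPi)
      refine ih _ hcard (P i) (rs M (P i)) rfl ?_
      rintro B' _ M' ⟨f, hf, hf'⟩ hM'
      exact hp B' M' ⟨fun x => f x, Subtype.val_injective.comp hf, hf'⟩ hM'

/-- **Reduction to diagrams without separating sets of commuting generators.** -/
theorem prime_mem (hC : Closed C) (hE : ExtClosed C) (hS : HasSolvable C)
    (hfin : ∀ (V : Type) [Finite V] (M : CoxeterMatrix V), C M.Group) {B : Type}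
    (M : CoxeterMatrix B)
    (hp : ∀ (B' : Type) [Finite B'] (M' : CoxeterMatrix B'), Sub M' M → Prime M' →
      C (Artin M')) : C (Artin M) := by
  refine colim_mem M hC (fun s => ?_)
  refine fin_mem hC hE hS hfin _ _ (rs M (s : Set B)) rfl ?_
  rintro B' _ M' ⟨f, hf, hf'⟩ hM'
  exact hp B' M' ⟨fun x => f x, Subtype.val_injective.comp hf, hf'⟩ hM'

end Pool.Agent.Q152.AS
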