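import Pool.Agent.Q143.TR.Sign

/-!
# Finitely generated groups act cocompactly on a subtree
-/

set_option autoImplicit false
set_option linter.unusedSectionVars false

namespace Pool.Agent.Q152.TA

open Pool.Agent.Y462.SS Pool.Agent.Q152.WP Pool.Agent.Q143.TR

variable {C : ∀ (G : Type) [Group G], Prop}

/-- finitely generated subgroups -/
theorem of_fg (hC : Closed C) {Γ : Type} [Group Γ]
    (h : ∀ s : Finset Γ, C (Subgroup.closure (s : Set Γ))) : C Γ := by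
  classical
  refine hC.colim (Finset Γ) (fun i j => ⟨i ∪ j, Finset.subset_union_left,
    Finset.subset_union_right⟩) (fun s => Subgroup.closure (s : Set Γ))
    (fun i j hij => Subgroup.inclusion (Subgroup.closure_mono (Finset.coe_subset.2 hij))) Γ
    (fun s => (Subgroup.closure (s : Set Γ)).subtype) ?_ ?_ ?_ ?_ ?_ h
  · intro i _ x
    rfl
  · intro i j k _ _ x
    rfl
  · intro i j _ x
    rfl
  · intro y
    exact ⟨{y}, ⟨y, Subgroup.subset_closure (by simp)⟩, rfl⟩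
  · intro i x hx
    exact ⟨i, le_refl _, Subtype.ext hx⟩

variable {V Γ : Type} [Group Γ] [MulAction Γ V] {T : SimpleGraph V}

/-- a finitely generated group acts cocompactly on a subtree -/
theorem exists_sub (hT : T.IsTree) (hadj : ∀ (γ : Γ) (x y : V), T.Adj x y → T.Adj (γ • x) (γ • y))
    (s : Finset Γ) : ∃ (W : Set V) (F : Finset V), (T.induce W).IsTree ∧
      (∀ γ ∈ Subgroup.closure (s : Set Γ), ∀ x ∈ W, γ • x ∈ W) ∧
      (∀ x ∈ W, ∃ γ ∈ Subgroup.closure (s : Set Γ), ∃ y ∈ F, γ • y = x) := by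
  classical
  obtain ⟨r⟩ := hT.connected.nonempty
  set Λ : Subgroup Γ := Subgroup.closure (s : Set Γ) with hΛ
  let F : Finset V := insert r (s.biUnion (fun g => (pth hT r (g • r)).support.toFinset))
  let W : Set V := {x | ∃ γ ∈ Λ, ∃ y ∈ F, γ • y = x}
  have hF : ∀ y ∈ F, y ∈ W := fun y hy => ⟨1, one_mem _, y, hy, one_smul _ _⟩
  have hrF : r ∈ F := Finset.mem_insert_self _ _
  have hW : ∀ γ ∈ Λ, ∀ x ∈ W, γ • x ∈ W := by
    rintro γ hγ _ ⟨δ, hδ, y, hy, rfl⟩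
    exact ⟨γ * δ, mul_mem hγ hδ, y, hy, mul_smul _ _ _⟩
  refine ⟨W, F, ⟨?_, hT.isAcyclic.induce W⟩, hW, fun x hx => hx⟩
  -- connectedness
  let R : V → V → Prop := fun x y => ∃ (hx : x ∈ W) (hy : y ∈ W),
    (T.induce W).Reachable ⟨x, hx⟩ ⟨y, hy⟩
  have Rsymm : ∀ x y, R x y → R y x := fun x y ⟨hx, hy, h⟩ => ⟨hy, hx, h.symm⟩
  have Rtrans : ∀ x y z, R x y → R y z → R x z :=
    fun x y z ⟨hx, hy, h⟩ ⟨hy', hz, h'⟩ => ⟨hx, hz, h.trans h'⟩
  have Rwalk : ∀ {x y : V} (q : T.Walk x y), (∀ z ∈ q.support, z ∈ W) → R x y := by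
    intro x y q hq
    exact ⟨hq _ q.start_mem_support, hq _ q.end_mem_support, ⟨q.induce W hq⟩⟩
  have Rsmul : ∀ γ ∈ Λ, ∀ x y, R x y → R (γ • x) (γ • y) := by
    rintro γ hγ x y ⟨hx, hy, ⟨q⟩⟩
    let φ : T.induce W →g T.induce W :=
      ⟨fun z => ⟨γ • z.1, hW γ hγ z.1 z.2⟩, fun {a b} hab => hadj γ a.1 b.1 hab⟩
    exact ⟨hW γ hγ x hx, hW γ hγ y hy, ⟨q.map φ⟩⟩
  -- generators
  have Rg : ∀ g ∈ s, ∀ z ∈ (pth hT r (g • r)).support, R z r := by
    intro g hg z hz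
    have h1 : ∀ u ∈ (pth hT r (g • r)).support, u ∈ W := by
      intro u hu
      refine hF u (Finset.mem_insert_of_mem (Finset.mem_biUnion.2 ⟨g, hg, ?_⟩))
      exact List.mem_toFinset.2 hu
    refine Rwalk ((pth hT r (g • r)).dropUntil z hz) (fun u hu => ?_)
    exact h1 u ((pth hT r (g • r)).support_dropUntil_subset_support hz hu)
  have RF : ∀ y ∈ F, R y r := by
    intro y hy
    rcases Finset.mem_insert.1 hy with rfl | h
    · exact ⟨hF _ hrF, hF _ hrF, SimpleGraph.Reachable.refl _⟩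
    · obtain ⟨g, hg, h1⟩ := Finset.mem_biUnion.1 h
      exact Rg g hg y (List.mem_toFinset.1 h1)
  have Rgr : ∀ g ∈ s, R (g • r) r := fun g hg => Rg g hg _ (pth hT r (g • r)).start_mem_support
  have RΛ : ∀ γ ∈ Λ, R (γ • r) r := by
    intro γ hγ
    refine Subgroup.closure_induction (p := fun γ _ => R (γ • r) r) (fun g hg => Rgr g hg) ?_ ?_ ?_ hγ
    · rw [one_smul]
      exact RF r hrF
    · intro a b ha hb h1 h2
      rw [mul_smul]
      exact Rtrans _ _ _ (Rsmul a ha _ _ h2) h1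
    · intro a ha h1
      have h2 := Rsmul a⁻¹ (inv_mem ha) _ _ h1
      rw [inv_smul_smul] at h2
      exact Rsymm _ _ h2
  have Rall : ∀ x ∈ W, R x r := by
    rintro _ ⟨γ, hγ, y, hy, rfl⟩
    exact Rtrans _ _ _ (Rsmul γ hγ _ _ (RF y hy)) (RΛ γ hγ)
  have : Nonempty W := ⟨⟨r, hF r hrF⟩⟩
  refine ⟨fun x y => ?_⟩
  obtain ⟨hx, hr, h1⟩ := Rall x.1 x.2
  obtain ⟨hy, _, h2⟩ := Rall y.1 y.2
  exact h1.trans h2.symm

end Pool.Agent.Q152.TA
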