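import Pool.Agent.Q152.TA.Fin
import Pool.Agent.Q152.TA.Sub

/-!
# Compatible series with abelian factors and finite factors
-/

set_option autoImplicit false
set_option linter.unusedSectionVars false
set_option linter.style.haveILetI false

namespace Pool.Agent.Q152.TA

open Pool.Agent.Y462.SS Pool.Agent.Q152.WP Pool.Agent.Q143.TR Pool.Agent.Q105.FJ
open Pool.Agent.Q91.FJ
open scoped commutatorElement

/-- `M 0 v, M 1 v, ..., M n v` is a descending series of subgroups of the stabilizer of the vertex `v`; it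
starts with the intersection of the stabilizer with the kernel of `f`; for each `i` the factors
`M i v / M (i + 1) v` are commutative for all `v` or finite for all `v`; the series is compatible with
the action (in particular all `M i v` are normal in the stabilizer of `v`) and with the edges. -/
structure Series {V Γ Q : Type} [Group Γ] [MulAction Γ V] [Group Q] (T : SimpleGraph V)
    (f : Γ →* Q) (n : ℕ) (M : ℕ → V → Subgroup Γ) : Prop where
  start : ∀ v, M 0 v = f.ker ⊓ MulAction.stabilizer Γ v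
  le : ∀ i < n, ∀ v, M (i + 1) v ≤ M i v
  factor : ∀ i < n, (∀ v, ⁅M i v, M i v⁆ ≤ M (i + 1) v) ∨
    (∀ v, (M (i + 1) v).relIndex (M i v) ≠ 0)
  conj : ∀ i < n, ∀ (γ : Γ) (v : V) (x : Γ), x ∈ M (i + 1) v → γ * x * γ⁻¹ ∈ M (i + 1) (γ • v)
  edge : ∀ i < n, ∀ v w : V, T.Adj v w → ∀ x : Γ, x ∈ M (i + 1) v → x • w = w → x ∈ M (i + 1) w

variable {C : ∀ (G : Type) [Group G], Prop} {V Γ : Type} [Group Γ] [MulAction Γ V]
  {T : SimpleGraph V}

theorem Series.conj' {Q : Type} [Group Q] {f : Γ →* Q} {n : ℕ} {M : ℕ → V → Subgroup Γ}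
    (h : Series T f n M) (i : ℕ) (hi : i ≤ n) (γ : Γ) (v : V) (x : Γ) (hx : x ∈ M i v) :
    γ * x * γ⁻¹ ∈ M i (γ • v) := by
  rcases Nat.eq_zero_or_pos i with rfl | h0
  · rw [h.start] at hx ⊢
    have hx1 : f x = 1 := hx.1
    have hx2 : x • v = v := hx.2
    refine ⟨?_, ?_⟩
    · change f (γ * x * γ⁻¹) = 1
      rw [map_mul, map_mul, hx1, mul_one, map_inv, mul_inv_cancel]
    · change (γ * x * γ⁻¹) • (γ • v) = γ • v
      rw [mul_smul, mul_smul, inv_smul_smul, hx2]
  · obtain ⟨j, rfl⟩ : ∃ j, i = j + 1 := ⟨i - 1, by omega⟩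
    exact h.conj j (by omega) γ v x hx

/-- cocompact actions -/
theorem cocompact (hT : T.IsTree)
    (hadj : ∀ (γ : Γ) (x y : V), T.Adj x y → T.Adj (γ • x) (γ • y))
    (F : Finset V) (hF : ∀ x : V, ∃ γ : Γ, ∃ y ∈ F, γ • y = x)
    (hC : Closed C) (hE : ExtClosed C) (hS : HasSolvable C)
    {Q : Type} [Group Q] (hQ : C Q) (f : Γ →* Q) (M : ℕ → V → Subgroup Γ) (n : ℕ)
    (hM : Series T f n M) :
    ∃ (Q' : Type) (_ : Group Q') (f' : Γ →* Q'), C Q' ∧
      ∀ v, f'.ker ⊓ MulAction.stabilizer Γ v = M n v := by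
  classical
  refine series_fin hT hadj hC hE hS hQ f M n hM.start hM.le ?_ hM.conj hM.edge
  intro i hi
  rcases hM.factor i hi with h | h
  · exact Or.inl h
  · right
    refine ⟨∏ y ∈ F, (M (i + 1) y).relIndex (M i y), ?_, ?_⟩
    · exact Finset.prod_ne_zero_iff.2 (fun y _ => h y)
    · intro v
      obtain ⟨γ, y, hy, rfl⟩ := hF v
      have hmap : ∀ j ≤ n, M j (γ • y) = (M j y).map (MulAut.conj γ).toMonoidHom := by
        intro j hj
        apply le_antisymm
        · intro x hx
          have h1 := hM.conj' j hj γ⁻¹ (γ • y) x hx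
          rw [inv_smul_smul] at h1
          refine ⟨_, h1, ?_⟩
          change γ * (γ⁻¹ * x * γ⁻¹⁻¹) * γ⁻¹ = x
          group
        · rintro _ ⟨x, hx, rfl⟩
          exact hM.conj' j hj γ y x hx
      rw [hmap i (by omega), hmap (i + 1) (by omega)]
      rw [Subgroup.relIndex_map_map_of_injective _ _ (MulAut.conj γ).injective]
      exact Finset.dvd_prod_of_mem _ hy

/-- **Groups acting on trees with compatible series.** -/
theorem tree_series (hT : T.IsTree)
    (hadj : ∀ (γ : Γ) (x y : V), T.Adj x y → T.Adj (γ • x) (γ • y))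
    (hC : Closed C) (hE : ExtClosed C) (hS : HasSolvable C)
    {Q : Type} [Group Q] (hQ : C Q) (f : Γ →* Q) (M : ℕ → V → Subgroup Γ) (n : ℕ)
    (hM : Series T f n M)
    (hv : (∀ v : V, C (MulAction.stabilizer Γ v)) ∨ (∀ v : V, M n v = ⊥))
    (hn : ∀ v w : V, T.Adj v w → ∀ x ∈ M n v, x • w = w → x = 1) : C Γ := by
  classical
  refine of_fg hC (fun s => ?_)
  obtain ⟨W, F, hW, hWs, hWF⟩ := exists_sub hT hadj s
  set Λ : Subgroup Γ := Subgroup.closure (s : Set Γ) with hΛ
  letI act : MulAction Λ W :=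
    { smul := fun γ x => ⟨(γ : Γ) • x.1, hWs γ γ.2 x.1 x.2⟩
      one_smul := fun x => Subtype.ext (one_smul Γ x.1)
      mul_smul := fun a b x => Subtype.ext (mul_smul (a : Γ) (b : Γ) x.1) }
  have hact : ∀ (γ : Λ) (x : W), ((γ • x : W) : V) = (γ : Γ) • (x : V) := fun _ _ => rfl
  have hadj' : ∀ (γ : Λ) (x y : W), (T.induce W).Adj x y → (T.induce W).Adj (γ • x) (γ • y) :=
    fun γ x y h => hadj γ x.1 y.1 h
  let F' : Finset W := F.subtype (fun x => x ∈ W)
  have hF' : ∀ x : W, ∃ γ : Λ, ∃ y ∈ F', γ • y = x := by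
    rintro ⟨x, hx⟩
    obtain ⟨γ, hγ, y, hy, h1⟩ := hWF x hx
    have hyW : y ∈ W := by
      have h2 := hWs γ⁻¹ (inv_mem hγ) x hx
      rwa [← h1, inv_smul_smul] at h2
    exact ⟨⟨γ, hγ⟩, ⟨y, hyW⟩, Finset.mem_subtype.2 hy, Subtype.ext h1⟩
  let M' : ℕ → W → Subgroup Λ := fun i x => (M i x.1).subgroupOf Λ
  have hM' : Series (T.induce W) (f.comp Λ.subtype) n M' := by
    refine ⟨?_, ?_, ?_, ?_, ?_⟩
    · intro v
      ext γ
      change (γ : Γ) ∈ M 0 v.1 ↔ _
      rw [hM.start]
      constructor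
      · rintro ⟨h1, h2⟩
        exact ⟨h1, Subtype.ext h2⟩
      · rintro ⟨h1, h2⟩
        exact ⟨h1, congrArg Subtype.val (show γ • v = v from h2)⟩
    · intro i hi v x hx
      exact hM.le i hi v.1 hx
    · intro i hi
      rcases hM.factor i hi with h | h
      · left
        intro v
        refine Subgroup.commutator_le.2 (fun a ha b hb => ?_)
        exact h v.1 (Subgroup.commutator_mem_commutator ha hb)
      · right
        intro v
        change ((M (i + 1) v.1).comap Λ.subtype).relIndex ((M i v.1).comap Λ.subtype) ≠ 0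
        rw [Subgroup.relIndex_comap]
        have h1 : ((M i v.1).comap Λ.subtype).map Λ.subtype ≤ M i v.1 := Subgroup.map_comap_le _ _
        intro h0
        exact h v.1 (Subgroup.relIndex_eq_zero_of_le_right h1 h0)
    · intro i hi γ v x hx
      exact hM.conj i hi γ v.1 x hx
    · intro i hi v w hvw x hx hxw
      exact hM.edge i hi v.1 w.1 hvw x hx (congrArg Subtype.val hxw)
  obtain ⟨Q', _, f', hQ', hf'⟩ := cocompact hW hadj' F' hF' hC hE hS hQ (f.comp Λ.subtype) M' n hM'
  have hvΛ : ∀ v : W, C (MulAction.stabilizer Λ v) := by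
    intro v
    rcases hv with h | h
    · let i : MulAction.stabilizer Λ v →* MulAction.stabilizer Γ v.1 :=
        (Λ.subtype.comp (Subgroup.subtype _)).codRestrict _
          (fun x => congrArg Subtype.val (show (x : Λ) • v = v from x.2))
      refine hC.of_injective _ _ i ?_ (h v.1)
      intro a b hab
      have h5 : ((i a : MulAction.stabilizer Γ v.1) : Γ) = (i b : MulAction.stabilizer Γ v.1) := by
        rw [hab]
      exact Subtype.ext (Subtype.ext h5)
    · refine hC.of_injective _ _ (f'.comp (MulAction.stabilizer Λ v).subtype) ?_ hQ'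
      refine (injective_iff_map_eq_one _).2 (fun γ hγ => ?_)
      have h3 : (γ : Λ) ∈ M' n v := by
        rw [← hf' v]
        exact ⟨hγ, γ.2⟩
      have h4 : ((γ : Λ) : Γ) ∈ M n v.1 := h3
      rw [h v.1, Subgroup.mem_bot] at h4
      exact Subtype.ext (Subtype.ext h4)
  refine tree_mem hW hadj' hC hE hQ' f' hvΛ ?_
  intro γ x y hxy hx hy hγ
  have h3 : γ ∈ M' n x := by
    rw [← hf' x]
    exact ⟨hγ, hx⟩
  exact Subtype.ext (hn x.1 y.1 hxy γ h3 (congrArg Subtype.val hy))

end Pool.Agent.Q152.TA
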