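import Mathlib

/-!
# Characters with values in `ℚ / ℤ`, written multiplicatively
-/

set_option autoImplicit false
set_option linter.unusedSectionVars false

namespace Pool.Agent.Q152.TA

/-- the divisible group of values -/
abbrev MM : Type := Multiplicative (AddCircle (1 : ℚ))

section

variable {A : Type} [Group A] (R : Subgroup A)

/-- the largest commutative quotient of `A` in which `R` dies -/
abbrev AR : Type := Abelianization A ⧸ (R.map Abelianization.of)

/-- the projection -/
def toAR : A →* AR R := (QuotientGroup.mk' (R.map Abelianization.of)).comp Abelianization.of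

theorem toAR_eq_one {R : Subgroup A} (hR : commutator A ≤ R) (a : A) : toAR R a = 1 ↔ a ∈ R := by
  change ((Abelianization.of a : Abelianization A) : AR R) = 1 ↔ _
  rw [QuotientGroup.eq_one_iff]
  constructor
  · rintro ⟨r, hr, h⟩
    have h1 : Abelianization.of (r⁻¹ * a) = 1 := by
      rw [map_mul, map_inv, h, inv_mul_cancel]
    have h2 : r⁻¹ * a ∈ commutator A := by
      rw [← Abelianization.ker_of]
      exact h1
    have h3 : a = r * (r⁻¹ * a) := by rw [mul_inv_cancel_left]
    rw [h3]
    exact mul_mem hr (hR h2)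
  · intro h
    exact ⟨a, h, rfl⟩

end

/-- extension of characters -/
theorem ext_char {A B : Type} [Group A] [Group B] {R : Subgroup A} (hR : commutator A ≤ R)
    (i : B →* A) (η : B →* MM) (hi : ∀ b, i b ∈ R → η b = 1) :
    ∃ χ : A →* MM, (∀ a ∈ R, χ a = 1) ∧ χ.comp i = η := by
  let g : B →* AR R := (toAR R).comp i
  have hg : g.ker ≤ η.ker := fun b hb => hi b ((toAR_eq_one hR _).1 hb)
  let e := QuotientGroup.quotientKerEquivRange g
  let η' : g.range →* MM := (QuotientGroup.lift g.ker η hg).comp e.symm.toMonoidHom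
  let c : CharacterModule (Additive g.range) := MonoidHom.toAdditive η'
  let l : Additive g.range →ₗ[ℤ] Additive (AR R) :=
    (MonoidHom.toAdditive g.range.subtype).toIntLinearMap
  have hl : Function.Injective l := fun a b h => Subtype.val_injective h
  obtain ⟨d, hd⟩ := CharacterModule.dual_surjective_of_injective l hl c
  let χ' : AR R →* MM := AddMonoidHom.toMultiplicative d
  refine ⟨χ'.comp (toAR R), fun a ha => ?_, ?_⟩
  · have h1 : toAR R a = 1 := (toAR_eq_one hR a).2 ha
    change χ' (toAR R a) = 1
    rw [h1, map_one]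
  ext b
  have h1 := DFunLike.congr_fun hd (Additive.ofMul (e (b : B ⧸ g.ker)))
  have h2 : e.symm (e (b : B ⧸ g.ker)) = b := e.symm_apply_apply _
  have h3 : η' (e (b : B ⧸ g.ker)) = η b := by
    change (QuotientGroup.lift g.ker η hg) (e.symm (e (b : B ⧸ g.ker))) = η b
    rw [h2]
    rfl
  rw [← h3]
  exact h1

/-- separation by characters -/
theorem sep_char {A : Type} [Group A] {R : Subgroup A} (hR : commutator A ≤ R) (a : A)
    (h : ∀ χ : A →* MM, (∀ r ∈ R, χ r = 1) → χ a = 1) : a ∈ R := by
  by_contra hn
  have h1 : toAR R a ≠ 1 := fun h2 => hn ((toAR_eq_one hR a).1 h2)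
  have h2 : (Additive.ofMul (toAR R a) : Additive (AR R)) ≠ 0 := h1
  obtain ⟨c, hc⟩ := CharacterModule.exists_character_apply_ne_zero_of_ne_zero h2
  let χ' : AR R →* MM := AddMonoidHom.toMultiplicative c
  refine hc (h (χ'.comp (toAR R)) (fun r hr => ?_))
  have h3 : toAR R r = 1 := (toAR_eq_one hR r).2 hr
  change χ' (toAR R r) = 1
  rw [h3, map_one]

end Pool.Agent.Q152.TA
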