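import Pool.Agent.Q152.TA.Rank

/-!
# Groups acting on trees with commensurable stabilizers of finite Hirsch length
-/

set_option autoImplicit false
set_option linter.unusedSectionVars false
set_option linter.style.haveILetI false

namespace Pool.Agent.Q152.TA

open Pool.Agent.Y462.SS Pool.Agent.Q152.WP Pool.Agent.Q143.TR Pool.Agent.Q105.FJ
open Pool.Agent.Q91.FJ

section

variable {Γ Λ : Type} [Group Γ] [Group Λ]

theorem Rk.comap {n : ℕ} {N : Subgroup Γ} (h : Rk n N) (i : Λ →* Γ) (hi : Function.Injective i) :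
    Rk n (N.comap i) := by
  induction n generalizing N with
  | zero =>
    intro N' hN'
    have h1 : N'.map i ≤ N := Subgroup.map_le_iff_le_comap.2 hN'
    obtain ⟨D, hD, hDi, h2, h3, h4⟩ := h _ h1
    refine ⟨D.comap i, ?_, ?_, ?_, ?_, ?_⟩
    · intro x hx
      obtain ⟨y, hy, hxy⟩ := hD (show i x ∈ D from hx)
      rwa [← hi hxy]
    · rw [Subgroup.relIndex_comap]
      exact hDi
    · intro a ha b hb
      apply hi
      rw [map_mul, map_mul]
      exact h2 _ ha _ hb
    · intro n hn a ha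
      obtain ⟨b, hb, hba⟩ := h3 n hn _ ha
      obtain ⟨c, hc, rfl⟩ := hD hb
      refine ⟨c, hb, hi ?_⟩
      rw [map_pow]
      exact hba
    · intro a ha
      obtain ⟨n, hn, h5⟩ := h4 _ ha
      refine ⟨n, hn, hi ?_⟩
      rw [map_pow, h5, map_one]
  | succ n ih =>
    obtain ⟨H, K, χ, hH, hHi, hχ, hK, hn⟩ := h
    refine ⟨H.comap i, K.comap i, fun x => χ (i x), Subgroup.comap_mono hH, ?_, ?_, ?_, ih hn⟩
    · rw [Subgroup.relIndex_comap]
      intro h0
      exact hHi (Subgroup.relIndex_eq_zero_of_le_right (Subgroup.map_comap_le _ _) h0)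
    · intro a ha b hb
      change χ (i (a * b)) = _
      rw [map_mul]
      exact hχ _ ha _ hb
    · intro x
      rw [Subgroup.mem_comap, Subgroup.mem_comap, hK]

theorem Rk.cj {n : ℕ} {N : Subgroup Γ} (h : Rk n N) (γ : Γ) : Rk n (cj γ N) := by
  have h1 : TA.cj γ N = N.comap (MulAut.conj γ⁻¹).toMonoidHom := by
    ext x
    constructor
    · rintro ⟨y, hy, rfl⟩
      change γ⁻¹ * (γ * y * γ⁻¹) * γ⁻¹⁻¹ ∈ N
      have : γ⁻¹ * (γ * y * γ⁻¹) * γ⁻¹⁻¹ = y := by group
      rwa [this]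
    · intro hx
      refine ⟨_, hx, ?_⟩
      change γ * (γ⁻¹ * x * γ⁻¹⁻¹) * γ⁻¹ = x
      group
  rw [h1]
  exact h.comap _ (MulAut.conj γ⁻¹).injective

theorem Rk.succ {n : ℕ} {N : Subgroup Γ} (h : Rk n N) : Rk (n + 1) N := by
  refine ⟨N, N, fun _ => 0, le_refl _, ?_, ?_, ?_, h⟩
  · rw [Subgroup.relIndex_self]
    exact one_ne_zero
  · intro a _ b _
    rw [add_zero]
  · intro x
    exact ⟨fun hx => ⟨hx, rfl⟩, fun hx => hx.1⟩

theorem Rk.mono {n m : ℕ} {N : Subgroup Γ} (h : Rk n N) (hnm : n ≤ m) : Rk m N := by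
  induction m, hnm using Nat.le_induction with
  | base => exact h
  | succ m _ ih => exact ih.succ

end

variable {C : ∀ (G : Type) [Group G], Prop} {V Γ : Type} [Group Γ] [MulAction Γ V]
  {T : SimpleGraph V}

theorem nv_cj {Q : Type} [Group Q] (f : Γ →* Q) (γ : Γ) (v : V) :
    f.ker ⊓ MulAction.stabilizer Γ (γ • v) = cj γ (f.ker ⊓ MulAction.stabilizer Γ v) := by
  have key : ∀ (γ : Γ) (v : V) (x : Γ), x ∈ f.ker ⊓ MulAction.stabilizer Γ v →
      γ * x * γ⁻¹ ∈ f.ker ⊓ MulAction.stabilizer Γ (γ • v) := by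
    rintro γ v x ⟨hx1, hx2⟩
    have hx1' : f x = 1 := hx1
    have hx2' : x • v = v := hx2
    refine ⟨?_, ?_⟩
    · change f (γ * x * γ⁻¹) = 1
      rw [map_mul, map_mul, hx1', mul_one, map_inv, mul_inv_cancel]
    · change (γ * x * γ⁻¹) • (γ • v) = γ • v
      rw [mul_smul, mul_smul, inv_smul_smul, hx2']
  apply le_antisymm
  · intro x hx
    have h1 := key γ⁻¹ (γ • v) x hx
    rw [inv_smul_smul] at h1
    refine ⟨_, h1, ?_⟩
    change γ * (γ⁻¹ * x * γ⁻¹⁻¹) * γ⁻¹ = x
    group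
  · rintro _ ⟨x, hx, rfl⟩
    exact key γ v x hx

/-- uniform version -/
theorem tree_comm (hT : T.IsTree)
    (hadj : ∀ (γ : Γ) (x y : V), T.Adj x y → T.Adj (γ • x) (γ • y))
    (hC : Closed C) (hE : ExtClosed C) (hS : HasSolvable C)
    {Q : Type} [Group Q] (hQ : C Q) (f : Γ →* Q) (n : ℕ)
    (hv : (∀ v : V, C (MulAction.stabilizer Γ v)) ∨
      (∀ v : V, Rk n (f.ker ⊓ MulAction.stabilizer Γ v)))
    (he : ∀ v w : V, T.Adj v w →
      (∀ x ∈ f.ker ⊓ MulAction.stabilizer Γ v, x • w = w → x = 1) ∨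
      (Comm (f.ker ⊓ MulAction.stabilizer Γ v) (f.ker ⊓ MulAction.stabilizer Γ w) ∧
        Rk n (f.ker ⊓ MulAction.stabilizer Γ v))) : C Γ := by
  classical
  let N : V → Subgroup Γ := fun v => f.ker ⊓ MulAction.stabilizer Γ v
  let R : ℕ → Subgroup Γ → Subgroup Γ := fun i A =>
    if i ≤ 2 * n then ser A i else if i = 2 * n + 1 then finRes (ser A (2 * n)) else ⊥
  have hR1 : ∀ i A, i ≤ 2 * n → R i A = ser A i := fun i A h => if_pos h
  have hR2 : ∀ A, R (2 * n + 1) A = finRes (ser A (2 * n)) := by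
    intro A
    change (if 2 * n + 1 ≤ 2 * n then ser A (2 * n + 1) else if 2 * n + 1 = 2 * n + 1 then
      finRes (ser A (2 * n)) else ⊥) = _
    rw [if_neg (by omega), if_pos rfl]
  have hR3 : ∀ A, R (2 * n + 2) A = ⊥ := by
    intro A
    change (if 2 * n + 2 ≤ 2 * n then ser A (2 * n + 2) else if 2 * n + 2 = 2 * n + 1 then
      finRes (ser A (2 * n)) else ⊥) = _
    rw [if_neg (by omega), if_neg (by omega)]
  have hRle : ∀ i ≤ 2 * n + 2, ∀ A, R i A ≤ A := by
    intro i hi A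
    rcases (show i ≤ 2 * n ∨ i = 2 * n + 1 ∨ i = 2 * n + 2 by omega) with h | rfl | rfl
    · rw [hR1 i A h]
      exact ser_le _ _
    · rw [hR2]
      exact (finRes_le _).trans (ser_le _ _)
    · rw [hR3]
      exact bot_le
  let M : ℕ → V → Subgroup Γ := fun i v => if Rk n (N v) then R i (N v) else N v
  have hM1 : ∀ i v, Rk n (N v) → M i v = R i (N v) := fun i v h => if_pos h
  have hM3 : ∀ i v, ¬ Rk n (N v) → M i v = N v := fun i v h => if_neg h
  have hMN : ∀ i ≤ 2 * n + 2, ∀ v, M i v ≤ N v := by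
    intro i hi v
    by_cases h1 : Rk n (N v)
    · rw [hM1 i v h1]
      exact hRle i hi _
    · rw [hM3 i v h1]
  have hRk : ∀ (γ : Γ) (v : V), Rk n (N v) → Rk n (N (γ • v)) := by
    intro γ v h
    change Rk n (f.ker ⊓ MulAction.stabilizer Γ (γ • v))
    rw [nv_cj]
    exact h.cj γ
  have hRk' : ∀ (γ : Γ) (v : V), Rk n (N (γ • v)) → Rk n (N v) := by
    intro γ v h
    have := hRk γ⁻¹ _ h
    rwa [inv_smul_smul] at this
  have hVD : ∀ v, Rk n (N v) → VD (ser (N v) (2 * n)) := fun v h =>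
    h.ser (2 * n) (le_refl _) _ (le_refl _)
  have hSer : Series T f (2 * n + 2) M := by
    refine ⟨?_, ?_, ?_, ?_, ?_⟩
    · intro v
      by_cases h1 : Rk n (N v)
      · rw [hM1 0 v h1, hR1 0 _ (Nat.zero_le _)]
        rfl
      · rw [hM3 0 v h1]
    · intro i hi v
      by_cases h1 : Rk n (N v)
      · rw [hM1 _ v h1, hM1 _ v h1]
        rcases (show i + 1 ≤ 2 * n ∨ i = 2 * n ∨ i = 2 * n + 1 by omega) with h | rfl | rfl
        · rw [hR1 _ _ h, hR1 i _ (by omega)]
          exact ser_succ_le _ _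
        · rw [hR2, hR1 _ _ (le_refl _)]
          exact finRes_le _
        · rw [hR3]
          exact bot_le
      · rw [hM3 _ v h1, hM3 _ v h1]
    · intro i hi
      rcases (show i + 1 ≤ 2 * n ∨ i = 2 * n ∨ i = 2 * n + 1 by omega) with h | rfl | rfl
      · by_cases hev : Even i
        · right
          intro v
          by_cases h1 : Rk n (N v)
          · rw [hM1 _ v h1, hM1 _ v h1, hR1 _ _ h, hR1 i _ (by omega)]
            exact (ser_factor h1 i).1 hev
          · rw [hM3 _ v h1, hM3 _ v h1, Subgroup.relIndex_self]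
            exact one_ne_zero
        · left
          intro v
          by_cases h1 : Rk n (N v)
          · rw [hM1 _ v h1, hM1 _ v h1, hR1 _ _ h, hR1 i _ (by omega)]
            exact (ser_factor h1 i).2 hev
          · rw [hM3 _ v h1, hM3 _ v h1]
            exact Subgroup.commutator_le.2 (fun a ha b hb =>
              mul_mem (mul_mem (mul_mem ha hb) (inv_mem ha)) (inv_mem hb))
      · right
        intro v
        by_cases h1 : Rk n (N v)
        · rw [hM1 _ v h1, hM1 _ v h1, hR2, hR1 _ _ (le_refl _)]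
          exact (hVD v h1).finRes.1
        · rw [hM3 _ v h1, hM3 _ v h1, Subgroup.relIndex_self]
          exact one_ne_zero
      · left
        intro v
        by_cases h1 : Rk n (N v)
        · rw [hM1 _ v h1, hM1 _ v h1, hR3, hR2]
          refine Subgroup.commutator_le.2 (fun a ha b hb => ?_)
          rw [Subgroup.mem_bot, commutatorElement_def, (hVD v h1).finRes.2 a ha b hb,
            mul_inv_cancel_right, mul_inv_cancel]
        · rw [hM3 _ v h1, hM3 _ v h1]
          exact Subgroup.commutator_le.2 (fun a ha b hb =>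
            mul_mem (mul_mem (mul_mem ha hb) (inv_mem ha)) (inv_mem hb))
    · intro i hi γ v x hx
      by_cases h1 : Rk n (N v)
      · rw [hM1 _ v h1] at hx
        rw [hM1 _ _ (hRk γ v h1)]
        change γ * x * γ⁻¹ ∈ R (i + 1) (f.ker ⊓ MulAction.stabilizer Γ (γ • v))
        rw [nv_cj]
        rcases (show i + 1 ≤ 2 * n ∨ i = 2 * n ∨ i = 2 * n + 1 by omega) with h | rfl | rfl
        · rw [hR1 _ _ h] at hx ⊢
          exact ser_cj γ _ _ x hx
        · rw [hR2] at hx ⊢
          rw [ser_cj_eq]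
          exact finRes_cj γ _ x hx
        · rw [hR3, Subgroup.mem_bot] at hx
          rw [hx, mul_one, mul_inv_cancel]
          exact one_mem _
      · rw [hM3 _ v h1] at hx
        rw [hM3 _ _ (fun h => h1 (hRk' γ v h))]
        change γ * x * γ⁻¹ ∈ f.ker ⊓ MulAction.stabilizer Γ (γ • v)
        rw [nv_cj]
        exact mem_cj hx
    · intro i hi v w hvw x hx hxw
      rcases he v w hvw with h | ⟨h1, h2⟩
      · rw [h x (hMN _ (by omega) _ hx) hxw]
        exact one_mem _
      · have h3 : Rk n (N w) := h2.comm h1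
        rw [hM1 _ v h2] at hx
        rw [hM1 _ w h3]
        rcases (show i + 1 ≤ 2 * n ∨ i = 2 * n ∨ i = 2 * n + 1 by omega) with h | rfl | rfl
        · rw [hR1 _ _ h] at hx ⊢
          have h5 : x ∈ ser (N v) (i + 1) ⊓ N w := ⟨hx, (ser_le _ _ hx).1, hxw⟩
          rw [ser_comm h1] at h5
          exact h5.1
        · rw [hR2] at hx ⊢
          rwa [← finRes_comm (comm_ser h1 n)]
        · rw [hR3, Subgroup.mem_bot] at hx
          rw [hx]
          exact one_mem _
  refine tree_series hT hadj hC hE hS hQ f M (2 * n + 2) hSer ?_ ?_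
  · rcases hv with h | h
    · exact Or.inl h
    · exact Or.inr (fun v => by rw [hM1 _ v (h v), hR3])
  · intro v w hvw x hx hxw
    rcases he v w hvw with h | ⟨h1, h2⟩
    · exact h x (hMN _ (le_refl _) _ hx) hxw
    · rw [hM1 _ v h2, hR3, Subgroup.mem_bot] at hx
      exact hx

/-- non-uniform version -/
theorem tree_comm' (hT : T.IsTree)
    (hadj : ∀ (γ : Γ) (x y : V), T.Adj x y → T.Adj (γ • x) (γ • y))
    (hC : Closed C) (hE : ExtClosed C) (hS : HasSolvable C)
    {Q : Type} [Group Q] (hQ : C Q) (f : Γ →* Q)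
    (hv : ∀ v : V, C (MulAction.stabilizer Γ v))
    (he : ∀ v w : V, T.Adj v w →
      (∀ x ∈ f.ker ⊓ MulAction.stabilizer Γ v, x • w = w → x = 1) ∨
      (Comm (f.ker ⊓ MulAction.stabilizer Γ v) (f.ker ⊓ MulAction.stabilizer Γ w) ∧
        ∃ n, Rk n (f.ker ⊓ MulAction.stabilizer Γ v))) : C Γ := by
  classical
  refine of_fg hC (fun s => ?_)
  obtain ⟨W, F, hW, hWs, hWF⟩ := exists_sub hT hadj s
  set Λ : Subgroup Γ := Subgroup.closure (s : Set Γ) with hΛ
  letI act : MulAction Λ W :=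
    { smul := fun γ x => ⟨(γ : Γ) • x.1, hWs γ γ.2 x.1 x.2⟩
      one_smul := fun x => Subtype.ext (one_smul Γ x.1)
      mul_smul := fun a b x => Subtype.ext (mul_smul (a : Γ) (b : Γ) x.1) }
  have hadj' : ∀ (γ : Λ) (x y : W), (T.induce W).Adj x y → (T.induce W).Adj (γ • x) (γ • y) :=
    fun γ x y h => hadj γ x.1 y.1 h
  let F' : Finset W := F.subtype (fun x => x ∈ W)
  have hF' : ∀ x : W, ∃ γ : Λ, ∃ y ∈ F', γ • y = x := by
    rintro ⟨x, hx⟩
    obtain ⟨γ, hγ, y, hy, h1⟩ := hWF x hx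
    have hyW : y ∈ W := by
      have h2 := hWs γ⁻¹ (inv_mem hγ) x hx
      rwa [← h1, inv_smul_smul] at h2
    exact ⟨⟨γ, hγ⟩, ⟨y, hyW⟩, Finset.mem_subtype.2 hy, Subtype.ext h1⟩
  let f' : Λ →* Q := f.comp Λ.subtype
  have hN : ∀ x : W, f'.ker ⊓ MulAction.stabilizer Λ x =
      (f.ker ⊓ MulAction.stabilizer Γ x.1).comap Λ.subtype := by
    intro x
    ext γ
    constructor
    · rintro ⟨h1, h2⟩
      exact ⟨h1, congrArg Subtype.val (show γ • x = x from h2)⟩
    · rintro ⟨h1, h2⟩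
      exact ⟨h1, Subtype.ext h2⟩
  have hvΛ : ∀ v : W, C (MulAction.stabilizer Λ v) := by
    intro v
    let i : MulAction.stabilizer Λ v →* MulAction.stabilizer Γ v.1 :=
      (Λ.subtype.comp (Subgroup.subtype _)).codRestrict _
        (fun x => congrArg Subtype.val (show (x : Λ) • v = v from x.2))
    refine hC.of_injective _ _ i ?_ (hv v.1)
    intro a b hab
    have h5 : ((i a : MulAction.stabilizer Γ v.1) : Γ) = (i b : MulAction.stabilizer Γ v.1) := by
      rw [hab]
    exact Subtype.ext (Subtype.ext h5)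
  choose! k hk using fun (y : W) (h : ∃ n, Rk n (f'.ker ⊓ MulAction.stabilizer Λ y)) => h
  let n := F'.sup k
  have hRk : ∀ x : W, (∃ n, Rk n (f'.ker ⊓ MulAction.stabilizer Λ x)) →
      Rk n (f'.ker ⊓ MulAction.stabilizer Λ x) := by
    rintro x ⟨m, hm⟩
    obtain ⟨γ, y, hy, rfl⟩ := hF' x
    rw [nv_cj]
    have h1 : Rk m (f'.ker ⊓ MulAction.stabilizer Λ y) := by
      have h2 := hm.cj γ⁻¹
      rw [nv_cj, cj_inv_cj] at h2
      exact h2
    exact ((hk y ⟨m, h1⟩).mono (Finset.le_sup hy)).cj γ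
  refine tree_comm hW hadj' hC hE hS hQ f' n (Or.inl hvΛ) ?_
  intro v w hvw
  rcases he v.1 w.1 hvw with h | ⟨h1, m, h2⟩
  · left
    intro x hx hxw
    rw [hN] at hx
    exact Subtype.ext (h x hx (congrArg Subtype.val hxw))
  · right
    refine ⟨?_, hRk v ⟨m, ?_⟩⟩
    · rw [hN, hN]
      have key : ∀ {A B : Subgroup Γ}, A.relIndex B ≠ 0 →
          (A.comap Λ.subtype).relIndex (B.comap Λ.subtype) ≠ 0 := by
        intro A B hAB h0
        rw [Subgroup.relIndex_comap] at h0
        exact hAB (Subgroup.relIndex_eq_zero_of_le_right (Subgroup.map_comap_le _ _) h0)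
      exact ⟨key h1.1, key h1.2⟩
    · rw [hN]
      exact h2.comap _ Subtype.val_injective

end Pool.Agent.Q152.TA
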