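import Mathlib

/-!
# Two free actions of a finite group on the same finite set are isomorphic
-/

set_option autoImplicit false
set_option linter.unusedSectionVars false

namespace Pool.Agent.Q152.TA

section

variable {G X : Type} [Group G] (α : G →* Equiv.Perm X)

/-- free action of the image -/
def IsFreeHom : Prop := ∀ g : G, α g ≠ 1 → ∀ x : X, α g x ≠ x

/-- orbits -/
def orb : Setoid X where
  r x y := ∃ g : G, α g x = y
  iseqv := by
    refine ⟨fun x => ⟨1, by rw [map_one]; rfl⟩, ?_, ?_⟩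
    · rintro x y ⟨g, rfl⟩
      exact ⟨g⁻¹, by rw [map_inv]; exact (α g).symm_apply_apply x⟩
    · rintro x y z ⟨g, rfl⟩ ⟨h, rfl⟩
      exact ⟨h * g, by rw [map_mul]; rfl⟩

/-- the representative -/
noncomputable def rpo (ω : Quotient (orb α)) : X := ω.out

/-- the parametrization by orbits and group elements -/
noncomputable def Phi (a : Quotient (orb α) × α.range) : X := a.2.1 (rpo α a.1)

variable {α}

theorem Phi_inj (hα : IsFreeHom α) : Function.Injective (Phi α) := by
  rintro ⟨ω, ⟨_, g, rfl⟩⟩ ⟨ω', ⟨_, g', rfl⟩⟩ h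
  have h' : α g (rpo α ω) = α g' (rpo α ω') := h
  have h1 : ω = ω' := by
    rw [← Quotient.out_eq ω, ← Quotient.out_eq ω']
    refine Quotient.sound ⟨g'⁻¹ * g, ?_⟩
    have h2 : α (g'⁻¹ * g) (rpo α ω) = rpo α ω' := by
      rw [map_mul, map_inv]
      change (α g')⁻¹ (α g (rpo α ω)) = _
      rw [h']
      exact (α g').symm_apply_apply _
    exact h2
  subst h1
  have h3 : α (g'⁻¹ * g) (rpo α ω) = rpo α ω := by
    rw [map_mul, map_inv]
    change (α g')⁻¹ (α g (rpo α ω)) = _
    rw [h']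
    exact (α g').symm_apply_apply _
  have h4 : α (g'⁻¹ * g) = 1 := by
    by_contra h5
    exact hα _ h5 _ h3
  have h5 : α g = α g' := by
    rw [map_mul, map_inv, inv_mul_eq_one] at h4
    exact h4.symm
  exact Prod.ext rfl (Subtype.ext h5)

theorem Phi_surj : Function.Surjective (Phi α) := by
  intro x
  have h1 : (orb α).r (rpo α (Quotient.mk (orb α) x)) x := Quotient.mk_out (s := orb α) x
  obtain ⟨g, hg⟩ := h1
  exact ⟨(Quotient.mk (orb α) x, ⟨α g, g, rfl⟩), hg⟩

/-- isomorphic actions -/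
theorem free_conj [Finite X] [Nonempty X] {β : G →* Equiv.Perm X} (hα : IsFreeHom α)
    (hβ : IsFreeHom β) (h : ∀ g, α g = 1 ↔ β g = 1) :
    ∃ σ : Equiv.Perm X, ∀ g, σ * α g * σ⁻¹ = β g := by
  classical
  have hker : α.ker = β.ker := by
    ext g
    exact h g
  let ea := QuotientGroup.quotientKerEquivRange α
  let eb := QuotientGroup.quotientKerEquivRange β
  let em : G ⧸ α.ker ≃* G ⧸ β.ker := QuotientGroup.quotientMulEquivOfEq hker
  let e : α.range ≃* β.range := ea.symm.trans (em.trans eb)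
  have he : ∀ g, e ⟨α g, g, rfl⟩ = ⟨β g, g, rfl⟩ := by
    intro g
    have h1 : ea (g : G ⧸ α.ker) = ⟨α g, g, rfl⟩ := rfl
    change eb (em (ea.symm ⟨α g, g, rfl⟩)) = _
    rw [← h1, MulEquiv.symm_apply_apply]
    rfl
  let Pa : Quotient (orb α) × α.range ≃ X := Equiv.ofBijective _ ⟨Phi_inj hα, Phi_surj⟩
  let Pb : Quotient (orb β) × β.range ≃ X := Equiv.ofBijective _ ⟨Phi_inj hβ, Phi_surj⟩
  have hfa : Finite α.range := Finite.of_injective _ α.range.subtype_injective
  have hcard : Nat.card (Quotient (orb α)) = Nat.card (Quotient (orb β)) := by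
    have h1 := Nat.card_congr Pa
    have h2 := Nat.card_congr Pb
    rw [Nat.card_prod] at h1 h2
    have h3 : Nat.card α.range = Nat.card β.range := Nat.card_congr e.toEquiv
    rw [← h3, ← h1] at h2
    have h4 : 0 < Nat.card α.range := Nat.card_pos
    exact (Nat.eq_of_mul_eq_mul_right h4 h2).symm
  have hqa : Finite (Quotient (orb α)) := Quotient.finite _
  have hqb : Finite (Quotient (orb β)) := Quotient.finite _
  let τ : Quotient (orb α) ≃ Quotient (orb β) := (Finite.card_eq.1 hcard).some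
  let σ : Equiv.Perm X := Pa.symm.trans ((Equiv.prodCongr τ e.toEquiv).trans Pb)
  have hσ : ∀ g x, σ (α g x) = β g (σ x) := by
    intro g x
    obtain ⟨⟨ω, ⟨_, k, rfl⟩⟩, rfl⟩ := Pa.surjective x
    have h1 : α g (Pa (ω, ⟨α k, k, rfl⟩)) = Pa (ω, ⟨α (g * k), g * k, rfl⟩) := by
      change α g (α k (rpo α ω)) = α (g * k) (rpo α ω)
      rw [map_mul]
      rfl
    have h2 : ∀ k' : G, σ (Pa (ω, ⟨α k', k', rfl⟩)) = Pb (τ ω, ⟨β k', k', rfl⟩) := by
      intro k'
      change Pb ((Equiv.prodCongr τ e.toEquiv) (Pa.symm (Pa (ω, ⟨α k', k', rfl⟩)))) = _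
      rw [Equiv.symm_apply_apply]
      change Pb (τ ω, e ⟨α k', k', rfl⟩) = _
      rw [he]
    rw [h1, h2, h2]
    change β (g * k) (rpo β (τ ω)) = β g (β k (rpo β (τ ω)))
    rw [map_mul]
    rfl
  refine ⟨σ, fun g => ?_⟩
  ext x
  have h1 := hσ g (σ⁻¹ x)
  have h2 : σ (σ⁻¹ x) = x := σ.apply_symm_apply x
  rw [h2] at h1
  exact h1

end

/-- a finite group whose order divides `m` acts freely on `m` points -/
theorem exists_free {L : Type} [Group L] [Finite L] {m : ℕ} (hm : Nat.card L ∣ m) :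
    ∃ α : L →* Equiv.Perm (Fin m), ∀ l : L, l ≠ 1 → ∀ x, α l x ≠ x := by
  classical
  obtain ⟨c, hc⟩ := hm
  have h1 : Nat.card (L × Fin c) = Nat.card (Fin m) := by
    rw [Nat.card_prod, Nat.card_fin, Nat.card_fin, hc]
  let e : L × Fin c ≃ Fin m := (Finite.card_eq.1 h1).some
  let β : L →* Equiv.Perm (L × Fin c) :=
    { toFun := fun l => Equiv.prodCongr (Equiv.mulLeft l) (Equiv.refl _)
      map_one' := by
        ext x
        · simp
        · simp
      map_mul' := fun a b => by
        ext x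
        · simp [mul_assoc]
        · simp }
  refine ⟨(e.permCongrHom : Equiv.Perm (L × Fin c) ≃* Equiv.Perm (Fin m)).toMonoidHom.comp β, ?_⟩
  intro l hl x hx
  have h2 : e (β l (e.symm x)) = x := hx
  have h3 : β l (e.symm x) = e.symm x := by
    rw [← e.symm_apply_apply (β l (e.symm x)), h2]
  have h4 : l * (e.symm x).1 = (e.symm x).1 := congrArg Prod.fst h3
  exact hl (mul_eq_right.1 h4)

end Pool.Agent.Q152.TA
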