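import Pool.Agent.Q143.TR.Coc
import Pool.Agent.Q143.TR.Tree

/-!
# Local systems of homomorphisms to a fixed group on a tree

`K` acts on a tree, and `S v` is a set of homomorphisms from the stabilizer of the vertex `v` to a group
`P`, compatible with the action and with the edges.  If `K` is generated by the stabilizers, then every
element of the stabilizer of `v` which dies in all homomorphisms from `K` to `P` dies in all members of
`S v`.
-/

set_option autoImplicit false
set_option linter.unusedSectionVars false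

namespace Pool.Agent.Q152.TA.GP

open Pool.Agent.Y462.SS Pool.Agent.Q143.TR

variable {V K P : Type} [Group K] [Group P] [MulAction K V]

/-- conjugation between stabilizers -/
def cj {k : K} {v w : V} (h : k • v = w) : MulAction.stabilizer K w →* MulAction.stabilizer K v :=
  MonoidHom.mk' (fun s => ⟨k⁻¹ * s * k, by
    have h1 : (s : K) • w = w := s.2
    rw [MulAction.mem_stabilizer_iff, mul_smul, mul_smul, h, h1, inv_smul_eq_iff]
    exact h.symm⟩) (by
    intro a b
    apply Subtype.ext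
    simp only [Subgroup.coe_mul]
    group)

/-- compatible families of sets of homomorphisms -/
structure Fam (T : SimpleGraph V) (S : ∀ v : V, Set (MulAction.stabilizer K v →* P)) : Prop where
  ne : ∀ v, (S v).Nonempty
  conj : ∀ (k : K) (v w : V) (h : k • v = w) (χ : MulAction.stabilizer K v →* P), χ ∈ S v →
    χ.comp (cj h) ∈ S w
  edge : ∀ v w : V, T.Adj v w → ∀ χ ∈ S v, ∃ ψ ∈ S w, ∀ (k : K) (hv : k • v = v) (hw : k • w = w),
    χ ⟨k, hv⟩ = ψ ⟨k, hw⟩

/-- the base -/
abbrev XX (K P : Type) : Type := (K → P) × ℕ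

variable (S : ∀ v : V, Set (MulAction.stabilizer K v →* P))

theorem ch_equiv (hS : ∀ v, (S v).Nonempty) (v : V) : Nonempty (XX K P ≃ S v × XX K P) := by
  classical
  refine Cardinal.eq.1 ?_
  rw [← Cardinal.mul_def (S v) (XX K P)]
  refine (Cardinal.mul_eq_right ?_ ?_ ?_).symm
  · have : Nonempty (K → P) := ⟨fun _ => 1⟩
    exact Cardinal.aleph0_le_mk _
  · refine Cardinal.mk_le_of_injective (f := fun χ : S v =>
      ((fun g => if h : g ∈ MulAction.stabilizer K v then χ.1 ⟨g, h⟩ else 1, 0) : XX K P)) ?_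
    intro χ χ' h
    apply Subtype.ext
    ext g
    have h1 := congrFun (congrArg Prod.fst h) (g : K)
    simp only [SetLike.coe_mem, dif_pos] at h1
    exact h1
  · have : Nonempty (S v) := (hS v).to_subtype
    exact Cardinal.mk_ne_zero _

variable {S} {T : SimpleGraph V} (hF : Fam T S)

/-- the homomorphism at a point of the base -/
noncomputable def psi (v : V) (p : XX K P) : S v := ((ch_equiv S hF.ne v).some p).1

/-- all members occur often -/
noncomputable def emb (v : V) (χ : S v) (p : XX K P) : XX K P :=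
  (ch_equiv S hF.ne v).some.symm (χ, p)

theorem psi_emb (v : V) (χ : S v) (p : XX K P) : psi hF v (emb hF v χ p) = χ := by
  unfold psi emb
  rw [Equiv.apply_symm_apply]

theorem emb_inj (v : V) (χ : S v) : Function.Injective (emb hF v χ) := by
  intro p p' h
  have h1 := (ch_equiv S hF.ne v).some.symm.injective h
  exact congrArg Prod.snd h1

/-- conjugation to the representative -/
noncomputable def tr (x : V) : MulAction.stabilizer K x →* MulAction.stabilizer K (rp K x) :=
  cj (sx_spec x)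

theorem sx_inv (x : V) : (sx K x)⁻¹ • x = rp K x := by rw [inv_smul_eq_iff, sx_spec]

/-- conjugation from the representative -/
noncomputable def trInv (x : V) : MulAction.stabilizer K (rp K x) →* MulAction.stabilizer K x :=
  cj (sx_inv x)

theorem trInv_tr (x : V) (s : MulAction.stabilizer K x) : trInv x (tr x s) = s := by
  apply Subtype.ext
  change ((sx K x)⁻¹)⁻¹ * ((sx K x)⁻¹ * s * sx K x) * (sx K x)⁻¹ = s
  group

open Classical in
/-- the label -/
noncomputable def lab (v : V) (p : XX K P) (g : K) : P :=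
  if h : g ∈ MulAction.stabilizer K v then (psi hF v p).1 ⟨g, h⟩ else 1

theorem lab_mul (v : V) (p : XX K P) {g g' : K} (h : g ∈ MulAction.stabilizer K v)
    (h' : g' ∈ MulAction.stabilizer K v) :
    lab hF v p (g * g') = lab hF v p g * lab hF v p g' := by
  unfold lab
  rw [dif_pos h, dif_pos h', dif_pos (mul_mem h h'), ← map_mul]
  rfl

theorem lab_tr (x : V) (p : XX K P) (s : MulAction.stabilizer K x) :
    lab hF (rp K x) p ((sx K x)⁻¹ * s * sx K x) = (psi hF (rp K x) p).1 (tr x s) := by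
  unfold lab
  have h : (sx K x)⁻¹ * s * sx K x ∈ MulAction.stabilizer K (rp K x) := (tr x s).2
  rw [dif_pos h]
  rfl

/-- the cocycle -/
noncomputable def lc (k : K) (x : V) : Wr (XX K P) P :=
  ⟨fun p => lab hF (rp K x) p ((sx K (k • x))⁻¹ * k * sx K x), 1⟩

theorem lc_mul (k k' : K) (x : V) : lc hF (k * k') x = lc hF k (k' • x) * lc hF k' x := by
  refine Wr.ext (funext fun p => ?_) ?_
  · rw [Wr.mul_s]
    change lab _ _ _ _ = lab _ _ _ _ * lab _ _ _ _
    have h1 := cc_mem k (k' • x)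
    rw [rp_smul] at h1 ⊢
    change lab _ _ _ _ = lab _ _ p _ * lab _ _ _ _
    rw [← lab_mul _ _ _ h1 (cc_mem k' x)]
    congr 1
    rw [mul_smul]
    group
  · rfl

theorem lc_fix {s : K} {x : V} (h : s • x = x) (p : XX K P) :
    (lc hF s x).s p = (psi hF (rp K x) p).1 (tr x ⟨s, h⟩) := by
  rw [← lab_tr]
  change lab _ _ _ ((sx K (s • x))⁻¹ * s * sx K x) = _
  rw [h]

/-- the restricted homomorphism -/
noncomputable def res (x : V) (B : Subgroup K) (hB : B ≤ MulAction.stabilizer K x) (p : XX K P) :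
    B →* P :=
  (psi hF (rp K x) p).1.comp ((tr x).comp (Subgroup.inclusion hB))

include hF in
theorem tr_mem (x : V) (χ : S (rp K x)) : χ.1.comp (tr x) ∈ S x :=
  hF.conj _ _ _ (sx_spec x) _ χ.2

include hF in
theorem trInv_mem (x : V) (χ : S x) : χ.1.comp (trInv x) ∈ S (rp K x) :=
  hF.conj _ _ _ (sx_inv x) _ χ.2

theorem fiber (x : V) (B : Subgroup K) (hB : B ≤ MulAction.stabilizer K x) (η : B →* P)
    (hη : ∃ χ ∈ S x, χ.comp (Subgroup.inclusion hB) = η) :
    Nonempty ({p // res hF x B hB p = η} ≃ XX K P) := by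
  obtain ⟨χ, hχS, hχ⟩ := hη
  have hk : χ.comp (trInv x) ∈ S (rp K x) := trInv_mem hF x ⟨χ, hχS⟩
  have key : ∀ p, res hF x B hB (emb hF (rp K x) ⟨χ.comp (trInv x), hk⟩ p) = η := by
    intro p
    unfold res
    rw [psi_emb, ← hχ]
    ext b
    change χ (trInv x (tr x (Subgroup.inclusion hB b))) = χ (Subgroup.inclusion hB b)
    rw [trInv_tr]
  exact Function.Embedding.antisymm ⟨Subtype.val, Subtype.val_injective⟩
    ⟨fun p => ⟨emb hF (rp K x) ⟨χ.comp (trInv x), hk⟩ p, key p⟩, fun p p' h =>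
      emb_inj hF _ _ (congrArg Subtype.val h)⟩

theorem of_fiber (x : V) (B : Subgroup K) (hB : B ≤ MulAction.stabilizer K x) (η : B →* P)
    (p : {p // res hF x B hB p = η}) : ∃ χ ∈ S x, χ.comp (Subgroup.inclusion hB) = η :=
  ⟨_, tr_mem hF x (psi hF (rp K x) p.1), p.2⟩

theorem match_ex (x y : V) (hxy : T.Adj x y) :
    ∃ π : Equiv.Perm (XX K P), ∀ s : K, s • x = x → s • y = y →
      lc hF s y * (⟨1, π⟩ : Wr (XX K P) P) = ⟨1, π⟩ * lc hF s x := by
  classical
  set B : Subgroup K := MulAction.stabilizer K x ⊓ MulAction.stabilizer K y with hBdef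
  have hBx : B ≤ MulAction.stabilizer K x := inf_le_left
  have hBy : B ≤ MulAction.stabilizer K y := inf_le_right
  have h1 : ∀ η : B →* P, (∃ χ ∈ S x, χ.comp (Subgroup.inclusion hBx) = η) →
      ∃ χ ∈ S y, χ.comp (Subgroup.inclusion hBy) = η := by
    rintro η ⟨χ, hχ, rfl⟩
    obtain ⟨ψ, hψ, h⟩ := hF.edge x y hxy χ hχ
    refine ⟨ψ, hψ, ?_⟩
    ext b
    exact (h b (hBx b.2) (hBy b.2)).symm
  have h2 : ∀ η : B →* P, (∃ χ ∈ S y, χ.comp (Subgroup.inclusion hBy) = η) →
      ∃ χ ∈ S x, χ.comp (Subgroup.inclusion hBx) = η := by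
    rintro η ⟨χ, hχ, rfl⟩
    obtain ⟨ψ, hψ, h⟩ := hF.edge y x hxy.symm χ hχ
    refine ⟨ψ, hψ, ?_⟩
    ext b
    exact (h b (hBy b.2) (hBx b.2)).symm
  have ex : ∀ η : B →* P,
      Nonempty ({p // res hF x B hBx p = η} ≃ {p // res hF y B hBy p = η}) := by
    intro η
    by_cases hη : ∃ χ ∈ S x, χ.comp (Subgroup.inclusion hBx) = η
    · exact ⟨(fiber hF x B hBx η hη).some.trans (fiber hF y B hBy η (h1 η hη)).some.symm⟩
    · have e1 : IsEmpty {p // res hF x B hBx p = η} := ⟨fun p => hη (of_fiber hF x B hBx η p)⟩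
      have e2 : IsEmpty {p // res hF y B hBy p = η} :=
        ⟨fun p => hη (h2 η (of_fiber hF y B hBy η p))⟩
      exact ⟨Equiv.equivOfIsEmpty _ _⟩
  let e : ∀ η : B →* P, {p // res hF x B hBx p = η} ≃ {p // res hF y B hBy p = η} :=
    fun η => (ex η).some
  refine ⟨Equiv.ofFiberEquiv e, ?_⟩
  intro s hsx hsy
  refine Wr.ext (funext fun p => ?_) ?_
  · rw [Wr.mul_s, Wr.mul_s]
    change (lc hF s y).s (Equiv.ofFiberEquiv e p) * 1 = 1 * (lc hF s x).s p
    rw [mul_one, one_mul, lc_fix hF hsx, lc_fix hF hsy]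
    have h1 := Equiv.ofFiberEquiv_map e p
    exact DFunLike.congr_fun h1 ⟨s, hsx, hsy⟩
  · rfl

open Classical in
/-- the permutation over an edge -/
noncomputable def wPi (q : V × V) : Wr (XX K P) P :=
  if h : ∃ π : Equiv.Perm (XX K P), ∀ s : K, s • q.1 = q.1 → s • q.2 = q.2 →
      lc hF s q.2 * (⟨1, π⟩ : Wr (XX K P) P) = ⟨1, π⟩ * lc hF s q.1 then ⟨1, h.choose⟩ else 1

theorem wPi_spec (q : V × V) (hq : T.Adj q.1 q.2)
    (s : K) (h1 : s • q.1 = q.1) (h2 : s • q.2 = q.2) :
    lc hF s q.2 * wPi hF q = wPi hF q * lc hF s q.1 := by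
  have h := match_ex hF q.1 q.2 hq
  unfold wPi
  rw [dif_pos h]
  exact h.choose_spec s h1 h2

/-- the transport along a directed edge -/
noncomputable def wd (e : V × V) : Wr (XX K P) P :=
  lc hF (sx K e) (rp K e).2 * wPi hF (rp K e) * (lc hF (sx K e) (rp K e).1)⁻¹

theorem wd_eq (e : V × V) (he : T.Adj (rp K e).1 (rp K e).2) (k : K) :
    wd hF (k • e) * lc hF k e.1 = lc hF k e.2 * wd hF e := by
  have hq : rp K (k • e) = rp K e := rp_smul k e
  have ht : sx K e • rp K e = e := sx_spec e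
  have ht' : sx K (k • e) • rp K e = k • e := by
    have := sx_spec (Γ := K) (k • e)
    rwa [hq] at this
  unfold wd
  rw [hq]
  generalize rp K e = q at *
  generalize sx K e = t at *
  generalize sx K (k • e) = t' at *
  have hs : (t'⁻¹ * k * t) • q = q := by
    rw [mul_smul, mul_smul, ht, inv_smul_eq_iff, ht']
  have hs1 : (t'⁻¹ * k * t) • q.1 = q.1 := congrArg Prod.fst hs
  have hs2 : (t'⁻¹ * k * t) • q.2 = q.2 := congrArg Prod.snd hs
  have ht1 : t • q.1 = e.1 := congrArg Prod.fst ht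
  have ht2 : t • q.2 = e.2 := congrArg Prod.snd ht
  have hk : k * t = t' * (t'⁻¹ * k * t) := by group
  have c1 : lc hF k e.1 * lc hF t q.1 = lc hF t' q.1 * lc hF (t'⁻¹ * k * t) q.1 := by
    have h1 := lc_mul hF k t q.1
    have h2 := lc_mul hF t' (t'⁻¹ * k * t) q.1
    rw [ht1] at h1
    rw [hs1, ← hk] at h2
    rw [← h1, ← h2]
  have c2 : lc hF k e.2 * lc hF t q.2 = lc hF t' q.2 * lc hF (t'⁻¹ * k * t) q.2 := by
    have h1 := lc_mul hF k t q.2
    have h2 := lc_mul hF t' (t'⁻¹ * k * t) q.2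
    rw [ht2] at h1
    rw [hs2, ← hk] at h2
    rw [← h1, ← h2]
  have c3 := wPi_spec hF q he _ hs1 hs2
  have c1' : (lc hF t' q.1)⁻¹ * lc hF k e.1 = lc hF (t'⁻¹ * k * t) q.1 * (lc hF t q.1)⁻¹ := by
    rw [eq_mul_inv_iff_mul_eq, mul_assoc, c1, inv_mul_cancel_left]
  calc lc hF t' q.2 * wPi hF q * (lc hF t' q.1)⁻¹ * lc hF k e.1
      = lc hF t' q.2 * (wPi hF q * ((lc hF t' q.1)⁻¹ * lc hF k e.1)) := by group
    _ = lc hF t' q.2 * (wPi hF q * lc hF (t'⁻¹ * k * t) q.1 * (lc hF t q.1)⁻¹) := by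
        rw [c1', mul_assoc (wPi hF q)]
    _ = lc hF t' q.2 * lc hF (t'⁻¹ * k * t) q.2 * wPi hF q * (lc hF t q.1)⁻¹ := by
        rw [← c3]; group
    _ = lc hF k e.2 * (lc hF t q.2 * wPi hF q * (lc hF t q.1)⁻¹) := by
        rw [← c2]; group

section tree

variable (hT : T.IsTree) (r : V)
  (hadj : ∀ (γ : K) x y, T.Adj x y → T.Adj (γ • x) (γ • y))
  (ε : V → ℤˣ) (hε : ∀ (k : K) x, ε (k • x) = ε x) (hεa : ∀ x y, T.Adj x y → ε x ≠ ε y)

/-- the transport -/
noncomputable def om' (x y : V) : Wr (XX K P) P :=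
  if ε x = 1 then wd hF (x, y) else (wd hF (y, x))⁻¹

include hεa in
theorem om'_inv (x y : V) (h : T.Adj x y) : om' hF ε y x = (om' hF ε x y)⁻¹ := by
  unfold om'
  have h1 := hεa x y h
  by_cases hx : ε x = 1
  · have hy : ε y ≠ 1 := fun hy => h1 (hx.trans hy.symm)
    rw [if_pos hx, if_neg hy]
  · have hy : ε y = 1 := by
      rcases Int.units_eq_one_or (ε x) with h2 | h2
      · exact absurd h2 hx
      · rcases Int.units_eq_one_or (ε y) with h3 | h3
        · exact h3
        · exact absurd (h2.trans h3.symm) h1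
    rw [if_neg hx, if_pos hy, inv_inv]

include hadj hε in
theorem om'_lc (k : K) (x y : V) (h : T.Adj x y) :
    om' hF ε (k • x) (k • y) * lc hF k x = lc hF k y * om' hF ε x y := by
  have key : ∀ x y : V, T.Adj x y →
      wd hF (k • x, k • y) * lc hF k x = lc hF k y * wd hF (x, y) := by
    intro x y hxy
    have h1 : T.Adj (rp K (x, y)).1 (rp K (x, y)).2 := by
      have h2 := sx_spec (Γ := K) (x, y)
      have h3 := hadj (sx K (x, y))⁻¹ x y hxy
      have h4 : (sx K (x, y))⁻¹ • x = (rp K (x, y)).1 := by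
        rw [inv_smul_eq_iff]
        exact (congrArg Prod.fst h2).symm
      have h5 : (sx K (x, y))⁻¹ • y = (rp K (x, y)).2 := by
        rw [inv_smul_eq_iff]
        exact (congrArg Prod.snd h2).symm
      rwa [h4, h5] at h3
    exact wd_eq hF (x, y) h1 k
  unfold om'
  rw [hε]
  by_cases hx : ε x = 1
  · rw [if_pos hx, if_pos hx]
    exact key x y h
  · rw [if_neg hx, if_neg hx]
    have h1 := key y x h.symm
    rw [inv_mul_eq_iff_eq_mul, ← mul_assoc, h1, mul_inv_cancel_right]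

/-- the homomorphism -/
noncomputable def JJ : K →* Wr (XX K P) P :=
  Jt hT r (om' hF ε) hadj (fun x y h => om'_inv hF ε hεa x y h) (lc hF) (lc_mul hF)
    (fun γ x y h => om'_lc hF hadj ε hε γ x y h)

theorem JJ_pot (k : K) (x : V) : JJ hF hT r hadj ε hε hεa k * pot hT r (om' hF ε) x =
    pot hT r (om' hF ε) (k • x) * lc hF k x :=
  Jt_pot hT r (om' hF ε) hadj (fun x y h => om'_inv hF ε hεa x y h) (lc hF) (lc_mul hF)
    (fun γ x y h => om'_lc hF hadj ε hε γ x y h) k x

/-- the permutation part -/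
def pHom (X M : Type) [Group M] : Wr X M →* Equiv.Perm X where
  toFun a := a.p
  map_one' := rfl
  map_mul' _ _ := rfl

theorem JJ_p (hgen : Subgroup.closure {k : K | ∃ x : V, k • x = x} = ⊤) (k : K) :
    (JJ hF hT r hadj ε hε hεa k).p = 1 := by
  have h1 : k ∈ ((pHom (XX K P) P).comp (JJ hF hT r hadj ε hε hεa)).ker := by
    have h2 : Subgroup.closure {k : K | ∃ x : V, k • x = x} ≤
        ((pHom (XX K P) P).comp (JJ hF hT r hadj ε hε hεa)).ker := by
      rw [Subgroup.closure_le]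
      rintro s ⟨x, hs⟩
      have h3 := JJ_pot hF hT r hadj ε hε hεa s x
      rw [hs] at h3
      have h4 := congrArg (pHom (XX K P) P) h3
      rw [map_mul, map_mul] at h4
      have h5 : pHom (XX K P) P (lc hF s x) = 1 := rfl
      rw [h5, mul_one] at h4
      exact mul_eq_right.1 h4
    rw [hgen] at h2
    exact h2 trivial
  exact h1

theorem JJ_one (hgen : Subgroup.closure {k : K | ∃ x : V, k • x = x} = ⊤) {k : K}
    (hk : ∀ θ : K →* P, θ k = 1) : JJ hF hT r hadj ε hε hεa k = 1 := by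
  refine Wr.ext (funext fun p => ?_) (JJ_p hF hT r hadj ε hε hεa hgen k)
  let θ : K →* P := MonoidHom.mk' (fun k => (JJ hF hT r hadj ε hε hεa k).s p) (by
    intro a b
    rw [map_mul, Wr.mul_s, JJ_p hF hT r hadj ε hε hεa hgen b]
    rfl)
  exact hk θ

theorem S_of_JJ {k : K} {x : V} (hx : k • x = x) (h : JJ hF hT r hadj ε hε hεa k = 1)
    (χ : MulAction.stabilizer K x →* P) (hχ : χ ∈ S x) : χ ⟨k, hx⟩ = 1 := by
  have h1 := JJ_pot hF hT r hadj ε hε hεa k x
  rw [h, hx, one_mul] at h1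
  have h2 : lc hF k x = 1 := left_eq_mul.1 h1
  have hk : χ.comp (trInv x) ∈ S (rp K x) := trInv_mem hF x ⟨χ, hχ⟩
  have h4 := lc_fix hF hx (emb hF (rp K x) ⟨χ.comp (trInv x), hk⟩ (fun _ => 1, 0))
  rw [h2, psi_emb] at h4
  change 1 = χ (trInv x (tr x _)) at h4
  rw [trInv_tr] at h4
  exact h4.symm

theorem JJ_of_S {k : K} {x : V} (hx : k • x = x) (h : ∀ χ ∈ S x, χ ⟨k, hx⟩ = 1) :
    JJ hF hT r hadj ε hε hεa k = 1 := by
  have h1 := JJ_pot hF hT r hadj ε hε hεa k x
  rw [hx] at h1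
  have h2 : lc hF k x = 1 := by
    refine Wr.ext (funext fun p => ?_) rfl
    rw [lc_fix hF hx]
    exact h _ (tr_mem hF x (psi hF (rp K x) p))
  rw [h2, mul_one] at h1
  exact mul_eq_right.1 h1

include hF hT hadj hε hεa in
/-- **The homomorphism given by the local system.** -/
theorem exists_J (hgen : Subgroup.closure {k : K | ∃ x : V, k • x = x} = ⊤) :
    ∃ J : K →* Wr (XX K P) P, (∀ k : K, (∀ θ : K →* P, θ k = 1) → J k = 1) ∧
      ∀ (k : K) (x : V) (hx : k • x = x), (J k = 1 ↔ ∀ χ ∈ S x, χ ⟨k, hx⟩ = 1) := by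
  obtain ⟨r⟩ := hT.connected.nonempty
  exact ⟨JJ hF hT r hadj ε hε hεa, fun k hk => JJ_one hF hT r hadj ε hε hεa hgen hk,
    fun k x hx => ⟨fun h χ hχ => S_of_JJ hF hT r hadj ε hε hεa hx h χ hχ,
      fun h => JJ_of_S hF hT r hadj ε hε hεa hx h⟩⟩

include hF hT hadj hε hεa in
/-- **Elements which die in all homomorphisms to `P`.** -/
theorem all_die (hgen : Subgroup.closure {k : K | ∃ x : V, k • x = x} = ⊤) {k : K}
    (hk : ∀ θ : K →* P, θ k = 1) {x : V} (hx : k • x = x)
    (χ : MulAction.stabilizer K x →* P) (hχ : χ ∈ S x) : χ ⟨k, hx⟩ = 1 := by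
  obtain ⟨r⟩ := hT.connected.nonempty
  exact S_of_JJ hF hT r hadj ε hε hεa hx (JJ_one hF hT r hadj ε hε hεa hgen hk) χ hχ

end tree

end Pool.Agent.Q152.TA.GP
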