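import Pool.Agent.Q152.TA.Main
import Pool.Agent.Q152.TA.LocP
import Pool.Agent.Q152.TA.Free
import Pool.Agent.Q91.FJ.Laws

/-!
# Compatible series with abelian factors and finite factors of bounded order
-/

set_option autoImplicit false
set_option linter.unusedSectionVars false
set_option linter.style.haveILetI false

namespace Pool.Agent.Q152.TA

open Pool.Agent.Y462.SS Pool.Agent.Q152.WP Pool.Agent.Q143.TR Pool.Agent.Q105.FJ
open Pool.Agent.Q91.FJ
open scoped commutatorElement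

variable {C : ∀ (G : Type) [Group G], Prop} {V Γ : Type} [Group Γ] [MulAction Γ V]
  {T : SimpleGraph V}

/-- the subgroup generated by the stabilizers in the kernel -/
theorem setup (hT : T.IsTree) (hadj : ∀ (γ : Γ) (x y : V), T.Adj x y → T.Adj (γ • x) (γ • y))
    (hC : Closed C) (hE : ExtClosed C) {Q : Type} [Group Q] (hQ : C Q) (f : Γ →* Q) :
    ∃ (K : Subgroup Γ) (_ : K.Normal), C (Γ ⧸ K) ∧ (∀ k ∈ K, f k = 1) ∧
      (∀ (γ : Γ) (v : V), γ • v = v → f γ = 1 → γ ∈ K) ∧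
      Subgroup.closure {k : K | ∃ x : V, k • x = x} = ⊤ ∧
      ∃ ε : V → ℤˣ, (∀ (k : K) (x : V), ε (k • x) = ε x) ∧ ∀ x y, T.Adj x y → ε x ≠ ε y := by
  obtain ⟨r⟩ := hT.connected.nonempty
  set F : Γ →* Q × ℤˣ := f.prod (sgn hT r hadj) with hFdef
  have hW : C (Q × ℤˣ) := hC.prod _ _ hQ (Pool.Agent.Y812.SS.C_finite hC ℤˣ)
  have he : ∀ (γ : Γ) (x y : V), T.Adj x y → F γ = 1 → γ • x = y → γ • y ≠ x := by
    intro γ x y h hF hx _
    have h1 : sgn hT r hadj γ = 1 := congrArg Prod.snd hF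
    rw [sgn_inv hT r hadj γ h hx] at h1
    exact absurd h1 (by decide)
  set μ := Fw F hT r hadj with hμ
  set K : Subgroup Γ := μ.ker with hK
  have hKF : ∀ k ∈ K, F k = 1 := fun k hk => Fw_right F hT r hadj k hk
  have hKf : ∀ k ∈ K, f k = 1 := fun k hk => congrArg Prod.fst (hKF k hk)
  have hGK : C (Γ ⧸ K) := hC.of_injective _ _ (QuotientGroup.kerLift μ)
    (QuotientGroup.kerLift_injective μ) (ww_mem hC hE _ _ (of_sub hC _ hW))
  let ε : V → ℤˣ := pot hT r (fun _ _ => (-1 : ℤˣ))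
  have hεF : ∀ (k : Γ) (x : V), sgn hT r hadj k * ε x = ε (k • x) := by
    intro k x
    have h1 : sgn hT r hadj k * pot hT r (fun _ _ => (-1 : ℤˣ)) x =
        pot hT r (fun _ _ => (-1 : ℤˣ)) (k • x) * 1 :=
      Jt_pot hT r (fun _ _ => (-1 : ℤˣ)) hadj (fun _ _ _ => by simp) (fun _ _ => 1)
        (fun (_ _ : Γ) _ => by simp) (fun _ _ _ _ => by simp) k x
    rw [mul_one] at h1
    exact h1
  have hε : ∀ (k : K) (x : V), ε (k • x) = ε x := by
    intro k x
    have h1 := hεF (k : Γ) x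
    have h2 : sgn hT r hadj (k : Γ) = 1 := congrArg Prod.snd (hKF k k.2)
    rw [h2, one_mul] at h1
    exact h1.symm
  have hεa : ∀ x y, T.Adj x y → ε x ≠ ε y := by
    intro x y h h1
    have h2 : ε x = ε y * (-1) := pot_adj hT r (fun _ _ => (-1 : ℤˣ)) (fun _ _ _ => by simp) h
    rw [h1] at h2
    have h3 : (-1 : ℤˣ) = 1 := left_eq_mul.1 h2
    exact absurd h3 (by decide)
  have hKv : ∀ (γ : Γ) (v : V), γ • v = v → f γ = 1 → γ ∈ K := by
    intro γ v hv hf
    have h1 := hεF γ v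
    rw [hv] at h1
    have h2 : sgn hT r hadj γ = 1 := mul_eq_right.1 h1
    exact Fw_fix F hT r hadj (Prod.ext hf h2) hv
  have hgen : Subgroup.closure {k : K | ∃ x : V, k • x = x} = ⊤ := by
    rw [eq_top_iff]
    rintro ⟨k, hk⟩ _
    have h1 : k ∈ Subgroup.closure {ν : Γ | F ν = 1 ∧ ∃ x : V, ν • x = x} :=
      Fw_ker F hT r hadj he hk
    have h2 : {ν : Γ | F ν = 1 ∧ ∃ x : V, ν • x = x} ⊆
        ((Subgroup.closure {k : K | ∃ x : V, k • x = x}).map K.subtype : Subgroup Γ) := by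
      rintro ν ⟨hν, x, hx⟩
      have h3 : ν ∈ K := Fw_fix F hT r hadj hν hx
      exact ⟨⟨ν, h3⟩, Subgroup.subset_closure ⟨x, hx⟩, rfl⟩
    have h3 := (Subgroup.closure_le _).2 h2 h1
    obtain ⟨k', hk', h4⟩ := h3
    have h5 : k' = ⟨k, hk⟩ := Subtype.ext h4
    rwa [← h5]
  exact ⟨K, inferInstance, hGK, hKf, hKv, hgen, ε, hε, hεa⟩

/-- the quotient by a normal subgroup and the groups `R v` -/
theorem finish (K : Subgroup Γ) [K.Normal] {Q : Type} [Group Q] (f : Γ →* Q)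
    (hKv : ∀ (γ : Γ) (v : V), γ • v = v → f γ = 1 → γ ∈ K) (R : V → Subgroup Γ)
    (hle : ∀ v, R v ≤ f.ker ⊓ MulAction.stabilizer Γ v)
    (hconj : ∀ (γ : Γ) (v : V) (x : Γ), x ∈ R v → γ * x * γ⁻¹ ∈ R (γ • v))
    (D₀ : Subgroup Γ) [D₀.Normal] (hD₀K : D₀ ≤ K) {M : Type} [Group M] (J : K →* M)
    (hJ : ∀ k : K, (k : Γ) ∈ D₀ → J k = 1)
    (hJR : ∀ (k : K) (x : V), k • x = x → (J k = 1 ↔ (k : Γ) ∈ R x))
    (hCD : ∀ (D : Subgroup Γ) [D.Normal], D₀ ≤ D → D ≤ K → C (Γ ⧸ D)) :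
    ∃ (Q' : Type) (_ : Group Q') (f' : Γ →* Q'), C Q' ∧
      ∀ v, f'.ker ⊓ MulAction.stabilizer Γ v = R v := by
  set S : Set Γ := {x | ∃ v, x ∈ R v} with hS'
  set E : Subgroup Γ := Subgroup.closure S with hEdef
  have hEn : E.Normal := by
    refine ⟨fun n hn g => ?_⟩
    have h1 : E.map (MulAut.conj g).toMonoidHom ≤ E := by
      rw [hEdef, MonoidHom.map_closure]
      rw [Subgroup.closure_le]
      rintro _ ⟨x, ⟨v, hx⟩, rfl⟩
      exact Subgroup.subset_closure ⟨g • v, hconj g v x hx⟩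
    exact h1 ⟨n, hn, rfl⟩
  have hEK : E ≤ K := by
    rw [hEdef, Subgroup.closure_le]
    rintro x ⟨v, hx⟩
    exact hKv x v (hle v hx).2 (hle v hx).1
  set D : Subgroup Γ := D₀ ⊔ E with hD
  have hDn : D.Normal := by
    rw [hD]
    infer_instance
  have hDK : D ≤ K := sup_le hD₀K hEK
  have hDJ : D.subgroupOf K ≤ J.ker := by
    have h1 : D ≤ J.ker.map K.subtype := by
      refine sup_le ?_ ?_
      · intro x hx
        exact ⟨⟨x, hD₀K hx⟩, hJ _ hx, rfl⟩
      · rw [hEdef, Subgroup.closure_le]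
        rintro x ⟨v, hx⟩
        have h2 : x ∈ K := hEK (Subgroup.subset_closure ⟨v, hx⟩)
        exact ⟨⟨x, h2⟩, (hJR ⟨x, h2⟩ v (hle v hx).2).2 hx, rfl⟩
    intro k hk
    obtain ⟨k', hk', h3⟩ := h1 hk
    have h4 : k' = k := Subtype.ext h3
    rwa [← h4]
  refine ⟨Γ ⧸ D, inferInstance, QuotientGroup.mk' D, hCD D le_sup_left hDK, fun v => ?_⟩
  rw [QuotientGroup.ker_mk']
  apply le_antisymm
  · rintro γ ⟨hγD, hγv⟩
    have h1 : J ⟨γ, hDK hγD⟩ = 1 := hDJ (show (⟨γ, hDK hγD⟩ : K) ∈ D.subgroupOf K from hγD)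
    exact (hJR ⟨γ, hDK hγD⟩ v hγv).1 h1
  · intro γ hγ
    exact ⟨le_sup_right (a := D₀) (Subgroup.subset_closure ⟨v, hγ⟩), (hle v hγ).2⟩

theorem vsolv_finite (A : Type) [Group A] [Finite A] : VSolv A := by
  refine ⟨⊥, inferInstance, inferInstance, ?_⟩
  exact Group.isSolvable_of_comm (fun a b => Subsingleton.elim _ _)

/-- quotients of a group with the laws of a virtually solvable group -/
theorem quot_laws (hC : Closed C) (hE : ExtClosed C) (hS : HasSolvable C) {P : Type} [Group P]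
    (hP : VSolv P) (K : Subgroup Γ) [K.Normal] (hK : C (Γ ⧸ K)) (D : Subgroup Γ) [D.Normal]
    (h1 : verbal P K ≤ D) (h2 : D ≤ K) : C (Γ ⧸ D) := by
  let g : Γ ⧸ D →* Γ ⧸ K := QuotientGroup.map D K (MonoidHom.id Γ) (fun x hx => h2 hx)
  have hg : Function.Surjective g := by
    intro q
    obtain ⟨γ, rfl⟩ := QuotientGroup.mk_surjective q
    exact ⟨(γ : Γ ⧸ D), rfl⟩
  refine laws_kernel hC hE hS g hg hK hP ?_
  intro w hw φ
  have h3 : ∀ n, ∃ k : K, ((k : Γ) : Γ ⧸ D) = φ n := by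
    intro n
    obtain ⟨γ, hγ⟩ := QuotientGroup.mk_surjective (φ n : Γ ⧸ D)
    have h4 : g (γ : Γ ⧸ D) = 1 := by
      rw [hγ]
      exact (φ n).2
    have h5 : γ ∈ K := (QuotientGroup.eq_one_iff γ).1 h4
    exact ⟨⟨γ, h5⟩, hγ⟩
  choose k hk using h3
  apply Subtype.ext
  have h4 : (QuotientGroup.mk' D).comp (K.subtype.comp (FreeGroup.lift k)) =
      g.ker.subtype.comp (FreeGroup.lift φ) := by
    ext n
    simpa using hk n
  have h5 := DFunLike.congr_fun h4 w
  have h6 : ((FreeGroup.lift k w : K) : Γ) ∈ D :=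
    h1 ⟨FreeGroup.lift k w, Subgroup.subset_closure ⟨w, k, hw, rfl⟩, rfl⟩
  have h7 : (QuotientGroup.mk' D) ((FreeGroup.lift k w : K) : Γ) = 1 :=
    (QuotientGroup.eq_one_iff _).2 h6
  exact (h5.symm.trans h7 : _)

/-- **One step with a finite factor.** -/
theorem step_fin (hT : T.IsTree) (hadj : ∀ (γ : Γ) (x y : V), T.Adj x y → T.Adj (γ • x) (γ • y))
    (hC : Closed C) (hE : ExtClosed C) (hS : HasSolvable C)
    {Q : Type} [Group Q] (hQ : C Q) (f : Γ →* Q) (R : V → Subgroup Γ)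
    (hle : ∀ v, R v ≤ f.ker ⊓ MulAction.stabilizer Γ v) (m : ℕ) (hm : m ≠ 0)
    (hfin : ∀ v, (R v).relIndex (f.ker ⊓ MulAction.stabilizer Γ v) ∣ m)
    (hconj : ∀ (γ : Γ) (v : V) (x : Γ), x ∈ R v → γ * x * γ⁻¹ ∈ R (γ • v))
    (hedge : ∀ v w : V, T.Adj v w → ∀ x : Γ, x ∈ R v → x • w = w → x ∈ R w) :
    ∃ (Q' : Type) (_ : Group Q') (f' : Γ →* Q'), C Q' ∧
      ∀ v, f'.ker ⊓ MulAction.stabilizer Γ v = R v := by
  obtain ⟨K, hKn, hGK, hKf, hKv, hgen, ε, hε, hεa⟩ := setup hT hadj hC hE hQ f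
  have hKadj : ∀ (γ : K) x y, T.Adj x y → T.Adj (γ • x) (γ • y) := fun γ x y h => hadj γ x y h
  have : NeZero m := ⟨hm⟩
  let P : Type := Equiv.Perm (Fin m)
  let S : ∀ v : V, Set (MulAction.stabilizer K v →* Equiv.Perm (Fin m)) := fun v =>
    {χ | (∀ k, χ k = 1 ↔ ((k : K) : Γ) ∈ R v) ∧ IsFreeHom χ}
  have hne : ∀ v, (S v).Nonempty := by
    intro v
    let i : MulAction.stabilizer K v →* Γ := K.subtype.comp (Subgroup.subtype _)
    have hi : i.range = f.ker ⊓ MulAction.stabilizer Γ v := by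
      apply le_antisymm
      · rintro _ ⟨t, rfl⟩
        exact ⟨hKf _ t.1.2, t.2⟩
      · rintro γ ⟨h1, h2⟩
        exact ⟨⟨⟨γ, hKv γ v h2 h1⟩, h2⟩, rfl⟩
    let R' : Subgroup (MulAction.stabilizer K v) := (R v).comap i
    have hR'n : R'.Normal := by
      refine ⟨fun n hn g => ?_⟩
      have h1 := hconj (i g) v (i n) hn
      have h2 : i g • v = v := g.2
      rw [h2] at h1
      change i (g * n * g⁻¹) ∈ R v
      rw [map_mul, map_mul, map_inv]
      exact h1
    have hidx : R'.index ∣ m := by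
      have h1 : R'.index = (R v).relIndex i.range := Subgroup.index_comap _ _
      rw [h1, hi]
      exact hfin v
    have hidx0 : R'.index ≠ 0 := fun h0 => by
      rw [h0, zero_dvd_iff] at hidx
      exact hm hidx
    have hfi : R'.FiniteIndex := ⟨hidx0⟩
    have hf' : Finite (MulAction.stabilizer K v ⧸ R') := Subgroup.finite_quotient_of_finiteIndex
    obtain ⟨α, hα⟩ := exists_free (L := MulAction.stabilizer K v ⧸ R') (m := m) hidx
    refine ⟨α.comp (QuotientGroup.mk' R'), ?_, ?_⟩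
    · intro k
      have h1 : α (k : MulAction.stabilizer K v ⧸ R') = 1 ↔ k ∈ R' := by
        rw [← QuotientGroup.eq_one_iff]
        refine ⟨fun h => ?_, fun h => by rw [h, map_one]⟩
        by_contra h3
        exact hα _ h3 0 (by rw [h]; rfl)
      exact h1
    · intro k hk x
      refine hα _ (fun h => hk ?_) x
      change α (k : MulAction.stabilizer K v ⧸ R') = 1
      have h' : ((k : MulAction.stabilizer K v ⧸ R')) = 1 := h
      rw [h', map_one]
  have hfam : GP.Fam (K := K) (P := Equiv.Perm (Fin m)) T S := by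
    refine ⟨hne, ?_, ?_⟩
    · rintro k v w h χ ⟨h1, h2⟩
      refine ⟨fun s => ?_, fun s hs x => h2 _ hs x⟩
      change χ (GP.cj h s) = 1 ↔ _
      rw [h1]
      change (k : Γ)⁻¹ * ((s : K) : Γ) * (k : Γ) ∈ R v ↔ _
      have hkv : (k : Γ) • v = w := h
      have hkw : (k : Γ)⁻¹ • w = v := by
        rw [inv_smul_eq_iff]
        exact hkv.symm
      constructor
      · intro h3
        have h4 := hconj (k : Γ) v _ h3
        rw [hkv] at h4
        have h5 : (k : Γ) * ((k : Γ)⁻¹ * ((s : K) : Γ) * (k : Γ)) * (k : Γ)⁻¹ =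
            ((s : K) : Γ) := by group
        rwa [h5] at h4
      · intro h3
        have h4 := hconj (k : Γ)⁻¹ w _ h3
        rw [hkw, inv_inv] at h4
        exact h4
    · rintro v w hvw χ ⟨h1, h2⟩
      obtain ⟨ψ, h3, h4⟩ := hne w
      let B : Subgroup K := MulAction.stabilizer K v ⊓ MulAction.stabilizer K w
      have hBv : B ≤ MulAction.stabilizer K v := inf_le_left
      have hBw : B ≤ MulAction.stabilizer K w := inf_le_right
      have h5 : ∀ b : B, χ (Subgroup.inclusion hBv b) = 1 ↔ ψ (Subgroup.inclusion hBw b) = 1 := by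
        intro b
        rw [h1, h3]
        exact ⟨fun h => hedge v w hvw _ h (hBw b.2), fun h => hedge w v hvw.symm _ h (hBv b.2)⟩
      obtain ⟨σ, hσ⟩ := free_conj (α := ψ.comp (Subgroup.inclusion hBw))
        (β := χ.comp (Subgroup.inclusion hBv)) (fun g hg x => h4 _ hg x)
        (fun g hg x => h2 _ hg x) (fun g => (h5 g).symm)
      refine ⟨(MulAut.conj σ).toMonoidHom.comp ψ, ⟨fun k => ?_, ?_⟩, ?_⟩
      · rw [← h3]
        change σ * ψ k * σ⁻¹ = 1 ↔ _
        exact conj_eq_one_iff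
      · intro k hk x hx
        have h6 : σ * ψ k * σ⁻¹ ≠ 1 := hk
        have h7 : ψ k ≠ 1 := fun h => h6 (by rw [h, mul_one, mul_inv_cancel])
        have h8 : (σ * ψ k * σ⁻¹) x = x := hx
        have h9 : σ (ψ k (σ⁻¹ x)) = x := h8
        have h10 : ψ k (σ⁻¹ x) = σ⁻¹ x := by
          have h11 : σ⁻¹ (σ (ψ k (σ⁻¹ x))) = σ⁻¹ x := by rw [h9]
          exact (σ.symm_apply_apply (ψ k (σ⁻¹ x))).symm.trans h11
        exact h4 k h7 _ h10
      · intro k hv hw
        exact (hσ ⟨k, hv, hw⟩).symm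
  obtain ⟨J, hJ1, hJ2⟩ := GP.exists_J hfam hT hKadj ε hε hεa hgen
  have hn : (verbal (Equiv.Perm (Fin m)) K).Normal := verbal_normal _ _
  refine finish K f hKv R hle hconj (verbal (Equiv.Perm (Fin m)) K) (verbal_le _ _) J ?_ ?_ ?_
  · rintro k ⟨k', hk', h1⟩
    have h2 : k' = k := Subtype.ext h1
    subst h2
    refine hJ1 _ (fun θ => ?_)
    have h3 : vb (Equiv.Perm (Fin m)) K ≤ θ.ker := by
      rw [vb, Subgroup.closure_le]
      rintro _ ⟨w, g, hw, rfl⟩
      change θ (FreeGroup.lift g w) = 1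
      rw [lift_comp]
      exact hw _
    exact h3 hk'
  · intro k x hx
    rw [hJ2 k x hx]
    constructor
    · intro h
      obtain ⟨χ, hχ⟩ := hne x
      exact (hχ.1 ⟨k, hx⟩).1 (h χ hχ)
    · intro h χ hχ
      exact (hχ.1 ⟨k, hx⟩).2 h
  · intro D _ h1 h2
    exact quot_laws hC hE hS (vsolv_finite _) K hGK D h1 h2

/-- **Compatible series with abelian factors and finite factors of bounded order.** -/
theorem series_fin (hT : T.IsTree)
    (hadj : ∀ (γ : Γ) (x y : V), T.Adj x y → T.Adj (γ • x) (γ • y))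
    (hC : Closed C) (hE : ExtClosed C) (hS : HasSolvable C)
    {Q : Type} [Group Q] (hQ : C Q) (f : Γ →* Q) (M : ℕ → V → Subgroup Γ) (n : ℕ)
    (h0 : ∀ v, M 0 v = f.ker ⊓ MulAction.stabilizer Γ v)
    (hle : ∀ i < n, ∀ v, M (i + 1) v ≤ M i v)
    (hfac : ∀ i < n, (∀ v, ⁅M i v, M i v⁆ ≤ M (i + 1) v) ∨
      ∃ m : ℕ, m ≠ 0 ∧ ∀ v, (M (i + 1) v).relIndex (M i v) ∣ m)
    (hconj : ∀ i < n, ∀ (γ : Γ) (v : V) (x : Γ), x ∈ M (i + 1) v → γ * x * γ⁻¹ ∈ M (i + 1) (γ • v))
    (hedge : ∀ i < n, ∀ v w : V, T.Adj v w → ∀ x : Γ, x ∈ M (i + 1) v → x • w = w →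
      x ∈ M (i + 1) w) :
    ∃ (Q' : Type) (_ : Group Q') (f' : Γ →* Q'), C Q' ∧
      ∀ v, f'.ker ⊓ MulAction.stabilizer Γ v = M n v := by
  induction n with
  | zero => exact ⟨Q, inferInstance, f, hQ, fun v => (h0 v).symm⟩
  | succ n ih =>
    obtain ⟨Q', _, f', hQ', hf'⟩ := ih (fun i hi => hle i (by omega))
      (fun i hi => hfac i (by omega))
      (fun i hi => hconj i (by omega)) (fun i hi => hedge i (by omega))
    rcases hfac n (by omega) with h | ⟨m, hm, h⟩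
    · refine step hT hadj hC hE hS hQ' f' (M (n + 1)) ?_ ?_ (hconj n (by omega))
        (hedge n (by omega))
      · intro v
        rw [hf']
        exact hle n (by omega) v
      · intro v
        rw [hf']
        exact h v
    · refine step_fin hT hadj hC hE hS hQ' f' (M (n + 1)) ?_ m hm ?_ (hconj n (by omega))
        (hedge n (by omega))
      · intro v
        rw [hf']
        exact hle n (by omega) v
      · intro v
        rw [hf']
        exact h v

end Pool.Agent.Q152.TA
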