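import Pool.Agent.Q143.TR.Sign

/-!
# The kernel of the homomorphism to a semidirect product of a free group is generated by stabilizers
-/

set_option autoImplicit false
set_option linter.unusedSectionVars false

namespace Pool.Agent.Q152.TA

open Pool.Agent.Q143.TR Pool.Agent.Q105.FJ

section word

variable {V B : Type} {T : SimpleGraph V} (b : V → V → B)

/-- the word of a walk is reduced, or the walk has a backtracking of the labels -/
theorem word_or (h1 : ∀ x y, T.Adj x y → b x y ≠ b y x) {x y : V} (q : T.Walk x y) :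
    (∃ (u v w : V) (q1 : T.Walk x u) (_ : T.Adj u v) (_ : T.Adj v w) (q2 : T.Walk w y),
      q1.length + q2.length + 2 = q.length ∧ b v w = b v u) ∨
    (∃ L : List (B × Bool), wp (lt b) q = FreeGroup.mk L ∧ FreeGroup.IsReduced L ∧
      ((q.length = 0 ∧ L = []) ∨ ∃ (L' : List (B × Bool)) (z : V) (hz : T.Adj x z)
        (q' : T.Walk z y), q = SimpleGraph.Walk.cons hz q' ∧ L = L' ++ [(b x z, true)])) := by
  induction q with
  | nil => exact Or.inr ⟨[], rfl, FreeGroup.IsReduced.nil, Or.inl ⟨rfl, rfl⟩⟩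
  | @cons x y w h q ih =>
    rcases ih with ⟨u, v, w', q1, a1, a2, q2, hl, hb⟩ | ⟨L, hL, hLr, hL'⟩
    · left
      refine ⟨u, v, w', SimpleGraph.Walk.cons h q1, a1, a2, q2, ?_, hb⟩
      rw [SimpleGraph.Walk.length_cons, SimpleGraph.Walk.length_cons]
      omega
    · have e1 : wp (lt b) (SimpleGraph.Walk.cons h q) =
          FreeGroup.mk (L ++ [(b y x, false), (b x y, true)]) := by
        change wp (lt b) q * lt b x y = _
        rw [hL, ← FreeGroup.mul_mk]
        rfl
      rcases hL' with ⟨_, rfl⟩ | ⟨L', z, hz, q', hq, rfl⟩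
      · right
        refine ⟨_, e1, ?_, Or.inr ⟨[(b y x, false)], y, h, q, rfl, by simp⟩⟩
        rw [List.nil_append, FreeGroup.isReduced_cons_cons]
        exact ⟨fun h' => absurd h'.symm (h1 x y h), FreeGroup.IsReduced.singleton⟩
      · by_cases hb : b y z = b y x
        · left
          refine ⟨x, y, z, SimpleGraph.Walk.nil, h, hz, q', ?_, hb⟩
          rw [hq]
          simp only [SimpleGraph.Walk.length_nil, SimpleGraph.Walk.length_cons]
          omega
        · right
          refine ⟨_, e1, ?_, Or.inr ⟨L' ++ [(b y z, true)] ++ [(b y x, false)], y, h, q, rfl,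
            by simp⟩⟩
          refine FreeGroup.IsReduced.append_overlap hLr ?_ (List.cons_ne_nil _ _)
          rw [List.singleton_append, FreeGroup.isReduced_cons_cons,
            FreeGroup.isReduced_cons_cons]
          exact ⟨fun h' => absurd h' hb, fun h' => absurd h'.symm (h1 x y h),
            FreeGroup.IsReduced.singleton⟩

end word

section fold

variable {V Γ W : Type} [Group Γ] [Group W] [MulAction Γ V] (F : Γ →* W)
variable {T : SimpleGraph V} (hT : T.IsTree) (r : V)
  (hadj : ∀ (γ : Γ) x y, T.Adj x y → T.Adj (γ • x) (γ • y))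

theorem Fw_fix {ν : Γ} (h : F ν = 1) {v : V} (hv : ν • v = v) : Fw F hT r hadj ν = 1 := by
  have h1 := Jt_pot hT r (om F) hadj (fun x y _ => om_inv F x y) (co F) (co_mul F)
    (fun γ x y _ => om_co F γ x y) ν v
  rw [hv] at h1
  have h2 : co F ν v = 1 := by
    unfold co
    have h3 : F.rangeRestrict ν = 1 := Subtype.ext h
    rw [h3, map_one]
  rw [h2, mul_one] at h1
  exact mul_eq_right.1 h1

theorem pot_one {γ : Γ} (hF : F γ = 1) (h : Fw F hT r hadj γ = 1) :
    pot hT r (lt (pb F)) (γ • r) = 1 := by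
  rw [Fw_apply] at h
  have h1 : F.rangeRestrict γ = 1 := Subtype.ext hF
  rw [h1, map_one, mul_one] at h
  exact SemidirectProduct.inl_injective (h.trans (map_one _).symm)

include hT in
theorem pth_length_le {x : V} (q : T.Walk x r) : (pth hT r x).length ≤ q.length := by
  classical
  have h1 := pth_unique hT r q.bypass q.bypass_isPath
  rw [← h1]
  exact q.length_bypass_le_length

theorem fold_aux (he : ∀ (γ : Γ) (x y : V), T.Adj x y → F γ = 1 → γ • x = y → γ • y ≠ x)
    (n : ℕ) : ∀ γ : Γ, (pth hT r (γ • r)).length = n → Fw F hT r hadj γ = 1 →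
      γ ∈ Subgroup.closure {ν : Γ | F ν = 1 ∧ ∃ x : V, ν • x = x} := by
  induction n using Nat.strong_induction_on with
  | _ n ih =>
    intro γ hn hγ
    have hF := Fw_right F hT r hadj γ hγ
    have hp := pot_one F hT r hadj hF hγ
    have h1 : ∀ x y, T.Adj x y → pb F x y ≠ pb F y x := by
      intro x y hxy hb
      obtain ⟨m, hm, h4, h5⟩ := pb_eq F hb
      exact he m x y hxy hm h4 h5
    rcases word_or (pb F) h1 (pth hT r (γ • r)) with
      ⟨u, v, w, q1, a1, a2, q2, hl, hb⟩ | ⟨L, hL, hLr, hL'⟩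
    · obtain ⟨m, hm, h4, h5⟩ := pb_eq F hb
      have hν : F m⁻¹ = 1 := by rw [map_inv, hm, inv_one]
      have hνv : m⁻¹ • v = v := by rw [inv_smul_eq_iff]; exact h4.symm
      have hνu : m⁻¹ • u = w := by rw [inv_smul_eq_iff]; exact h5.symm
      let φ : T →g T := ⟨fun x => m⁻¹ • x, fun {x y} hxy => hadj _ x y hxy⟩
      have q1' : ∃ q : T.Walk ((m⁻¹ * γ) • r) w, q.length = q1.length := by
        refine ⟨(q1.map φ).copy (mul_smul _ _ _).symm hνu, ?_⟩
        rw [SimpleGraph.Walk.length_copy, SimpleGraph.Walk.length_map]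
      obtain ⟨q1', hq1'⟩ := q1'
      have h6 := pth_length_le hT r (q1'.append q2)
      rw [SimpleGraph.Walk.length_append, hq1'] at h6
      have h7 : Fw F hT r hadj (m⁻¹ * γ) = 1 := by
        rw [map_mul, hγ, mul_one]
        exact Fw_fix F hT r hadj hν hνv
      have h8 := ih _ (by omega) (m⁻¹ * γ) rfl h7
      have h9 : γ = m * (m⁻¹ * γ) := by rw [mul_inv_cancel_left]
      rw [h9]
      exact mul_mem (Subgroup.subset_closure ⟨hm, v, h4⟩) h8
    · have hp' : wp (lt (pb F)) (pth hT r (γ • r)) = 1 := hp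
      rw [hL, FreeGroup.one_eq_mk] at hp'
      obtain ⟨c, hc1, hc2⟩ := FreeGroup.Red.exact.1 hp'
      rw [FreeGroup.IsReduced.red_iff_eq hLr] at hc1
      rw [FreeGroup.IsReduced.red_iff_eq FreeGroup.IsReduced.nil] at hc2
      rw [hc2] at hc1
      rcases hL' with ⟨h0, _⟩ | ⟨L', z, _, _, _, hLL⟩
      · refine Subgroup.subset_closure ⟨hF, r, ?_⟩
        exact SimpleGraph.Walk.eq_of_length_eq_zero h0
      · rw [← hc1] at hLL
        exact absurd hLL.symm (by simp)

/-- the kernel is generated by the stabilizers of the vertices in the kernel of `F` -/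
theorem Fw_ker (he : ∀ (γ : Γ) (x y : V), T.Adj x y → F γ = 1 → γ • x = y → γ • y ≠ x)
    {γ : Γ} (h : Fw F hT r hadj γ = 1) :
    γ ∈ Subgroup.closure {ν : Γ | F ν = 1 ∧ ∃ x : V, ν • x = x} :=
  fold_aux F hT r hadj he _ γ rfl h

end fold

end Pool.Agent.Q152.TA
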