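import Pool.Agent.Q152.TA.Char
import Pool.Agent.Q143.TR.Coc
import Pool.Agent.Q143.TR.Tree

/-!
# A local system of characters on a tree

`K` acts on a tree, and `R v` is a normal subgroup of the stabilizer of the vertex `v` with commutative
quotient, compatible with the action and with the edges.  If `K` is generated by the stabilizers, then
there is a homomorphism from `K` to a commutative group whose kernel meets the stabilizer of `v` in `R v`.
-/

set_option autoImplicit false
set_option linter.unusedSectionVars false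

namespace Pool.Agent.Q152.TA

open Pool.Agent.Y462.SS Pool.Agent.Q143.TR
open scoped commutatorElement

variable {V K : Type} [Group K] [MulAction K V]

/-- compatible families of subgroups of the stabilizers -/
structure Fam (T : SimpleGraph V) (R : V → Subgroup K) : Prop where
  ab : ∀ v, commutator (MulAction.stabilizer K v) ≤ (R v).subgroupOf (MulAction.stabilizer K v)
  conj : ∀ (k : K) (v : V) (x : K), x ∈ R v → k * x * k⁻¹ ∈ R (k • v)
  edge : ∀ v w : V, T.Adj v w → ∀ x : K, x ∈ R v → x • w = w → x ∈ R w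

/-- the base -/
abbrev XX (K : Type) : Type := (K → MM) × ℕ

variable (R : V → Subgroup K)

/-- the characters -/
abbrev Ch (v : V) : Type :=
  {χ : MulAction.stabilizer K v →* MM // ∀ k : MulAction.stabilizer K v, (k : K) ∈ R v → χ k = 1}

theorem ch_equiv (v : V) : Nonempty (XX K ≃ Ch R v × XX K) := by
  classical
  refine Cardinal.eq.1 ?_
  rw [← Cardinal.mul_def (Ch R v) (XX K)]
  refine (Cardinal.mul_eq_right ?_ ?_ ?_).symm
  · exact Cardinal.aleph0_le_mk _
  · refine Cardinal.mk_le_of_injective (f := fun χ : Ch R v =>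
      ((fun g => if h : g ∈ MulAction.stabilizer K v then χ.1 ⟨g, h⟩ else 1, 0) : XX K)) ?_
    intro χ χ' h
    apply Subtype.ext
    ext g
    have h1 := congrFun (congrArg Prod.fst h) (g : K)
    simp only [SetLike.coe_mem, dif_pos] at h1
    exact h1
  · have : Nonempty (Ch R v) := ⟨⟨1, fun _ _ => rfl⟩⟩
    exact Cardinal.mk_ne_zero _

/-- the character at a point of the base -/
noncomputable def psi (v : V) (p : XX K) : Ch R v := ((ch_equiv R v).some p).1

/-- all characters occur often -/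
noncomputable def emb (v : V) (χ : Ch R v) (p : XX K) : XX K := (ch_equiv R v).some.symm (χ, p)

theorem psi_emb (v : V) (χ : Ch R v) (p : XX K) : psi R v (emb R v χ p) = χ := by
  unfold psi emb
  rw [Equiv.apply_symm_apply]

theorem emb_inj (v : V) (χ : Ch R v) : Function.Injective (emb R v χ) := by
  intro p p' h
  have h1 := (ch_equiv R v).some.symm.injective h
  exact congrArg Prod.snd h1

/-- conjugation to the representative -/
noncomputable def tr (x : V) : MulAction.stabilizer K x →* MulAction.stabilizer K (rp K x) :=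
  MonoidHom.mk' (fun s => ⟨(sx K x)⁻¹ * s * sx K x, by
    rw [MulAction.mem_stabilizer_iff, mul_smul, mul_smul, sx_spec, inv_smul_eq_iff, sx_spec]
    exact s.2⟩) (by
    intro a b
    apply Subtype.ext
    simp only [Subgroup.coe_mul]
    group)

/-- conjugation from the representative -/
noncomputable def trInv (x : V) : MulAction.stabilizer K (rp K x) →* MulAction.stabilizer K x :=
  MonoidHom.mk' (fun s => ⟨sx K x * s * (sx K x)⁻¹, by
    have h1 : (sx K x)⁻¹ • x = rp K x := by
      rw [inv_smul_eq_iff, sx_spec]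
    have h2 : (s : K) • rp K x = rp K x := s.2
    rw [MulAction.mem_stabilizer_iff, mul_smul, mul_smul, h1, h2, sx_spec]⟩) (by
    intro a b
    apply Subtype.ext
    simp only [Subgroup.coe_mul]
    group)

theorem trInv_tr (x : V) (s : MulAction.stabilizer K x) : trInv x (tr x s) = s := by
  apply Subtype.ext
  change sx K x * ((sx K x)⁻¹ * s * sx K x) * (sx K x)⁻¹ = s
  group

open Classical in
/-- the label -/
noncomputable def lab (v : V) (p : XX K) (g : K) : MM :=
  if h : g ∈ MulAction.stabilizer K v then (psi R v p).1 ⟨g, h⟩ else 1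

theorem lab_mul (v : V) (p : XX K) {g g' : K} (h : g ∈ MulAction.stabilizer K v)
    (h' : g' ∈ MulAction.stabilizer K v) : lab R v p (g * g') = lab R v p g * lab R v p g' := by
  unfold lab
  rw [dif_pos h, dif_pos h', dif_pos (mul_mem h h'), ← map_mul]
  rfl

theorem lab_tr (x : V) (p : XX K) (s : MulAction.stabilizer K x) :
    lab R (rp K x) p ((sx K x)⁻¹ * s * sx K x) = (psi R (rp K x) p).1 (tr x s) := by
  unfold lab
  have h : (sx K x)⁻¹ * s * sx K x ∈ MulAction.stabilizer K (rp K x) := (tr x s).2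
  rw [dif_pos h]
  rfl

/-- the cocycle -/
noncomputable def lc (k : K) (x : V) : Wr (XX K) MM :=
  ⟨fun p => lab R (rp K x) p ((sx K (k • x))⁻¹ * k * sx K x), 1⟩

theorem lc_mul (k k' : K) (x : V) : lc R (k * k') x = lc R k (k' • x) * lc R k' x := by
  refine Wr.ext (funext fun p => ?_) ?_
  · rw [Wr.mul_s]
    change lab _ _ _ _ = lab _ _ _ _ * lab _ _ _ _
    have h1 := cc_mem k (k' • x)
    rw [rp_smul] at h1 ⊢
    change lab _ _ _ _ = lab _ _ p _ * lab _ _ _ _
    rw [← lab_mul _ _ _ h1 (cc_mem k' x)]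
    congr 1
    rw [mul_smul]
    group
  · rfl

theorem lc_fix {s : K} {x : V} (h : s • x = x) (p : XX K) :
    (lc R s x).s p = (psi R (rp K x) p).1 (tr x ⟨s, h⟩) := by
  rw [← lab_tr]
  change lab _ _ _ ((sx K (s • x))⁻¹ * s * sx K x) = _
  rw [h]

/-- the restricted character -/
noncomputable def res (x : V) (B : Subgroup K) (hB : B ≤ MulAction.stabilizer K x) (p : XX K) :
    B →* MM :=
  (psi R (rp K x) p).1.comp ((tr x).comp (Subgroup.inclusion hB))

variable {R} {T : SimpleGraph V} (hR : Fam T R)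

include hR in
theorem tr_mem (x : V) {s : MulAction.stabilizer K x} (h : (s : K) ∈ R x) :
    ((tr x s : MulAction.stabilizer K (rp K x)) : K) ∈ R (rp K x) := by
  have h1 := hR.conj (sx K x)⁻¹ x s h
  have h2 : (sx K x)⁻¹ • x = rp K x := by rw [inv_smul_eq_iff, sx_spec]
  rw [h2, inv_inv] at h1
  exact h1

include hR in
theorem trInv_mem (x : V) {s : MulAction.stabilizer K (rp K x)} (h : (s : K) ∈ R (rp K x)) :
    ((trInv x s : MulAction.stabilizer K x) : K) ∈ R x := by
  have h1 := hR.conj (sx K x) (rp K x) s h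
  rw [sx_spec] at h1
  exact h1

include hR in
theorem res_kill (x : V) (B : Subgroup K) (hB : B ≤ MulAction.stabilizer K x) (p : XX K) (b : B)
    (hb : (b : K) ∈ R x) : res R x B hB p b = 1 :=
  (psi R (rp K x) p).2 _ (tr_mem hR x hb)

include hR in
theorem fiber (x : V) (B : Subgroup K) (hB : B ≤ MulAction.stabilizer K x) (η : B →* MM)
    (hη : ∀ b : B, (b : K) ∈ R x → η b = 1) :
    Nonempty ({p // res R x B hB p = η} ≃ XX K) := by
  obtain ⟨χ, hχR, hχ⟩ := ext_char (hR.ab x) (Subgroup.inclusion hB) η (fun b hb => hη b hb)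
  have hk : ∀ k : MulAction.stabilizer K (rp K x), (k : K) ∈ R (rp K x) →
      χ.comp (trInv x) k = 1 := fun k hk => hχR _ (trInv_mem hR x hk)
  have key : ∀ p, res R x B hB (emb R (rp K x) ⟨χ.comp (trInv x), hk⟩ p) = η := by
    intro p
    unfold res
    rw [psi_emb, ← hχ]
    ext b
    change χ (trInv x (tr x (Subgroup.inclusion hB b))) = χ (Subgroup.inclusion hB b)
    rw [trInv_tr]
  exact Function.Embedding.antisymm ⟨Subtype.val, Subtype.val_injective⟩
    ⟨fun p => ⟨emb R (rp K x) ⟨χ.comp (trInv x), hk⟩ p, key p⟩, fun p p' h =>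
      emb_inj R _ _ (congrArg Subtype.val h)⟩

include hR in
theorem match_ex (x y : V) (hxy : T.Adj x y) :
    ∃ π : Equiv.Perm (XX K), ∀ s : K, s • x = x → s • y = y →
      lc R s y * (⟨1, π⟩ : Wr (XX K) MM) = ⟨1, π⟩ * lc R s x := by
  classical
  set B : Subgroup K := MulAction.stabilizer K x ⊓ MulAction.stabilizer K y with hBdef
  have hBx : B ≤ MulAction.stabilizer K x := inf_le_left
  have hBy : B ≤ MulAction.stabilizer K y := inf_le_right
  have hiff : ∀ b : B, (b : K) ∈ R x ↔ (b : K) ∈ R y := fun b =>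
    ⟨fun h => hR.edge x y hxy b h (hBy b.2), fun h => hR.edge y x hxy.symm b h (hBx b.2)⟩
  have ex : ∀ η : B →* MM,
      Nonempty ({p // res R x B hBx p = η} ≃ {p // res R y B hBy p = η}) := by
    intro η
    by_cases hη : ∀ b : B, (b : K) ∈ R x → η b = 1
    · have hη' : ∀ b : B, (b : K) ∈ R y → η b = 1 := fun b hb => hη b ((hiff b).2 hb)
      exact ⟨(fiber hR x B hBx η hη).some.trans (fiber hR y B hBy η hη').some.symm⟩
    · have e1 : IsEmpty {p // res R x B hBx p = η} := by
        refine ⟨fun p => hη (fun b hb => ?_)⟩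
        rw [← p.2]
        exact res_kill hR x B hBx p.1 b hb
      have e2 : IsEmpty {p // res R y B hBy p = η} := by
        refine ⟨fun p => hη (fun b hb => ?_)⟩
        rw [← p.2]
        exact res_kill hR y B hBy p.1 b ((hiff b).1 hb)
      exact ⟨Equiv.equivOfIsEmpty _ _⟩
  let e : ∀ η : B →* MM, {p // res R x B hBx p = η} ≃ {p // res R y B hBy p = η} :=
    fun η => (ex η).some
  refine ⟨Equiv.ofFiberEquiv e, ?_⟩
  intro s hsx hsy
  refine Wr.ext (funext fun p => ?_) ?_
  · rw [Wr.mul_s, Wr.mul_s]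
    change (lc R s y).s (Equiv.ofFiberEquiv e p) * 1 = 1 * (lc R s x).s p
    rw [mul_one, one_mul, lc_fix R hsx, lc_fix R hsy]
    have h1 := Equiv.ofFiberEquiv_map e p
    exact DFunLike.congr_fun h1 ⟨s, hsx, hsy⟩
  · rfl

variable (R) in
open Classical in
/-- the permutation over an edge -/
noncomputable def wPi (q : V × V) : Wr (XX K) MM :=
  if h : ∃ π : Equiv.Perm (XX K), ∀ s : K, s • q.1 = q.1 → s • q.2 = q.2 →
      lc R s q.2 * (⟨1, π⟩ : Wr (XX K) MM) = ⟨1, π⟩ * lc R s q.1 then ⟨1, h.choose⟩ else 1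

include hR in
theorem wPi_spec (q : V × V) (hq : T.Adj q.1 q.2)
    (s : K) (h1 : s • q.1 = q.1) (h2 : s • q.2 = q.2) :
    lc R s q.2 * wPi R q = wPi R q * lc R s q.1 := by
  have h := match_ex hR q.1 q.2 hq
  unfold wPi
  rw [dif_pos h]
  exact h.choose_spec s h1 h2

variable (R) in
/-- the transport along a directed edge -/
noncomputable def wd (e : V × V) : Wr (XX K) MM :=
  lc R (sx K e) (rp K e).2 * wPi R (rp K e) * (lc R (sx K e) (rp K e).1)⁻¹

include hR in
theorem wd_eq (e : V × V) (he : T.Adj (rp K e).1 (rp K e).2) (k : K) :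
    wd R (k • e) * lc R k e.1 = lc R k e.2 * wd R e := by
  have hq : rp K (k • e) = rp K e := rp_smul k e
  have ht : sx K e • rp K e = e := sx_spec e
  have ht' : sx K (k • e) • rp K e = k • e := by
    have := sx_spec (Γ := K) (k • e)
    rwa [hq] at this
  unfold wd
  rw [hq]
  generalize rp K e = q at *
  generalize sx K e = t at *
  generalize sx K (k • e) = t' at *
  have hs : (t'⁻¹ * k * t) • q = q := by
    rw [mul_smul, mul_smul, ht, inv_smul_eq_iff, ht']
  have hs1 : (t'⁻¹ * k * t) • q.1 = q.1 := congrArg Prod.fst hs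
  have hs2 : (t'⁻¹ * k * t) • q.2 = q.2 := congrArg Prod.snd hs
  have ht1 : t • q.1 = e.1 := congrArg Prod.fst ht
  have ht2 : t • q.2 = e.2 := congrArg Prod.snd ht
  have hk : k * t = t' * (t'⁻¹ * k * t) := by group
  have c1 : lc R k e.1 * lc R t q.1 = lc R t' q.1 * lc R (t'⁻¹ * k * t) q.1 := by
    have h1 := lc_mul R k t q.1
    have h2 := lc_mul R t' (t'⁻¹ * k * t) q.1
    rw [ht1] at h1
    rw [hs1, ← hk] at h2
    rw [← h1, ← h2]
  have c2 : lc R k e.2 * lc R t q.2 = lc R t' q.2 * lc R (t'⁻¹ * k * t) q.2 := by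
    have h1 := lc_mul R k t q.2
    have h2 := lc_mul R t' (t'⁻¹ * k * t) q.2
    rw [ht2] at h1
    rw [hs2, ← hk] at h2
    rw [← h1, ← h2]
  have c3 := wPi_spec hR q he _ hs1 hs2
  have c1' : (lc R t' q.1)⁻¹ * lc R k e.1 = lc R (t'⁻¹ * k * t) q.1 * (lc R t q.1)⁻¹ := by
    rw [eq_mul_inv_iff_mul_eq, mul_assoc, c1, inv_mul_cancel_left]
  calc lc R t' q.2 * wPi R q * (lc R t' q.1)⁻¹ * lc R k e.1
      = lc R t' q.2 * (wPi R q * ((lc R t' q.1)⁻¹ * lc R k e.1)) := by group
    _ = lc R t' q.2 * (wPi R q * lc R (t'⁻¹ * k * t) q.1 * (lc R t q.1)⁻¹) := by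
        rw [c1', mul_assoc (wPi R q)]
    _ = lc R t' q.2 * lc R (t'⁻¹ * k * t) q.2 * wPi R q * (lc R t q.1)⁻¹ := by
        rw [← c3]; group
    _ = lc R k e.2 * (lc R t q.2 * wPi R q * (lc R t q.1)⁻¹) := by
        rw [← c2]; group

section tree

variable (hT : T.IsTree) (r : V)
  (hadj : ∀ (γ : K) x y, T.Adj x y → T.Adj (γ • x) (γ • y))
  (ε : V → ℤˣ) (hε : ∀ (k : K) x, ε (k • x) = ε x) (hεa : ∀ x y, T.Adj x y → ε x ≠ ε y)

variable (R) in
/-- the transport -/
noncomputable def om' (x y : V) : Wr (XX K) MM :=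
  if ε x = 1 then wd R (x, y) else (wd R (y, x))⁻¹

include hεa in
theorem om'_inv (x y : V) (h : T.Adj x y) : om' R ε y x = (om' R ε x y)⁻¹ := by
  unfold om'
  have h1 := hεa x y h
  by_cases hx : ε x = 1
  · have hy : ε y ≠ 1 := fun hy => h1 (hx.trans hy.symm)
    rw [if_pos hx, if_neg hy]
  · have hy : ε y = 1 := by
      rcases Int.units_eq_one_or (ε x) with h2 | h2
      · exact absurd h2 hx
      · rcases Int.units_eq_one_or (ε y) with h3 | h3
        · exact h3
        · exact absurd (h2.trans h3.symm) h1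
    rw [if_neg hx, if_pos hy, inv_inv]

include hR hadj hε in
theorem om'_lc (k : K) (x y : V) (h : T.Adj x y) :
    om' R ε (k • x) (k • y) * lc R k x = lc R k y * om' R ε x y := by
  have key : ∀ x y : V, T.Adj x y →
      wd R (k • x, k • y) * lc R k x = lc R k y * wd R (x, y) := by
    intro x y hxy
    have h1 : T.Adj (rp K (x, y)).1 (rp K (x, y)).2 := by
      have h2 := sx_spec (Γ := K) (x, y)
      have h3 := hadj (sx K (x, y))⁻¹ x y hxy
      have h4 : (sx K (x, y))⁻¹ • x = (rp K (x, y)).1 := by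
        rw [inv_smul_eq_iff]
        exact (congrArg Prod.fst h2).symm
      have h5 : (sx K (x, y))⁻¹ • y = (rp K (x, y)).2 := by
        rw [inv_smul_eq_iff]
        exact (congrArg Prod.snd h2).symm
      rwa [h4, h5] at h3
    exact wd_eq hR (x, y) h1 k
  unfold om'
  rw [hε]
  by_cases hx : ε x = 1
  · rw [if_pos hx, if_pos hx]
    exact key x y h
  · rw [if_neg hx, if_neg hx]
    have h1 := key y x h.symm
    rw [inv_mul_eq_iff_eq_mul, ← mul_assoc, h1, mul_inv_cancel_right]

/-- the homomorphism -/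
noncomputable def JJ : K →* Wr (XX K) MM :=
  Jt hT r (om' R ε) hadj (fun x y h => om'_inv ε hεa x y h) (lc R) (lc_mul R)
    (fun γ x y h => om'_lc hR hadj ε hε γ x y h)

theorem JJ_pot (k : K) (x : V) : JJ hR hT r hadj ε hε hεa k * pot hT r (om' R ε) x =
    pot hT r (om' R ε) (k • x) * lc R k x :=
  Jt_pot hT r (om' R ε) hadj (fun x y h => om'_inv ε hεa x y h) (lc R) (lc_mul R)
    (fun γ x y h => om'_lc hR hadj ε hε γ x y h) k x

/-- the permutation part -/
def pHom (X M : Type) [Group M] : Wr X M →* Equiv.Perm X where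
  toFun a := a.p
  map_one' := rfl
  map_mul' _ _ := rfl

theorem JJ_p (hgen : Subgroup.closure {k : K | ∃ x : V, k • x = x} = ⊤) (k : K) :
    (JJ hR hT r hadj ε hε hεa k).p = 1 := by
  have h1 : k ∈ ((pHom (XX K) MM).comp (JJ hR hT r hadj ε hε hεa)).ker := by
    have h2 : Subgroup.closure {k : K | ∃ x : V, k • x = x} ≤
        ((pHom (XX K) MM).comp (JJ hR hT r hadj ε hε hεa)).ker := by
      rw [Subgroup.closure_le]
      rintro s ⟨x, hs⟩
      have h3 := JJ_pot hR hT r hadj ε hε hεa s x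
      rw [hs] at h3
      have h4 := congrArg (pHom (XX K) MM) h3
      rw [map_mul, map_mul] at h4
      have h5 : pHom (XX K) MM (lc R s x) = 1 := rfl
      rw [h5, mul_one] at h4
      exact mul_eq_right.1 h4
    rw [hgen] at h2
    exact h2 trivial
  exact h1

theorem JJ_comm (hgen : Subgroup.closure {k : K | ∃ x : V, k • x = x} = ⊤) :
    commutator K ≤ (JJ hR hT r hadj ε hε hεa).ker := by
  rw [commutator_def, Subgroup.commutator_le]
  intro a _ b _
  rw [MonoidHom.mem_ker, map_commutatorElement, commutatorElement_eq_one_iff_mul_comm]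
  refine Wr.ext (funext fun p => ?_) ?_
  · rw [Wr.mul_s, Wr.mul_s, JJ_p hR hT r hadj ε hε hεa hgen a,
      JJ_p hR hT r hadj ε hε hεa hgen b]
    exact mul_comm (_ : MM) _
  · rw [Wr.mul_p, Wr.mul_p, JJ_p hR hT r hadj ε hε hεa hgen a,
      JJ_p hR hT r hadj ε hε hεa hgen b]

theorem JJ_R {k : K} {x : V} (hx : k • x = x) (h : k ∈ R x) :
    JJ hR hT r hadj ε hε hεa k = 1 := by
  have h1 := JJ_pot hR hT r hadj ε hε hεa k x
  rw [hx] at h1
  have h2 : lc R k x = 1 := by
    refine Wr.ext (funext fun p => ?_) rfl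
    rw [lc_fix R hx]
    exact (psi R (rp K x) p).2 _ (tr_mem hR x h)
  rw [h2, mul_one] at h1
  exact mul_eq_right.1 h1

theorem R_of_JJ {k : K} {x : V} (hx : k • x = x) (h : JJ hR hT r hadj ε hε hεa k = 1) :
    k ∈ R x := by
  have h1 := JJ_pot hR hT r hadj ε hε hεa k x
  rw [h, hx, one_mul] at h1
  have h2 : lc R k x = 1 := left_eq_mul.1 h1
  have h3 : (⟨k, hx⟩ : MulAction.stabilizer K x) ∈
      (R x).subgroupOf (MulAction.stabilizer K x) := by
    apply sep_char (hR.ab x)
    intro χ hχ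
    have hk : ∀ k : MulAction.stabilizer K (rp K x), (k : K) ∈ R (rp K x) →
      χ.comp (trInv x) k = 1 := fun k hk => hχ _ (trInv_mem hR x hk)
    have h4 := lc_fix R hx (emb R (rp K x) ⟨χ.comp (trInv x), hk⟩ (fun _ => 1, 0))
    rw [h2, psi_emb] at h4
    change 1 = χ (trInv x (tr x _)) at h4
    rw [trInv_tr] at h4
    exact h4.symm
  exact h3

include hR hT hadj hε hεa in
/-- **The homomorphism to a commutative group.** -/
theorem exists_char (hgen : Subgroup.closure {k : K | ∃ x : V, k • x = x} = ⊤) :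
    ∃ J : K →* Wr (XX K) MM, commutator K ≤ J.ker ∧
      ∀ (k : K) (x : V), k • x = x → (J k = 1 ↔ k ∈ R x) := by
  obtain ⟨r⟩ := hT.connected.nonempty
  exact ⟨JJ hR hT r hadj ε hε hεa, JJ_comm hR hT r hadj ε hε hεa hgen,
    fun k x hx => ⟨R_of_JJ hR hT r hadj ε hε hεa hx, JJ_R hR hT r hadj ε hε hεa hx⟩⟩

end tree

end Pool.Agent.Q152.TA
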