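import Pool.Agent.Q152.TA.Loc
import Pool.Agent.Q152.TA.Fold

/-!
# Groups acting on trees with compatible series in the vertex stabilizers
-/

set_option autoImplicit false
set_option linter.unusedSectionVars false

namespace Pool.Agent.Q152.TA

open Pool.Agent.Y462.SS Pool.Agent.Q152.WP Pool.Agent.Q143.TR Pool.Agent.Q105.FJ
open scoped commutatorElement

variable {C : ∀ (G : Type) [Group G], Prop}

/-- extensions with abelian kernel -/
theorem abelian_ext (hE : ExtClosed C) (hS : ∀ (G : Type) [Group G], Group.IsSolvable G → C G)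
    {G Q : Type} [Group G] [Group Q] (g : G →* Q) (hg : Function.Surjective g) (hQ : C Q)
    (hab : ∀ a b : G, g a = 1 → g b = 1 → a * b = b * a) : C G := by
  have hker : Group.IsSolvable g.ker :=
    Group.isSolvable_of_comm (fun a b => Subtype.ext (hab a b a.2 b.2))
  refine hE G Q g hg hQ (hS _ hker) ?_
  intro q _
  refine hS _ ?_
  let P : Subgroup G := (Subgroup.zpowers q).comap g
  let u : P →* Subgroup.zpowers q :=
    (g.comp P.subtype).codRestrict (Subgroup.zpowers q) (fun x => x.2)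
  have h1 : Group.IsSolvable u.ker := by
    refine Group.isSolvable_of_comm (fun a b => Subtype.ext (Subtype.ext ?_))
    exact hab _ _ (congrArg Subtype.val a.2) (congrArg Subtype.val b.2)
  have h2 : Group.IsSolvable (Subgroup.zpowers q) := Group.isSolvable_of_comm (fun a b => by
    obtain ⟨a, m, rfl⟩ := a
    obtain ⟨b, n, rfl⟩ := b
    apply Subtype.ext
    change q ^ m * q ^ n = q ^ n * q ^ m
    rw [← zpow_add, ← zpow_add, add_comm])
  have := h1
  have := h2
  exact Group.isSolvable_of_ker_le_range u.ker.subtype u (by rw [Subgroup.range_subtype])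

variable {V Γ : Type} [Group Γ] [MulAction Γ V] {T : SimpleGraph V}

/-- **One step.** -/
theorem step (hT : T.IsTree) (hadj : ∀ (γ : Γ) (x y : V), T.Adj x y → T.Adj (γ • x) (γ • y))
    (hC : Closed C) (hE : ExtClosed C) (hS : ∀ (G : Type) [Group G], Group.IsSolvable G → C G)
    {Q : Type} [Group Q] (hQ : C Q) (f : Γ →* Q) (R : V → Subgroup Γ)
    (hle : ∀ v, R v ≤ f.ker ⊓ MulAction.stabilizer Γ v)
    (hab : ∀ v, ⁅f.ker ⊓ MulAction.stabilizer Γ v, f.ker ⊓ MulAction.stabilizer Γ v⁆ ≤ R v)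
    (hconj : ∀ (γ : Γ) (v : V) (x : Γ), x ∈ R v → γ * x * γ⁻¹ ∈ R (γ • v))
    (hedge : ∀ v w : V, T.Adj v w → ∀ x : Γ, x ∈ R v → x • w = w → x ∈ R w) :
    ∃ (Q' : Type) (_ : Group Q') (f' : Γ →* Q'), C Q' ∧
      ∀ v, f'.ker ⊓ MulAction.stabilizer Γ v = R v := by
  obtain ⟨r⟩ := hT.connected.nonempty
  set F : Γ →* Q × ℤˣ := f.prod (sgn hT r hadj) with hFdef
  have hW : C (Q × ℤˣ) := hC.prod _ _ hQ (Pool.Agent.Y812.SS.C_finite hC ℤˣ)
  have he : ∀ (γ : Γ) (x y : V), T.Adj x y → F γ = 1 → γ • x = y → γ • y ≠ x := by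
    intro γ x y h hF hx _
    have h1 : sgn hT r hadj γ = 1 := congrArg Prod.snd hF
    rw [sgn_inv hT r hadj γ h hx] at h1
    exact absurd h1 (by decide)
  set μ := Fw F hT r hadj with hμ
  set K : Subgroup Γ := μ.ker with hK
  have hKF : ∀ k ∈ K, F k = 1 := fun k hk => Fw_right F hT r hadj k hk
  have hKf : ∀ k ∈ K, f k = 1 := fun k hk => congrArg Prod.fst (hKF k hk)
  have hGK : C (Γ ⧸ K) := hC.of_injective _ _ (QuotientGroup.kerLift μ)
    (QuotientGroup.kerLift_injective μ) (ww_mem hC hE _ _ (of_sub hC _ hW))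
  -- the sign function
  let ε : V → ℤˣ := pot hT r (fun _ _ => (-1 : ℤˣ))
  have hεF : ∀ (k : Γ) (x : V), sgn hT r hadj k * ε x = ε (k • x) := by
    intro k x
    have h1 : sgn hT r hadj k * pot hT r (fun _ _ => (-1 : ℤˣ)) x =
        pot hT r (fun _ _ => (-1 : ℤˣ)) (k • x) * 1 :=
      Jt_pot hT r (fun _ _ => (-1 : ℤˣ)) hadj (fun _ _ _ => by simp) (fun _ _ => 1)
        (fun (_ _ : Γ) _ => by simp) (fun _ _ _ _ => by simp) k x
    rw [mul_one] at h1
    exact h1
  have hε : ∀ (k : K) (x : V), ε (k • x) = ε x := by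
    intro k x
    have h1 := hεF (k : Γ) x
    have h2 : sgn hT r hadj (k : Γ) = 1 := congrArg Prod.snd (hKF k k.2)
    rw [h2, one_mul] at h1
    exact h1.symm
  have hεa : ∀ x y, T.Adj x y → ε x ≠ ε y := by
    intro x y h h1
    have h2 : ε x = ε y * (-1) := pot_adj hT r (fun _ _ => (-1 : ℤˣ)) (fun _ _ _ => by simp) h
    rw [h1] at h2
    have h3 : (-1 : ℤˣ) = 1 := left_eq_mul.1 h2
    exact absurd h3 (by decide)
  -- the stabilizers
  have hKv : ∀ (γ : Γ) (v : V), γ • v = v → f γ = 1 → γ ∈ K := by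
    intro γ v hv hf
    have h1 := hεF γ v
    rw [hv] at h1
    have h2 : sgn hT r hadj γ = 1 := mul_eq_right.1 h1
    exact Fw_fix F hT r hadj (Prod.ext hf h2) hv
  -- generation by stabilizers
  have hgen : Subgroup.closure {k : K | ∃ x : V, k • x = x} = ⊤ := by
    rw [eq_top_iff]
    rintro ⟨k, hk⟩ _
    have h1 : k ∈ Subgroup.closure {ν : Γ | F ν = 1 ∧ ∃ x : V, ν • x = x} :=
      Fw_ker F hT r hadj he hk
    have h2 : {ν : Γ | F ν = 1 ∧ ∃ x : V, ν • x = x} ⊆
        ((Subgroup.closure {k : K | ∃ x : V, k • x = x}).map K.subtype : Subgroup Γ) := by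
      rintro ν ⟨hν, x, hx⟩
      have h3 : ν ∈ K := Fw_fix F hT r hadj hν hx
      exact ⟨⟨ν, h3⟩, Subgroup.subset_closure ⟨x, hx⟩, rfl⟩
    have h3 := (Subgroup.closure_le _).2 h2 h1
    obtain ⟨k', hk', h4⟩ := h3
    have h5 : k' = ⟨k, hk⟩ := Subtype.ext h4
    rwa [← h5]
  -- the family
  have hfam : Fam (K := K) T (fun v => (R v).subgroupOf K) := by
    refine ⟨?_, ?_, ?_⟩
    · intro v s hs
      let i : MulAction.stabilizer K v →* Γ := K.subtype.comp (Subgroup.subtype _)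
      have h1 : i s ∈ (commutator (MulAction.stabilizer K v)).map i := ⟨s, hs, rfl⟩
      rw [commutator_def, Subgroup.map_commutator] at h1
      have h2 : (⊤ : Subgroup (MulAction.stabilizer K v)).map i ≤
          f.ker ⊓ MulAction.stabilizer Γ v := by
        rintro _ ⟨t, _, rfl⟩
        exact ⟨hKf _ t.1.2, t.2⟩
      exact hab v (Subgroup.commutator_mono h2 h2 h1)
    · intro k v x hx
      exact hconj k v x hx
    · intro v w h x hx hxw
      exact hedge v w h x hx hxw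
  have hKadj : ∀ (γ : K) x y, T.Adj x y → T.Adj (γ • x) (γ • y) := fun γ x y h => hadj γ x y h
  obtain ⟨J, hJ, hJR⟩ := exists_char hfam hT hKadj ε hε hεa hgen
  -- the normal subgroup
  set S : Set Γ := {x | ∃ v, x ∈ R v} with hS'
  set E : Subgroup Γ := Subgroup.closure S with hEdef
  have hEn : E.Normal := by
    refine ⟨fun n hn g => ?_⟩
    have h1 : E.map (MulAut.conj g).toMonoidHom ≤ E := by
      rw [hEdef, MonoidHom.map_closure]
      rw [Subgroup.closure_le]
      rintro _ ⟨x, ⟨v, hx⟩, rfl⟩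
      exact Subgroup.subset_closure ⟨g • v, hconj g v x hx⟩
    exact h1 ⟨n, hn, rfl⟩
  have hEK : E ≤ K := by
    rw [hEdef, Subgroup.closure_le]
    rintro x ⟨v, hx⟩
    exact hKv x v (hle v hx).2 (hle v hx).1
  set D : Subgroup Γ := ⁅K, K⁆ ⊔ E with hD
  have hDn : D.Normal := by
    rw [hD]
    infer_instance
  have hDK : D ≤ K := sup_le (Subgroup.commutator_le_left K K) hEK
  have hDJ : D.subgroupOf K ≤ J.ker := by
    have h1 : D ≤ J.ker.map K.subtype := by
      refine sup_le ?_ ?_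
      · have h2 : ⁅K, K⁆ = (commutator K).map K.subtype := by
          rw [commutator_def, Subgroup.map_commutator, ← MonoidHom.range_eq_map,
            Subgroup.range_subtype]
        rw [h2]
        exact Subgroup.map_mono hJ
      · rw [hEdef, Subgroup.closure_le]
        rintro x ⟨v, hx⟩
        have h2 : x ∈ K := hEK (Subgroup.subset_closure ⟨v, hx⟩)
        exact ⟨⟨x, h2⟩, (hJR ⟨x, h2⟩ v (hle v hx).2).2 hx, rfl⟩
    intro k hk
    obtain ⟨k', hk', h3⟩ := h1 hk
    have h4 : k' = k := Subtype.ext h3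
    rwa [← h4]
  have hGD : C (Γ ⧸ D) := by
    let g : Γ ⧸ D →* Γ ⧸ K := QuotientGroup.map D K (MonoidHom.id Γ) (fun x hx => hDK hx)
    have hg : Function.Surjective g := by
      intro q
      obtain ⟨γ, rfl⟩ := QuotientGroup.mk_surjective q
      exact ⟨(γ : Γ ⧸ D), rfl⟩
    refine abelian_ext hE hS g hg hGK ?_
    intro a b ha hb
    obtain ⟨a, rfl⟩ := QuotientGroup.mk_surjective a
    obtain ⟨b, rfl⟩ := QuotientGroup.mk_surjective b
    have ha' : a ∈ K := (QuotientGroup.eq_one_iff a).1 ha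
    have hb' : b ∈ K := (QuotientGroup.eq_one_iff b).1 hb
    rw [← commutatorElement_eq_one_iff_mul_comm]
    change ((⁅a, b⁆ : Γ) : Γ ⧸ D) = 1
    rw [QuotientGroup.eq_one_iff]
    exact le_sup_left (a := ⁅K, K⁆) (Subgroup.commutator_mem_commutator ha' hb')
  refine ⟨Γ ⧸ D, inferInstance, QuotientGroup.mk' D, hGD, fun v => ?_⟩
  rw [QuotientGroup.ker_mk']
  apply le_antisymm
  · rintro γ ⟨hγD, hγv⟩
    have h1 : J ⟨γ, hDK hγD⟩ = 1 := hDJ (show (⟨γ, hDK hγD⟩ : K) ∈ D.subgroupOf K from hγD)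
    exact (hJR ⟨γ, hDK hγD⟩ v hγv).1 h1
  · intro γ hγ
    exact ⟨le_sup_right (a := ⁅K, K⁆) (Subgroup.subset_closure ⟨v, hγ⟩), (hle v hγ).2⟩

/-- **Compatible series of finite length.** -/
theorem series (hT : T.IsTree) (hadj : ∀ (γ : Γ) (x y : V), T.Adj x y → T.Adj (γ • x) (γ • y))
    (hC : Closed C) (hE : ExtClosed C) (hS : ∀ (G : Type) [Group G], Group.IsSolvable G → C G)
    {Q : Type} [Group Q] (hQ : C Q) (f : Γ →* Q) (M : ℕ → V → Subgroup Γ) (n : ℕ)
    (h0 : ∀ v, M 0 v = f.ker ⊓ MulAction.stabilizer Γ v)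
    (hle : ∀ i < n, ∀ v, M (i + 1) v ≤ M i v)
    (hab : ∀ i < n, ∀ v, ⁅M i v, M i v⁆ ≤ M (i + 1) v)
    (hconj : ∀ i < n, ∀ (γ : Γ) (v : V) (x : Γ), x ∈ M (i + 1) v → γ * x * γ⁻¹ ∈ M (i + 1) (γ • v))
    (hedge : ∀ i < n, ∀ v w : V, T.Adj v w → ∀ x : Γ, x ∈ M (i + 1) v → x • w = w →
      x ∈ M (i + 1) w) :
    ∃ (Q' : Type) (_ : Group Q') (f' : Γ →* Q'), C Q' ∧
      ∀ v, f'.ker ⊓ MulAction.stabilizer Γ v = M n v := by
  induction n with
  | zero => exact ⟨Q, inferInstance, f, hQ, fun v => (h0 v).symm⟩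
  | succ n ih =>
    obtain ⟨Q', _, f', hQ', hf'⟩ := ih (fun i hi => hle i (by omega)) (fun i hi => hab i (by omega))
      (fun i hi => hconj i (by omega)) (fun i hi => hedge i (by omega))
    refine step hT hadj hC hE hS hQ' f' (M (n + 1)) ?_ ?_ (hconj n (by omega))
      (hedge n (by omega))
    · intro v
      rw [hf']
      exact hle n (by omega) v
    · intro v
      rw [hf']
      exact hab n (by omega) v

end Pool.Agent.Q152.TA
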