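import Pool.Agent.Q152.TA.Big
import Mathlib.GroupTheory.Transfer

/-!
# Virtual characters and groups of finite Hirsch length
-/

set_option autoImplicit false
set_option linter.unusedSectionVars false
set_option linter.style.haveILetI false

namespace Pool.Agent.Q152.TA

variable {Γ : Type} [Group Γ]

/-- `χ` is additive on the subgroup `H`. -/
def AddOn (H : Subgroup Γ) (χ : Γ → ℚ) : Prop := ∀ a ∈ H, ∀ b ∈ H, χ (a * b) = χ a + χ b

section basic

variable {H N L : Subgroup Γ} {χ : Γ → ℚ}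

theorem AddOn.one (h : AddOn H χ) : χ 1 = 0 := by
  have := h 1 H.one_mem 1 H.one_mem
  rw [mul_one] at this
  linarith

theorem AddOn.inv (h : AddOn H χ) {a : Γ} (ha : a ∈ H) : χ a⁻¹ = - χ a := by
  have := h a ha a⁻¹ (inv_mem ha)
  rw [mul_inv_cancel, h.one] at this
  linarith

theorem AddOn.pow (h : AddOn H χ) {a : Γ} (ha : a ∈ H) (m : ℕ) : χ (a ^ m) = m * χ a := by
  induction m with
  | zero => rw [pow_zero, h.one]; simp
  | succ m ih =>
    rw [pow_succ, h _ (pow_mem ha m) _ ha, ih]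
    push_cast
    ring

theorem AddOn.mono (h : AddOn H χ) (hL : L ≤ H) : AddOn L χ :=
  fun a ha b hb => h a (hL ha) b (hL hb)

theorem AddOn.conj (h : AddOn H χ) {a x : Γ} (ha : a ∈ H) (hx : x ∈ H) :
    χ (a * x * a⁻¹) = χ x := by
  rw [h _ (mul_mem ha hx) _ (inv_mem ha), h _ ha _ hx, h.inv ha]
  ring

theorem exists_pow (h : H.relIndex N ≠ 0) {x : Γ} (hx : x ∈ N) : ∃ m : ℕ, 0 < m ∧ x ^ m ∈ H := by
  obtain ⟨m, hm, _, h1⟩ := Subgroup.exists_pow_mem_of_relIndex_ne_zero h hx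
  exact ⟨m, hm, h1.1⟩

theorem exists_pow₂ (h : H.relIndex N ≠ 0) {x y : Γ} (hx : x ∈ N) (hy : y ∈ N) :
    ∃ m : ℕ, 0 < m ∧ x ^ m ∈ H ∧ y ^ m ∈ H := by
  obtain ⟨m, hm, h1⟩ := exists_pow h hx
  obtain ⟨n, hn, h2⟩ := exists_pow h hy
  refine ⟨m * n, Nat.mul_pos hm hn, ?_, ?_⟩
  · rw [pow_mul]
    exact pow_mem h1 n
  · rw [mul_comm, pow_mul]
    exact pow_mem h2 m

theorem conj_pow' (g x : Γ) (m : ℕ) : g * x ^ m * g⁻¹ = (g * x * g⁻¹) ^ m := (conj_pow).symm

end basic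

/-- the elements of `N` which act trivially on all characters of subgroups of finite index of `N` with
values in `ℚ` -/
def charStab (N : Subgroup Γ) : Subgroup Γ where
  carrier := {g | g ∈ N ∧ ∀ (L : Subgroup Γ) (χ : Γ → ℚ), L ≤ N → L.relIndex N ≠ 0 → AddOn L χ →
    ∀ x ∈ L, g * x * g⁻¹ ∈ L → χ (g * x * g⁻¹) = χ x}
  one_mem' := ⟨N.one_mem, fun L χ _ _ _ x _ _ => by rw [one_mul, inv_one, mul_one]⟩
  mul_mem' := by
    rintro a b ⟨ha, ha'⟩ ⟨hb, hb'⟩
    refine ⟨mul_mem ha hb, fun L χ hL hi hχ x hx hx' => ?_⟩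
    have hbx : b * x * b⁻¹ ∈ N := mul_mem (mul_mem hb (hL hx)) (inv_mem hb)
    obtain ⟨m, hm, h1⟩ := exists_pow hi hbx
    have e1 : a * b * x * (a * b)⁻¹ = a * (b * x * b⁻¹) * a⁻¹ := by group
    have h2 : χ (b * x ^ m * b⁻¹) = χ (x ^ m) := by
      refine hb' L χ hL hi hχ _ (pow_mem hx m) ?_
      rw [conj_pow']
      exact h1
    have h3 : χ (a * (b * x * b⁻¹) ^ m * a⁻¹) = χ ((b * x * b⁻¹) ^ m) := by
      refine ha' L χ hL hi hχ _ h1 ?_
      rw [conj_pow', ← e1]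
      exact pow_mem hx' m
    rw [conj_pow', ← e1, hχ.pow hx' m, ← conj_pow' b x m, h2, hχ.pow hx m] at h3
    have hm' : (m : ℚ) ≠ 0 := by exact_mod_cast hm.ne'
    exact mul_left_cancel₀ hm' h3
  inv_mem' := by
    rintro a ⟨ha, ha'⟩
    refine ⟨inv_mem ha, fun L χ hL hi hχ x hx hx' => ?_⟩
    have e1 : a * (a⁻¹ * x * a⁻¹⁻¹) * a⁻¹ = x := by group
    have h1 := ha' L χ hL hi hχ _ hx' (by rw [e1]; exact hx)
    rw [e1] at h1
    exact h1.symm

theorem charStab_le (N : Subgroup Γ) : charStab N ≤ N := fun _ h => h.1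

/-- extension of invariant characters from normal subgroups of finite index -/
theorem ext_transfer {G : Type} [Group G] (L : Subgroup G) [hLn : L.Normal] [L.FiniteIndex]
    (χ : L →* Multiplicative ℚ)
    (hinv : ∀ (g : G) (x : L), χ ⟨g * x * g⁻¹, hLn.conj_mem x x.2 g⟩ = χ x) :
    ∃ E : G →* Multiplicative ℚ, ∀ x : L, E x = χ x := by
  classical
  have hT : ∀ x : L, MonoidHom.transfer χ (x : G) = χ x ^ L.index := by
    intro x
    let T : L.LeftTransversal := default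
    rw [MonoidHom.transfer_def χ T]
    unfold Subgroup.leftTransversals.diff
    letI := L.fintypeQuotientOfFiniteIndex
    have h1 : ∀ q : G ⧸ L, (x : G)⁻¹ • q = q := by
      intro q
      induction q using QuotientGroup.induction_on with
      | H g =>
        change ((((x : G)⁻¹ * g : G)) : G ⧸ L) = g
        rw [QuotientGroup.eq]
        have := hLn.conj_mem x x.2 g⁻¹
        simpa [mul_assoc] using this
    rw [Subgroup.index_eq_card, Nat.card_eq_fintype_card, ← Finset.card_univ,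
      ← Finset.prod_const]
    refine Finset.prod_congr rfl (fun q _ => ?_)
    have h2 := hinv (((T.2.leftQuotientEquiv q : G))⁻¹) x
    rw [← h2]
    congr 1
    apply Subtype.ext
    change ((T.2.leftQuotientEquiv q : G))⁻¹ * (((x : G) • T).2.leftQuotientEquiv q : G) = _
    rw [Subgroup.smul_apply_eq_smul_apply_inv_smul, h1 q]
    change ((T.2.leftQuotientEquiv q : G))⁻¹ * ((x : G) * (T.2.leftQuotientEquiv q : G)) =
      ((T.2.leftQuotientEquiv q : G))⁻¹ * (x : G) * ((T.2.leftQuotientEquiv q : G))⁻¹⁻¹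
    rw [inv_inv, mul_assoc]
  have hi : ((L.index : ℕ) : ℚ) ≠ 0 := by exact_mod_cast Subgroup.FiniteIndex.index_ne_zero
  let S : Multiplicative ℚ →* Multiplicative ℚ :=
    (AddMonoidHom.mulLeft ((L.index : ℚ)⁻¹)).toMultiplicative
  refine ⟨S.comp (MonoidHom.transfer χ), fun x => ?_⟩
  change S (MonoidHom.transfer χ (x : G)) = χ x
  rw [hT x]
  change Multiplicative.ofAdd ((L.index : ℚ)⁻¹ * (Multiplicative.toAdd (χ x ^ L.index))) = χ x
  rw [toAdd_pow, nsmul_eq_mul, inv_mul_cancel_left₀ hi]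
  rfl

/-- characters of subgroups of finite index of `N` extend to `charStab N` -/
theorem exists_ext {N L : Subgroup Γ} {χ : Γ → ℚ} (hL : L ≤ N) (hi : L.relIndex N ≠ 0)
    (hχ : AddOn L χ) :
    ∃ E : Γ → ℚ, AddOn (charStab N) E ∧ ∀ g ∈ charStab N, ∀ m : ℕ, g ^ m ∈ L → χ (g ^ m) = m * E g := by
  classical
  set A := charStab N with hA
  have hiA : (L.subgroupOf A).index ≠ 0 := by
    have h1 : L.relIndex A ≠ 0 := fun h0 =>
      hi (Subgroup.relIndex_eq_zero_of_le_right (charStab_le N) h0)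
    exact h1
  haveI : (L.subgroupOf A).FiniteIndex := ⟨hiA⟩
  set L₀ : Subgroup A := (L.subgroupOf A).normalCore with hL₀
  have hL₀L : ∀ x : L₀, ((x : A) : Γ) ∈ L := fun x =>
    Subgroup.normalCore_le (L.subgroupOf A) x.2
  haveI : L₀.FiniteIndex := by
    rw [hL₀]
    infer_instance
  let χ₀ : L₀ →* Multiplicative ℚ :=
    { toFun := fun x => Multiplicative.ofAdd (χ ((x : A) : Γ))
      map_one' := by
        change Multiplicative.ofAdd (χ 1) = 1
        rw [hχ.one]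
        rfl
      map_mul' := fun x y => by
        change Multiplicative.ofAdd (χ (((x : A) : Γ) * ((y : A) : Γ))) = _
        rw [hχ _ (hL₀L x) _ (hL₀L y)]
        rfl }
  obtain ⟨E, hE⟩ := ext_transfer L₀ χ₀ (by
    intro g x
    have hx : ((x : A) : Γ) ∈ L := hL₀L x
    have hx' : ((g : Γ) * ((x : A) : Γ) * ((g : Γ))⁻¹) ∈ L :=
      hL₀L ⟨g * x * g⁻¹, (inferInstance : L₀.Normal).conj_mem x x.2 g⟩
    change Multiplicative.ofAdd (χ ((g : Γ) * ((x : A) : Γ) * ((g : Γ))⁻¹)) =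
      Multiplicative.ofAdd (χ ((x : A) : Γ))
    rw [g.2.2 L χ hL hi hχ _ hx hx'])
  have hEpow : ∀ (g : A) (m : ℕ), Multiplicative.toAdd (E (g ^ m)) =
      m * Multiplicative.toAdd (E g) := by
    intro g m
    rw [map_pow, toAdd_pow, nsmul_eq_mul]
  refine ⟨fun g => if h : g ∈ A then Multiplicative.toAdd (E ⟨g, h⟩) else 0, ?_, ?_⟩
  · intro a ha b hb
    simp only
    rw [dif_pos ha, dif_pos hb, dif_pos (mul_mem ha hb)]
    have : (⟨a * b, mul_mem ha hb⟩ : A) = ⟨a, ha⟩ * ⟨b, hb⟩ := rfl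
    rw [this, map_mul]
    rfl
  · intro g hg m hm
    simp only
    rw [dif_pos hg]
    have hL₀i : L₀.index ≠ 0 := Subgroup.FiniteIndex.index_ne_zero
    have h1 : ((⟨g, hg⟩ : A) ^ m) ^ L₀.index ∈ L₀ := Subgroup.pow_index_mem L₀ _
    have h2 : Multiplicative.toAdd (E (((⟨g, hg⟩ : A) ^ m) ^ L₀.index)) =
        χ ((g ^ m) ^ L₀.index) := by
      have := hE ⟨_, h1⟩
      change E (((⟨g, hg⟩ : A) ^ m) ^ L₀.index) = Multiplicative.ofAdd (χ ((g ^ m) ^ L₀.index)) at this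
      rw [this]
      rfl
    rw [hEpow, hEpow, hχ.pow hm] at h2
    have h3 : ((L₀.index : ℕ) : ℚ) ≠ 0 := by exact_mod_cast hL₀i
    exact (mul_left_cancel₀ h3 h2).symm

/-- the elements of `charStab N` on which all characters of subgroups of finite index of `N` vanish -/
def charKer (N : Subgroup Γ) : Subgroup Γ where
  carrier := {g | g ∈ charStab N ∧ ∀ (L : Subgroup Γ) (χ : Γ → ℚ), L ≤ N → L.relIndex N ≠ 0 →
    AddOn L χ → ∀ m : ℕ, g ^ m ∈ L → χ (g ^ m) = 0}
  one_mem' := ⟨one_mem _, fun L χ _ _ hχ m _ => by rw [one_pow, hχ.one]⟩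
  mul_mem' := by
    rintro a b ⟨ha, ha'⟩ ⟨hb, hb'⟩
    refine ⟨mul_mem ha hb, fun L χ hL hi hχ m hm => ?_⟩
    obtain ⟨E, hE, hE'⟩ := exists_ext hL hi hχ
    have h0 : ∀ g : Γ, g ∈ charStab N → (∀ m : ℕ, g ^ m ∈ L → χ (g ^ m) = 0) → E g = 0 := by
      intro g hg h
      obtain ⟨k, hk, h1⟩ := exists_pow hi (charStab_le N hg)
      have h2 := hE' g hg k h1
      rw [h k h1] at h2
      have hk' : (k : ℚ) ≠ 0 := by exact_mod_cast hk.ne'
      rcases mul_eq_zero.1 h2.symm with h3 | h3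
      · exact absurd h3 hk'
      · exact h3
    rw [hE' _ (mul_mem ha hb) m hm, hE a ha b hb, h0 a ha (ha' L χ hL hi hχ),
      h0 b hb (hb' L χ hL hi hχ)]
    ring
  inv_mem' := by
    rintro a ⟨ha, ha'⟩
    refine ⟨inv_mem ha, fun L χ hL hi hχ m hm => ?_⟩
    rw [inv_pow] at hm ⊢
    have h1 : a ^ m ∈ L := by
      have := inv_mem hm
      rwa [inv_inv] at this
    rw [hχ.inv h1, ha' L χ hL hi hχ m h1, neg_zero]

theorem charKer_le (N : Subgroup Γ) : charKer N ≤ charStab N := fun _ h => h.1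

theorem commutator_charStab (N : Subgroup Γ) : ⁅charStab N, charStab N⁆ ≤ charKer N := by
  refine Subgroup.commutator_le.2 (fun a ha b hb => ?_)
  refine ⟨mul_mem (mul_mem (mul_mem ha hb) (inv_mem ha)) (inv_mem hb), fun L χ hL hi hχ m hm => ?_⟩
  obtain ⟨E, hE, hE'⟩ := exists_ext hL hi hχ
  rw [commutatorElement_def] at hm ⊢
  rw [hE' _ (mul_mem (mul_mem (mul_mem ha hb) (inv_mem ha)) (inv_mem hb)) m hm]
  rw [hE _ (mul_mem (mul_mem ha hb) (inv_mem ha)) _ (inv_mem hb),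
    hE _ (mul_mem ha hb) _ (inv_mem ha), hE a ha b hb, hE.inv ha, hE.inv hb]
  ring

/-! ### compatibility with subgroups of finite index -/

theorem charStab_inf {H N : Subgroup Γ} (hH : H ≤ N) (hi : H.relIndex N ≠ 0) :
    charStab N ⊓ H = charStab H := by
  apply le_antisymm
  · rintro g ⟨hg, hgH⟩
    refine ⟨hgH, fun L χ hL hLi hχ x hx hx' => ?_⟩
    exact hg.2 L χ (hL.trans hH) (Subgroup.relIndex_ne_zero_trans hLi hi) hχ x hx hx'
  · intro g hg
    refine ⟨⟨hH hg.1, fun L χ hL hLi hχ x hx hx' => ?_⟩, hg.1⟩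
    have h1 : (H ⊓ L).relIndex N ≠ 0 := Subgroup.relIndex_inf_ne_zero hi hLi
    obtain ⟨m, hm, h2, h3⟩ := exists_pow₂ h1 (hL hx) (hL hx')
    have h4 : (H ⊓ L).relIndex H ≠ 0 := fun h0 =>
      h1 (Subgroup.relIndex_eq_zero_of_le_right hH h0)
    have h5 := hg.2 (H ⊓ L) χ inf_le_left h4 (hχ.mono inf_le_right) _ h2 (by
      rw [conj_pow']
      exact h3)
    rw [conj_pow', hχ.pow hx', hχ.pow hx] at h5
    have hm' : (m : ℚ) ≠ 0 := by exact_mod_cast hm.ne'
    exact mul_left_cancel₀ hm' h5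

theorem charKer_inf {H N : Subgroup Γ} (hH : H ≤ N) (hi : H.relIndex N ≠ 0) :
    charKer N ⊓ H = charKer H := by
  apply le_antisymm
  · rintro g ⟨hg, hgH⟩
    refine ⟨?_, fun L χ hL hLi hχ m hm => ?_⟩
    · rw [← charStab_inf hH hi]
      exact ⟨hg.1, hgH⟩
    · exact hg.2 L χ (hL.trans hH) (Subgroup.relIndex_ne_zero_trans hLi hi) hχ m hm
  · intro g hg
    have hg1 : g ∈ charStab N ⊓ H := by
      rw [charStab_inf hH hi]
      exact hg.1
    refine ⟨⟨hg1.1, fun L χ hL hLi hχ m hm => ?_⟩, hg1.2⟩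
    have h1 : (H ⊓ L).relIndex N ≠ 0 := Subgroup.relIndex_inf_ne_zero hi hLi
    have h4 : (H ⊓ L).relIndex H ≠ 0 := fun h0 =>
      h1 (Subgroup.relIndex_eq_zero_of_le_right hH h0)
    exact hg.2 (H ⊓ L) χ inf_le_left h4 (hχ.mono inf_le_right) m ⟨pow_mem hg1.2 m, hm⟩

/-- the series of `N` -/
def ser (N : Subgroup Γ) : ℕ → Subgroup Γ
  | 0 => N
  | 1 => charStab N
  | (i + 2) => ser (charKer N) i

theorem ser_le (N : Subgroup Γ) (i : ℕ) : ser N i ≤ N := by
  induction i using Nat.twoStepInduction generalizing N with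
  | zero => exact le_refl _
  | one => exact charStab_le N
  | more i ih _ => exact (ih _).trans ((charKer_le N).trans (charStab_le N))

theorem ser_succ_le (N : Subgroup Γ) (i : ℕ) : ser N (i + 1) ≤ ser N i := by
  induction i using Nat.twoStepInduction generalizing N with
  | zero => exact charStab_le N
  | one => exact charKer_le N
  | more i ih _ => exact ih _

/-- `H` and `N` are commensurable -/
def Comm (H N : Subgroup Γ) : Prop := H.relIndex N ≠ 0 ∧ N.relIndex H ≠ 0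

theorem Comm.symm {H N : Subgroup Γ} (h : Comm H N) : Comm N H := ⟨h.2, h.1⟩

theorem charKer_comm {H N : Subgroup Γ} (h : Comm H N) :
    charKer H ⊓ N = charKer N ⊓ H := by
  have h1 : (H ⊓ N).relIndex N ≠ 0 := by rw [Subgroup.inf_relIndex_right]; exact h.1
  have h2 : (H ⊓ N).relIndex H ≠ 0 := by rw [Subgroup.inf_relIndex_left]; exact h.2
  have h3 := charKer_inf (inf_le_left : H ⊓ N ≤ H) h2
  have h4 := charKer_inf (inf_le_right : H ⊓ N ≤ N) h1
  have h5 : charKer H ⊓ N = charKer H ⊓ (H ⊓ N) := by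
    rw [← inf_assoc, inf_eq_left.2 ((charKer_le H).trans (charStab_le H))]
  have h6 : charKer N ⊓ H = charKer N ⊓ (H ⊓ N) := by
    rw [inf_comm H N, ← inf_assoc, inf_eq_left.2 ((charKer_le N).trans (charStab_le N))]
  rw [h5, h6, h3, h4]

theorem charStab_comm {H N : Subgroup Γ} (h : Comm H N) :
    charStab H ⊓ N = charStab N ⊓ H := by
  have h1 : (H ⊓ N).relIndex N ≠ 0 := by rw [Subgroup.inf_relIndex_right]; exact h.1
  have h2 : (H ⊓ N).relIndex H ≠ 0 := by rw [Subgroup.inf_relIndex_left]; exact h.2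
  have h3 := charStab_inf (inf_le_left : H ⊓ N ≤ H) h2
  have h4 := charStab_inf (inf_le_right : H ⊓ N ≤ N) h1
  have h5 : charStab H ⊓ N = charStab H ⊓ (H ⊓ N) := by
    rw [← inf_assoc, inf_eq_left.2 (charStab_le H)]
  have h6 : charStab N ⊓ H = charStab N ⊓ (H ⊓ N) := by
    rw [inf_comm H N, ← inf_assoc, inf_eq_left.2 (charStab_le N)]
  rw [h5, h6, h3, h4]

theorem comm_charKer {H N : Subgroup Γ} (h : Comm H N) : Comm (charKer H) (charKer N) := by
  have key : ∀ {H N : Subgroup Γ}, Comm H N → (charKer H).relIndex (charKer N) ≠ 0 := by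
    intro H N h h0
    have h1 : charKer H ⊓ charKer N = H ⊓ charKer N := by
      apply le_antisymm
      · exact inf_le_inf_right _ ((charKer_le H).trans (charStab_le H))
      · rintro g ⟨hg1, hg2⟩
        have h2 : g ∈ charKer N ⊓ H := ⟨hg2, hg1⟩
        rw [← charKer_comm h] at h2
        exact ⟨h2.1, hg2⟩
    rw [← Subgroup.inf_relIndex_right, h1, Subgroup.inf_relIndex_right] at h0
    exact h.1 (Subgroup.relIndex_eq_zero_of_le_right ((charKer_le N).trans (charStab_le N)) h0)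
  exact ⟨key h, key h.symm⟩

theorem ser_comm {H N : Subgroup Γ} (h : Comm H N) (i : ℕ) : ser H i ⊓ N = ser N i ⊓ H := by
  induction i using Nat.twoStepInduction generalizing H N with
  | zero => exact inf_comm _ _
  | one => exact charStab_comm h
  | more i ih _ =>
    have key : ∀ {H N : Subgroup Γ}, Comm H N → ser (charKer H) i ⊓ N ≤ ser (charKer N) i ⊓ H := by
      intro H N h g hg
      have h1 : g ∈ charKer H ⊓ N := ⟨ser_le _ _ hg.1, hg.2⟩
      rw [charKer_comm h] at h1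
      have h2 : g ∈ ser (charKer H) i ⊓ charKer N := ⟨hg.1, h1.1⟩
      rw [ih (comm_charKer h)] at h2
      exact ⟨h2.1, h1.2⟩
    exact le_antisymm (key h) (key h.symm)

/-! ### conjugation -/

/-- the conjugate of `N` by `γ` -/
def cj (γ : Γ) (N : Subgroup Γ) : Subgroup Γ := N.map (MulAut.conj γ).toMonoidHom

theorem mem_cj {γ x : Γ} {N : Subgroup Γ} (h : x ∈ N) : γ * x * γ⁻¹ ∈ cj γ N := ⟨x, h, rfl⟩

theorem of_mem_cj {γ x : Γ} {N : Subgroup Γ} (h : γ * x * γ⁻¹ ∈ cj γ N) : x ∈ N := by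
  obtain ⟨y, hy, h1⟩ := h
  have h2 : γ * y * γ⁻¹ = γ * x * γ⁻¹ := h1
  have h3 : y = x := mul_left_cancel (mul_right_cancel h2)
  rwa [← h3]

theorem cj_inv_cj (γ : Γ) (N : Subgroup Γ) : cj γ⁻¹ (cj γ N) = N := by
  ext x
  constructor
  · rintro ⟨_, ⟨y, hy, rfl⟩, rfl⟩
    change γ⁻¹ * (γ * y * γ⁻¹) * γ⁻¹⁻¹ ∈ N
    have : γ⁻¹ * (γ * y * γ⁻¹) * γ⁻¹⁻¹ = y := by group
    rwa [this]
  · intro hx
    refine ⟨γ * x * γ⁻¹, mem_cj hx, ?_⟩
    change γ⁻¹ * (γ * x * γ⁻¹) * γ⁻¹⁻¹ = x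
    group

theorem cj_eq_of {F : Subgroup Γ → Subgroup Γ}
    (h : ∀ (γ : Γ) (N : Subgroup Γ) (x : Γ), x ∈ F N → γ * x * γ⁻¹ ∈ F (cj γ N))
    (γ : Γ) (N : Subgroup Γ) : F (cj γ N) = cj γ (F N) := by
  apply le_antisymm
  · intro x hx
    have h1 := h γ⁻¹ _ x hx
    rw [cj_inv_cj] at h1
    refine ⟨_, h1, ?_⟩
    change γ * (γ⁻¹ * x * γ⁻¹⁻¹) * γ⁻¹ = x
    group
  · rintro _ ⟨x, hx, rfl⟩
    exact h γ N x hx

theorem charStab_cj (γ : Γ) (N : Subgroup Γ) (x : Γ) (hx : x ∈ charStab N) :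
    γ * x * γ⁻¹ ∈ charStab (cj γ N) := by
  refine ⟨mem_cj hx.1, fun L χ hL hi hχ y hy hy' => ?_⟩
  have h1 : L.comap (MulAut.conj γ).toMonoidHom ≤ N := fun z hz => of_mem_cj (hL hz)
  have h2 : (L.comap (MulAut.conj γ).toMonoidHom).relIndex N ≠ 0 := by
    rw [Subgroup.relIndex_comap]
    exact hi
  have h3 : AddOn (L.comap (MulAut.conj γ).toMonoidHom) (fun z => χ (γ * z * γ⁻¹)) := by
    intro a ha b hb
    have e1 : γ * (a * b) * γ⁻¹ = (γ * a * γ⁻¹) * (γ * b * γ⁻¹) := by group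
    change χ (γ * (a * b) * γ⁻¹) = _
    rw [e1]
    exact hχ _ ha _ hb
  have e2 : γ * (γ⁻¹ * y * γ) * γ⁻¹ = y := by group
  have e3 : γ * (x * (γ⁻¹ * y * γ) * x⁻¹) * γ⁻¹ = γ * x * γ⁻¹ * y * (γ * x * γ⁻¹)⁻¹ := by group
  have h4 := hx.2 _ _ h1 h2 h3 (γ⁻¹ * y * γ) (by
    change γ * (γ⁻¹ * y * γ) * γ⁻¹ ∈ L
    rw [e2]
    exact hy) (by
    change γ * (x * (γ⁻¹ * y * γ) * x⁻¹) * γ⁻¹ ∈ L
    rw [e3]
    exact hy')
  change χ (γ * (x * (γ⁻¹ * y * γ) * x⁻¹) * γ⁻¹) = χ (γ * (γ⁻¹ * y * γ) * γ⁻¹) at h4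
  rw [e2, e3] at h4
  exact h4

theorem charKer_cj (γ : Γ) (N : Subgroup Γ) (x : Γ) (hx : x ∈ charKer N) :
    γ * x * γ⁻¹ ∈ charKer (cj γ N) := by
  refine ⟨charStab_cj γ N x hx.1, fun L χ hL hi hχ m hm => ?_⟩
  have h1 : L.comap (MulAut.conj γ).toMonoidHom ≤ N := fun z hz => of_mem_cj (hL hz)
  have h2 : (L.comap (MulAut.conj γ).toMonoidHom).relIndex N ≠ 0 := by
    rw [Subgroup.relIndex_comap]
    exact hi
  have h3 : AddOn (L.comap (MulAut.conj γ).toMonoidHom) (fun z => χ (γ * z * γ⁻¹)) := by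
    intro a ha b hb
    have e1 : γ * (a * b) * γ⁻¹ = (γ * a * γ⁻¹) * (γ * b * γ⁻¹) := by group
    change χ (γ * (a * b) * γ⁻¹) = _
    rw [e1]
    exact hχ _ ha _ hb
  rw [← conj_pow'] at hm ⊢
  exact hx.2 _ _ h1 h2 h3 m hm

theorem ser_cj (γ : Γ) (i : ℕ) (N : Subgroup Γ) (x : Γ) (hx : x ∈ ser N i) :
    γ * x * γ⁻¹ ∈ ser (cj γ N) i := by
  induction i using Nat.twoStepInduction generalizing N with
  | zero => exact mem_cj hx
  | one => exact charStab_cj γ N x hx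
  | more i ih _ =>
    change γ * x * γ⁻¹ ∈ ser (charKer (cj γ N)) i
    rw [cj_eq_of charKer_cj γ N]
    exact ih _ hx

/-! ### groups of finite Hirsch length -/

/-- `N` has a subgroup `D` of finite index which is commutative, divisible and torsion. -/
def VD (N : Subgroup Γ) : Prop :=
  ∃ D ≤ N, D.relIndex N ≠ 0 ∧ (∀ a ∈ D, ∀ b ∈ D, a * b = b * a) ∧
    (∀ n : ℕ, n ≠ 0 → ∀ a ∈ D, ∃ b ∈ D, b ^ n = a) ∧ (∀ a ∈ D, ∃ n : ℕ, n ≠ 0 ∧ a ^ n = 1)

/-- All subgroups of `N` have a commutative divisible torsion subgroup of finite index (`n = 0`; e.g.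
Chernikov groups, in particular finite groups), or a subgroup `H` of finite index of `N` has a
homomorphism to `ℚ` whose kernel has the property for `n - 1`. -/
def Rk : ℕ → Subgroup Γ → Prop
  | 0, N => ∀ N' ≤ N, VD N'
  | (n + 1), N => ∃ (H K : Subgroup Γ) (χ : Γ → ℚ), H ≤ N ∧ H.relIndex N ≠ 0 ∧ AddOn H χ ∧
      (∀ x, x ∈ K ↔ x ∈ H ∧ χ x = 0) ∧ Rk n K

theorem Rk.sub {n : ℕ} {N N' : Subgroup Γ} (h : Rk n N) (h' : N' ≤ N) : Rk n N' := by
  induction n generalizing N N' with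
  | zero => exact fun N₁ h₁ => h N₁ (h₁.trans h')
  | succ n ih =>
    obtain ⟨H, K, χ, hH, hi, hχ, hK, hn⟩ := h
    refine ⟨H ⊓ N', K ⊓ N', χ, inf_le_right, ?_, hχ.mono inf_le_left, ?_, ih hn inf_le_left⟩
    · rw [Subgroup.inf_relIndex_right]
      intro h0
      exact hi (Subgroup.relIndex_eq_zero_of_le_right h' h0)
    · intro x
      rw [Subgroup.mem_inf, Subgroup.mem_inf, hK]
      tauto

theorem Rk.over {n : ℕ} {N N' : Subgroup Γ} (h : Rk n N') (h' : N' ≤ N) (hi : N'.relIndex N ≠ 0) :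
    Rk n N := by
  cases n with
  | zero =>
    intro N₁ h₁
    obtain ⟨D, hD, hDi, h2, h3, h4⟩ := h (N₁ ⊓ N') inf_le_right
    refine ⟨D, hD.trans inf_le_left, ?_, h2, h3, h4⟩
    refine Subgroup.relIndex_ne_zero_trans hDi ?_
    rw [Subgroup.inf_relIndex_left]
    exact fun h0 => hi (Subgroup.relIndex_eq_zero_of_le_right h₁ h0)
  | succ n =>
    obtain ⟨H, K, χ, hH, hi', hχ, hK, hn⟩ := h
    exact ⟨H, K, χ, hH.trans h', Subgroup.relIndex_ne_zero_trans hi' hi, hχ, hK, hn⟩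

theorem Rk.comm {n : ℕ} {N N' : Subgroup Γ} (h : Rk n N) (hc : Comm N N') : Rk n N' := by
  refine (h.sub (inf_le_left : N ⊓ N' ≤ N)).over inf_le_right ?_
  rw [Subgroup.inf_relIndex_right]
  exact hc.1

theorem Rk.charKer {n : ℕ} {N : Subgroup Γ} (h : Rk (n + 1) N) : Rk n (charKer N) := by
  obtain ⟨H, K, χ, hH, hi, hχ, hK, hn⟩ := h
  refine (hn.sub (N' := H ⊓ TA.charKer N) ?_).over inf_le_right ?_
  · rintro g ⟨hg1, hg2⟩
    rw [hK]
    refine ⟨hg1, ?_⟩
    have := hg2.2 H χ hH hi hχ 1 (by rwa [pow_one])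
    rwa [pow_one] at this
  · rw [Subgroup.inf_relIndex_right]
    intro h0
    exact hi (Subgroup.relIndex_eq_zero_of_le_right ((charKer_le N).trans (charStab_le N)) h0)

theorem Rk.ser {n : ℕ} {N : Subgroup Γ} (h : Rk n N) (i : ℕ) (hi : 2 * n ≤ i) :
    Rk 0 (ser N i) := by
  induction n generalizing N i with
  | zero => exact h.sub (ser_le N i)
  | succ n ih =>
    obtain ⟨j, rfl⟩ : ∃ j, i = j + 2 := ⟨i - 2, by omega⟩
    exact ih h.charKer j (by omega)

/-- the additive map of a function which is additive on `H` -/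
def mkHom {H : Subgroup Γ} {χ : Γ → ℚ} (h : AddOn H χ) : Additive H →+ ℚ where
  toFun x := χ ((Additive.toMul x : H) : Γ)
  map_zero' := h.one
  map_add' x y := h _ (Additive.toMul x).2 _ (Additive.toMul y).2

/-- restriction -/
def resHom {H N : Subgroup Γ} (h : H ≤ N) : (Additive N →+ ℚ) →ₗ[ℚ] (Additive H →+ ℚ) where
  toFun ψ := ψ.comp (MonoidHom.toAdditive (Subgroup.inclusion h))
  map_add' _ _ := rfl
  map_smul' _ _ := rfl

theorem hom_pow {N : Subgroup Γ} (ψ : Additive N →+ ℚ) (x : N) (m : ℕ) :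
    ψ (Additive.ofMul (x ^ m)) = m * ψ (Additive.ofMul x) := by
  rw [ofMul_pow, map_nsmul, nsmul_eq_mul]

theorem resHom_injective {H N : Subgroup Γ} (h : H ≤ N) (hi : H.relIndex N ≠ 0) :
    Function.Injective (resHom h) := by
  rw [← LinearMap.ker_eq_bot, LinearMap.ker_eq_bot']
  intro ψ hψ
  refine AddMonoidHom.ext (fun x => ?_)
  obtain ⟨m, hm, h1⟩ := exists_pow hi (Additive.toMul x).2
  have h2 : resHom h ψ (Additive.ofMul (⟨((Additive.toMul x : N) : Γ) ^ m, h1⟩ : H)) = 0 := by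
    rw [hψ]
    rfl
  have h3 : ψ (Additive.ofMul ((Additive.toMul x : N) ^ m)) = 0 := h2
  rw [hom_pow] at h3
  have hm' : (m : ℚ) ≠ 0 := by exact_mod_cast hm.ne'
  rcases mul_eq_zero.1 h3 with h4 | h4
  · exact absurd h4 hm'
  · exact h4

theorem Rk.fin {n : ℕ} {N : Subgroup Γ} (h : Rk n N) :
    Module.Finite ℚ (Additive N →+ ℚ) ∧ Module.finrank ℚ (Additive N →+ ℚ) ≤ n := by
  induction n generalizing N with
  | zero =>
    obtain ⟨D, hD, hDi, -, -, htor⟩ := h N (le_refl _)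
    have hsub : Subsingleton (Additive N →+ ℚ) := by
      refine ⟨fun a b => ?_⟩
      have key : ∀ ψ : Additive N →+ ℚ, ∀ x, ψ x = 0 := by
        intro ψ x
        obtain ⟨m, hm, hmD⟩ := exists_pow hDi (Additive.toMul x).2
        obtain ⟨k, hk, hk1⟩ := htor _ hmD
        have h1 := hom_pow ψ (Additive.toMul x) (m * k)
        have h3 : (Additive.toMul x) ^ (m * k) = 1 := by
          apply Subtype.ext
          rw [pow_mul]
          exact hk1
        rw [h3] at h1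
        have h2 : ψ (Additive.ofMul (1 : N)) = 0 := map_zero ψ
        rw [h2] at h1
        have hm' : ((m * k : ℕ) : ℚ) ≠ 0 := by exact_mod_cast Nat.mul_ne_zero hm.ne' hk
        rcases mul_eq_zero.1 h1.symm with h4 | h4
        · exact absurd h4 hm'
        · exact h4
      exact AddMonoidHom.ext (fun x => by rw [key a, key b])
    refine ⟨inferInstance, ?_⟩
    rw [Module.finrank_zero_of_subsingleton]
  | succ n ih =>
    obtain ⟨H, K, χ, hH, hi, hχ, hK, hn⟩ := h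
    obtain ⟨h1, h2⟩ := ih hn
    have hKH : K ≤ H := fun x hx => ((hK x).1 hx).1
    obtain ⟨h₀, hh₀, hh₀'⟩ : ∃ h₀ ∈ H, (χ h₀ = 0 → ∀ x ∈ H, χ x = 0) := by
      by_cases hc : ∃ x ∈ H, χ x ≠ 0
      · obtain ⟨x, hx, hx'⟩ := hc
        exact ⟨x, hx, fun h0 => absurd h0 hx'⟩
      · push Not at hc
        exact ⟨1, H.one_mem, fun _ => hc⟩
    let ev : (Additive H →+ ℚ) →ₗ[ℚ] ℚ :=
      { toFun := fun ψ => ψ (Additive.ofMul (⟨h₀, hh₀⟩ : H))
        map_add' := fun _ _ => rfl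
        map_smul' := fun _ _ => rfl }
    let j : (Additive H →+ ℚ) →ₗ[ℚ] (Additive K →+ ℚ) × ℚ := LinearMap.prod (resHom hKH) ev
    have hj : Function.Injective j := by
      rw [← LinearMap.ker_eq_bot, LinearMap.ker_eq_bot']
      intro ψ hψ
      have hψ1 : resHom hKH ψ = 0 := congrArg Prod.fst hψ
      have hψ2 : ψ (Additive.ofMul (⟨h₀, hh₀⟩ : H)) = 0 := congrArg Prod.snd hψ
      have hψK : ∀ x : H, (x : Γ) ∈ K → ψ (Additive.ofMul x) = 0 := by
        intro x hx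
        have := DFunLike.congr_fun hψ1 (Additive.ofMul (⟨(x : Γ), hx⟩ : K))
        exact this
      refine AddMonoidHom.ext (fun x => ?_)
      obtain ⟨x, hx⟩ : ∃ y : H, Additive.ofMul y = x := ⟨Additive.toMul x, rfl⟩
      subst hx
      change ψ (Additive.ofMul x) = 0
      by_cases h0 : χ h₀ = 0
      · exact hψK x ((hK _).2 ⟨x.2, hh₀' h0 _ x.2⟩)
      · -- ratio
        set r : ℚ := χ (x : Γ) / χ h₀ with hr
        have hr' : χ (x : Γ) = r * χ h₀ := by
          rw [hr, div_mul_cancel₀ _ h0]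
        have hden : (r.den : ℚ) ≠ 0 := by exact_mod_cast r.den_ne_zero
        have hrr : r = r.num / r.den := (Rat.num_div_den r).symm
        let y : H := x ^ r.den * (⟨h₀, hh₀⟩ : H) ^ (-r.num)
        have hzpow : ∀ k : ℤ, χ (h₀ ^ k) = k * χ h₀ := by
          intro k
          cases k with
          | ofNat k =>
            rw [Int.ofNat_eq_natCast, zpow_natCast, hχ.pow hh₀]
            push_cast
            rfl
          | negSucc k =>
            rw [zpow_negSucc, hχ.inv (pow_mem hh₀ _), hχ.pow hh₀]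
            push_cast
            ring
        have hyK : (y : Γ) ∈ K := by
          rw [hK]
          refine ⟨y.2, ?_⟩
          change χ ((x : Γ) ^ r.den * h₀ ^ (-r.num)) = 0
          rw [hχ _ (pow_mem x.2 _) _ (zpow_mem hh₀ _), hχ.pow x.2, hzpow, hr']
          have : (r.den : ℚ) * r = r.num := by
            rw [mul_comm]
            exact Rat.mul_den_eq_num r
          rw [← mul_assoc, this]
          push_cast
          ring
        have h5 := hψK y hyK
        change ψ (Additive.ofMul (x ^ r.den * (⟨h₀, hh₀⟩ : H) ^ (-r.num))) = 0 at h5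
        rw [ofMul_mul, map_add, hom_pow, ofMul_zpow, map_zsmul, hψ2, smul_zero, add_zero] at h5
        rcases mul_eq_zero.1 h5 with h6 | h6
        · exact absurd h6 hden
        · exact h6
    have hfin : Module.Finite ℚ (Additive H →+ ℚ) := Module.Finite.of_injective j hj
    have hr : Module.finrank ℚ (Additive H →+ ℚ) ≤ n + 1 := by
      refine (LinearMap.finrank_le_finrank_of_injective hj).trans ?_
      rw [Module.finrank_prod, Module.finrank_self]
      omega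
    exact ⟨Module.Finite.of_injective _ (resHom_injective hH hi),
      (LinearMap.finrank_le_finrank_of_injective (resHom_injective hH hi)).trans hr⟩

theorem Rk.charStab {n : ℕ} {N : Subgroup Γ} (h : Rk n N) : (charStab N).relIndex N ≠ 0 := by
  classical
  let r : Subgroup Γ → ℕ := fun H => Module.finrank ℚ (Additive H →+ ℚ)
  obtain ⟨H, ⟨hH, hHi⟩, hmax⟩ := (measure (fun H : Subgroup Γ => n - r H)).wf.has_min
    {H : Subgroup Γ | H ≤ N ∧ H.relIndex N ≠ 0} ⟨N, le_refl _, by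
      rw [Subgroup.relIndex_self]; exact one_ne_zero⟩
  have hmax' : ∀ H' : Subgroup Γ, H' ≤ N → H'.relIndex N ≠ 0 → r H' ≤ r H := by
    intro H' h1 h2
    have h3 : ¬ (n - r H' < n - r H) := hmax H' ⟨h1, h2⟩
    have h4 : r H' ≤ n := ((h.sub h1).fin).2
    omega
  have hle : H ≤ TA.charStab N := by
    intro g hg
    refine ⟨hH hg, fun L χ hL hi hχ x hx hx' => ?_⟩
    have h1 : (H ⊓ L).relIndex N ≠ 0 := Subgroup.relIndex_inf_ne_zero hHi hi
    have h1' : (H ⊓ L).relIndex H ≠ 0 := fun h0 =>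
      h1 (Subgroup.relIndex_eq_zero_of_le_right hH h0)
    obtain ⟨m, hm, h2, h3⟩ := exists_pow₂ h1 (hL hx) (hL hx')
    rw [← conj_pow'] at h3
    haveI := (h.sub hH).fin.1
    haveI := (h.sub (inf_le_left.trans hH : H ⊓ L ≤ N)).fin.1
    have hinj := resHom_injective (inf_le_left : H ⊓ L ≤ H) h1'
    have hr : r H = r (H ⊓ L) := le_antisymm (LinearMap.finrank_le_finrank_of_injective hinj)
      (hmax' _ (inf_le_left.trans hH) h1)
    have hsurj : Function.Surjective (resHom (inf_le_left : H ⊓ L ≤ H)) :=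
      (LinearMap.injective_iff_surjective_of_finrank_eq_finrank hr).1 hinj
    obtain ⟨ψ, hψ⟩ := hsurj (mkHom (hχ.mono (inf_le_right : H ⊓ L ≤ L)))
    have h4 : ∀ (y : Γ) (hy : y ∈ H ⊓ L), χ y = ψ (Additive.ofMul (⟨y, hy.1⟩ : H)) := by
      intro y hy
      exact (DFunLike.congr_fun hψ (Additive.ofMul (⟨y, hy⟩ : (H ⊓ L : Subgroup Γ)))).symm
    have h5 : χ (g * x ^ m * g⁻¹) = χ (x ^ m) := by
      rw [h4 _ h3, h4 _ h2]
      have e : (⟨g * x ^ m * g⁻¹, h3.1⟩ : H) = ⟨g, hg⟩ * ⟨x ^ m, h2.1⟩ * (⟨g, hg⟩)⁻¹ := rfl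
      rw [e, ofMul_mul, ofMul_mul, map_add, map_add, ofMul_inv, map_neg]
      ring
    rw [conj_pow', hχ.pow hx', hχ.pow hx] at h5
    have hm' : (m : ℚ) ≠ 0 := by exact_mod_cast hm.ne'
    exact mul_left_cancel₀ hm' h5
  intro h0
  exact hHi (Subgroup.relIndex_eq_zero_of_le_left hle h0)

/-! ### the finite residual -/

/-- the intersection of the subgroups of finite index of `N` -/
def finRes (N : Subgroup Γ) : Subgroup Γ := sInf {L | L ≤ N ∧ L.relIndex N ≠ 0}

theorem mem_finRes {N : Subgroup Γ} {x : Γ} :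
    x ∈ finRes N ↔ ∀ L ≤ N, L.relIndex N ≠ 0 → x ∈ L := by
  unfold finRes
  rw [Subgroup.mem_sInf]
  exact ⟨fun h L h1 h2 => h L ⟨h1, h2⟩, fun h L hL => h L hL.1 hL.2⟩

theorem finRes_le (N : Subgroup Γ) : finRes N ≤ N := by
  intro x hx
  refine mem_finRes.1 hx N (le_refl _) ?_
  rw [Subgroup.relIndex_self]
  exact one_ne_zero

theorem finRes_eq {H N : Subgroup Γ} (hH : H ≤ N) (hi : H.relIndex N ≠ 0) :
    finRes H = finRes N := by
  ext x
  rw [mem_finRes, mem_finRes]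
  constructor
  · intro h L hL hLi
    have h1 : (H ⊓ L).relIndex N ≠ 0 := Subgroup.relIndex_inf_ne_zero hi hLi
    have h4 : (H ⊓ L).relIndex H ≠ 0 := fun h0 =>
      h1 (Subgroup.relIndex_eq_zero_of_le_right hH h0)
    exact (h (H ⊓ L) inf_le_left h4).2
  · intro h L hL hLi
    exact h L (hL.trans hH) (Subgroup.relIndex_ne_zero_trans hLi hi)

theorem finRes_comm {H N : Subgroup Γ} (h : Comm H N) : finRes H = finRes N := by
  have h1 : (H ⊓ N).relIndex N ≠ 0 := by rw [Subgroup.inf_relIndex_right]; exact h.1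
  have h2 : (H ⊓ N).relIndex H ≠ 0 := by rw [Subgroup.inf_relIndex_left]; exact h.2
  rw [← finRes_eq inf_le_left h2, ← finRes_eq inf_le_right h1]

theorem finRes_cj (γ : Γ) (N : Subgroup Γ) (x : Γ) (hx : x ∈ finRes N) :
    γ * x * γ⁻¹ ∈ finRes (cj γ N) := by
  rw [mem_finRes] at hx ⊢
  intro L hL hi
  have h1 : L.comap (MulAut.conj γ).toMonoidHom ≤ N := fun z hz => of_mem_cj (hL hz)
  have h2 : (L.comap (MulAut.conj γ).toMonoidHom).relIndex N ≠ 0 := by
    rw [Subgroup.relIndex_comap]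
    exact hi
  exact hx _ h1 h2

theorem VD.finRes {N : Subgroup Γ} (h : VD N) :
    (finRes N).relIndex N ≠ 0 ∧ ∀ a ∈ finRes N, ∀ b ∈ finRes N, a * b = b * a := by
  obtain ⟨D, hD, hDi, h2, h3, -⟩ := h
  have h4 : TA.finRes N = D := by
    apply le_antisymm
    · intro x hx
      exact mem_finRes.1 hx D hD hDi
    · intro a ha
      rw [mem_finRes]
      intro L hL hLi
      have h5 : L.relIndex D ≠ 0 := fun h0 => hLi (Subgroup.relIndex_eq_zero_of_le_right hD h0)
      obtain ⟨b, hb, rfl⟩ := h3 (Nat.factorial (L.relIndex D)) (Nat.factorial_ne_zero _) a ha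
      exact (Subgroup.pow_mem_of_relIndex_ne_zero_of_dvd h5 hb
        (fun m hm hm' => Nat.dvd_factorial hm hm')).1
  rw [h4]
  exact ⟨hDi, h2⟩

theorem comm_ser {H N : Subgroup Γ} (h : Comm H N) (j : ℕ) : Comm (ser H (2 * j)) (ser N (2 * j)) := by
  induction j generalizing H N with
  | zero => exact h
  | succ j ih => exact ih (comm_charKer h)

theorem ser_cj_eq (γ : Γ) (i : ℕ) (N : Subgroup Γ) : ser (cj γ N) i = cj γ (ser N i) :=
  cj_eq_of (F := fun N => ser N i) (fun γ N x hx => ser_cj γ i N x hx) γ N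

/-- the factors of the series are finite and commutative in turns -/
theorem ser_factor {n : ℕ} {N : Subgroup Γ} (h : Rk n N) (i : ℕ) :
    (Even i → (ser N (i + 1)).relIndex (ser N i) ≠ 0) ∧
    (¬ Even i → ⁅ser N i, ser N i⁆ ≤ ser N (i + 1)) := by
  induction i using Nat.twoStepInduction generalizing N n with
  | zero => exact ⟨fun _ => h.charStab, fun h0 => absurd (by decide) h0⟩
  | one => exact ⟨fun h0 => absurd h0 (by decide), fun _ => commutator_charStab N⟩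
  | more i ih _ =>
    have h1 : Rk n (TA.charKer N) := h.sub ((charKer_le N).trans (charStab_le N))
    have h2 : Even (i + 1 + 1) ↔ Even i := by
      rw [Nat.even_add_one, Nat.even_add_one, not_not]
    rw [h2]
    exact ih h1

end Pool.Agent.Q152.TA
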